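import Pool.Agent.Helper84.LD.Par

set_option autoImplicit false

/-!
# The computability bridge for the logical depth of trees

If the logical depth `D(T)` of finite trees were computable, then the least size of a graph
`H ≢ T` with `H ≡_k T` (for trees `T` of size `≤ N` and `k < D(T)`) would be bounded by a
computable function of `N`.
-/

namespace Pool.Agent.Helper84.LD

/-- certificates `(m, l', c)` -/
abbrev Cert : Type := ℕ × List (ℕ × ℕ) × List (List (ℕ × ℕ))

/-- `x` certifies a graph `H` on `Fin x.1`, not isomorphic but `k`-equivalent to the tree of `p` -/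
def Good (p : List ℕ) (k : ℕ) (x : Cert) : Prop :=
  Chk (p.length + 1) x.1 k (parL p) x.2.1 x.2.2 ∧ NonIso (p.length + 1) x.1 (parL p) x.2.1

theorem primrec_parL : Primrec parL :=
  Primrec.list_map (Primrec.list_range.comp Primrec.list_length)
    (Primrec.pair (Primrec.succ.comp Primrec.snd) ((Primrec.list_getD 0).comp Primrec.fst Primrec.snd))

theorem primrec_valid : PrimrecPred Valid :=
  ctx_forall_lt (P := fun (p : List ℕ) i => p.getD i 0 ≤ i) Primrec.list_length
    (Primrec.nat_le.comp ((Primrec.list_getD 0).comp Primrec.fst Primrec.snd) Primrec.snd)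

theorem primrec_good : PrimrecPred fun z : (List ℕ × ℕ) × Cert => Good z.1.1 z.1.2 z.2 := by
  have hp : Primrec fun z : (List ℕ × ℕ) × Cert => z.1.1 := Primrec.fst.comp Primrec.fst
  have hk : Primrec fun z : (List ℕ × ℕ) × Cert => z.1.2 := Primrec.snd.comp Primrec.fst
  have hn : Primrec fun z : (List ℕ × ℕ) × Cert => z.1.1.length + 1 :=
    Primrec.succ.comp (Primrec.list_length.comp hp)
  have hl : Primrec fun z : (List ℕ × ℕ) × Cert => parL z.1.1 := primrec_parL.comp hp
  have hm : Primrec fun z : (List ℕ × ℕ) × Cert => z.2.1 := Primrec.fst.comp Primrec.snd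
  have hl' : Primrec fun z : (List ℕ × ℕ) × Cert => z.2.2.1 :=
    Primrec.fst.comp (Primrec.snd.comp Primrec.snd)
  have hc : Primrec fun z : (List ℕ × ℕ) × Cert => z.2.2.2 :=
    Primrec.snd.comp (Primrec.snd.comp Primrec.snd)
  refine PrimrecPred.and ?_ ?_
  · exact primrec_chk.comp (Primrec.pair (Primrec.pair hn (Primrec.pair hm hk))
      (Primrec.pair hl (Primrec.pair hl' hc)))
  · exact primrec_nonIso.comp (Primrec.pair (Primrec.pair hn hm) (Primrec.pair hl hl'))

/-- the sum of a computable function over a primitive recursive list -/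
theorem computable_sum {α σ : Type*} [Primcodable α] [Primcodable σ] {g : σ → ℕ}
    (hg : Computable g) {L : α → List σ} (hL : Primrec L) :
    Computable fun a => ((L a).map g).sum := by
  have h1 : Computable fun a => (Nat.rec 0 (fun i acc => acc +
      (Option.casesOn ((L a)[i]?) 0 g : ℕ)) (L a).length : ℕ) := by
    refine Computable.nat_rec (Primrec.list_length.comp hL).to_comp (Computable.const 0)
      (h := fun a x => x.2 + (Option.casesOn ((L a)[x.1]?) 0 g : ℕ)) ?_
    refine Primrec.nat_add.to_comp.comp (Computable.snd.comp Computable.snd) ?_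
    refine Computable.option_casesOn ?_ (Computable.const 0) (hg.comp Computable.snd)
    exact (Primrec.list_getElem?.comp (hL.comp Primrec.fst)
      (Primrec.fst.comp Primrec.snd)).to_comp
  refine h1.of_eq fun a => ?_
  have key : ∀ (l : List σ) (n : ℕ), n ≤ l.length →
      (Nat.rec 0 (fun i acc => acc + (Option.casesOn (l[i]?) 0 g : ℕ)) n : ℕ) =
        ((l.take n).map g).sum := by
    intro l n
    induction n with
    | zero => intro _; simp
    | succ n ih =>
      intro hn
      have hn' : n < l.length := hn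
      show (Nat.rec 0 (fun i acc => acc + (Option.casesOn (l[i]?) 0 g : ℕ)) n : ℕ) +
        (Option.casesOn (l[n]?) 0 g : ℕ) = _
      rw [ih (by omega), List.take_add_one, List.getElem?_eq_getElem hn']
      simp only [Option.toList_some, List.map_append, List.map_cons, List.map_nil,
        List.sum_append, List.sum_cons, List.sum_nil, add_zero]
  rw [key (L a) (L a).length le_rfl, List.take_length]

/-- the search for certificates; the value is the size of the graph -/
def sf (f : ℕ → List (ℕ × ℕ) → ℕ) (D : DecidablePred Valid)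
    (D' : DecidablePred fun z : (List ℕ × ℕ) × Cert => Good z.1.1 z.1.2 z.2)
    (z : List ℕ × ℕ) (N : ℕ) : Option ℕ :=
  bif (decide (Valid z.1) && decide (z.2 < f (z.1.length + 1) (parL z.1))) then
    (Encodable.decode N : Option Cert).bind fun x =>
      bif @decide (Good z.1 z.2 x) (D' (z, x)) then some x.1 else none
  else some 0

theorem computable_sf {f : ℕ → List (ℕ × ℕ) → ℕ} (hf : Computable₂ f) (D : DecidablePred Valid)
    (hD : Computable fun p => decide (Valid p))
    (D' : DecidablePred fun z : (List ℕ × ℕ) × Cert => Good z.1.1 z.1.2 z.2)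
    (hD' : Computable fun z : (List ℕ × ℕ) × Cert => @decide (Good z.1.1 z.1.2 z.2) (D' z)) :
    Computable₂ (sf f D D') := by
  unfold sf
  refine Computable.cond ?_ ?_ (Computable.const (some 0))
  · refine Primrec.and.to_comp.comp (hD.comp (Computable.fst.comp Computable.fst)) ?_
    have h1 : Computable₂ fun (a b : ℕ) => decide (a < b) := Primrec.nat_lt.decide.to_comp
    refine h1.comp (Computable.snd.comp Computable.fst) (hf.comp ?_ ?_)
    · exact (Primrec.succ.comp (Primrec.list_length.comp
        (Primrec.fst.comp Primrec.fst))).to_comp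
    · exact (primrec_parL.comp (Primrec.fst.comp Primrec.fst)).to_comp
  · have h2 : Computable₂ fun (y : (List ℕ × ℕ) × ℕ) (x : Cert) =>
        (bif @decide (Good y.1.1 y.1.2 x) (D' (y.1, x)) then some x.1 else none : Option ℕ) := by
      have h3 : Computable fun y : ((List ℕ × ℕ) × ℕ) × Cert => ((y.1.1, y.2) :
          (List ℕ × ℕ) × Cert) :=
        (Primrec.pair (Primrec.fst.comp Primrec.fst) Primrec.snd).to_comp
      have h4 : Computable fun y : ((List ℕ × ℕ) × ℕ) × Cert =>
          @decide (Good y.1.1.1 y.1.1.2 y.2) (D' (y.1.1, y.2)) :=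
        Computable.comp (g := fun y : ((List ℕ × ℕ) × ℕ) × Cert => ((y.1.1, y.2) :
          (List ℕ × ℕ) × Cert)) hD' h3
      have h5 : Computable fun y : ((List ℕ × ℕ) × ℕ) × Cert => (some y.2.1 : Option ℕ) :=
        (Primrec.option_some.comp (Primrec.fst.comp Primrec.snd)).to_comp
      exact Computable.cond h4 h5 (Computable.const none)
    exact Computable.option_bind (Computable.decode.comp Computable.snd) h2

/-- the list of all pairs `(p, k)` up to `N` -/
def LL (N : ℕ) : List (List ℕ × ℕ) :=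
  (List.range (N + 1)).flatMap fun q => (FL (N + 1) q).flatMap fun p =>
    (List.range (N + 1)).map fun k => (p, k)

theorem primrec_LL : Primrec LL := by
  refine Primrec.list_flatMap (Primrec.list_range.comp Primrec.succ) ?_
  refine Primrec.list_flatMap (f := fun z : ℕ × ℕ => FL (z.1 + 1) z.2)
    (primrec_FL.comp (Primrec.succ.comp Primrec.fst) Primrec.snd) ?_
  refine Primrec.list_map (f := fun z : (ℕ × ℕ) × List ℕ => List.range (z.1.1 + 1))
    (Primrec.list_range.comp (Primrec.succ.comp (Primrec.fst.comp Primrec.fst))) ?_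
  exact Primrec.pair (Primrec.snd.comp Primrec.fst) Primrec.snd

theorem mem_LL {N : ℕ} {p : List ℕ} {k : ℕ} (hp : Valid p) (h1 : p.length ≤ N) (h2 : k ≤ N) :
    (p, k) ∈ LL N := by
  simp only [LL, List.mem_flatMap, List.mem_map, List.mem_range, Prod.mk.injEq]
  refine ⟨p.length, by omega, p, mem_FL.2 ⟨rfl, ?_⟩, k, by omega, rfl, rfl⟩
  intro x hx
  obtain ⟨i, hi, rfl⟩ := List.getElem_of_mem hx
  have := hp i hi
  rw [List.getD_eq_getElem _ _ hi] at this
  omega

/-- the property of `f` in the frozen statement -/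
def IsDepth (f : ℕ → List (ℕ × ℕ) → ℕ) : Prop :=
  ∀ (n : ℕ) (T : SimpleGraph (Fin n)) (l : List (ℕ × ℕ)), T.IsTree →
    (∀ i j : Fin n, T.Adj i j ↔ ((i : ℕ), (j : ℕ)) ∈ l ∨ ((j : ℕ), (i : ℕ)) ∈ l) →
    ((∀ (m : ℕ) (H : SimpleGraph (Fin m)), EF T H (f n l) → Nonempty (T ≃g H)) ∧
     ∀ k < f n l, ¬ ∀ (m : ℕ) (H : SimpleGraph (Fin m)), EF T H k → Nonempty (T ≃g H))

/-- If the depth of trees is computable, then there is a computable bound for the sizes of the
smallest non-isomorphic `k`-equivalent graphs. -/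
theorem exists_bound {f : ℕ → List (ℕ × ℕ) → ℕ} (hf : Computable₂ f) (hD : IsDepth f) :
    ∃ B : ℕ → ℕ, Computable B ∧ ∀ (V : Type) [Fintype V] (T : SimpleGraph V), T.IsTree →
      ∀ (N k : ℕ), Fintype.card V ≤ N → k ≤ N →
        (∃ (W : Type) (_ : Fintype W) (H : SimpleGraph W), Win T H k [] ∧ ¬ Nonempty (T ≃g H)) →
        ∃ (m : ℕ) (H : SimpleGraph (Fin m)), m ≤ B N ∧ Win T H k [] ∧ ¬ Nonempty (T ≃g H) := by
  obtain ⟨D1, hD1⟩ := primrec_valid
  obtain ⟨D2, hD2⟩ := primrec_good
  have hsf := computable_sf hf D1 hD1.to_comp D2 hD2.to_comp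
  have hdepth : ∀ p : List ℕ, Valid p →
      (∀ (m : ℕ) (H : SimpleGraph (Fin m)),
        EF (gr (p.length + 1) (parL p)) H (f (p.length + 1) (parL p)) →
        Nonempty (gr (p.length + 1) (parL p) ≃g H)) ∧
      ∀ k < f (p.length + 1) (parL p), ¬ ∀ (m : ℕ) (H : SimpleGraph (Fin m)),
        EF (gr (p.length + 1) (parL p)) H k → Nonempty (gr (p.length + 1) (parL p) ≃g H) :=
    fun p hp => hD _ _ _ (par_isTree hp) (par_adj hp)
  have hdom : ∀ z : List ℕ × ℕ, (Nat.rfindOpt (sf f D1 D2 z)).Dom := by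
    intro z
    rw [Nat.rfindOpt_dom]
    by_cases h1 : Valid z.1
    · by_cases h2 : z.2 < f (z.1.length + 1) (parL z.1)
      · have h3 := (hdepth z.1 h1).2 z.2 h2
        push Not at h3
        obtain ⟨m, H, h4, h5⟩ := h3
        obtain ⟨l', rfl⟩ := exists_code H
        rw [EF_iff_win] at h4
        obtain ⟨c, hc⟩ := chk_of_win h4
        have h6 : Good z.1 z.2 (m, l', c) := ⟨hc, by
          rw [nonIso_iff, not_nonempty_iff]; exact h5⟩
        refine ⟨Encodable.encode ((m, l', c) : Cert), m, ?_⟩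
        simp only [sf, Encodable.encodek, Option.bind_some, h1, h2, decide_true, Bool.and_true,
          cond_true, h6, Option.mem_def]
      · exact ⟨0, 0, by simp [sf, h2]⟩
    · exact ⟨0, 0, by simp [sf, h1]⟩
  let g : List ℕ × ℕ → ℕ := fun z => (Nat.rfindOpt (sf f D1 D2 z)).get (hdom z)
  have hg : Computable g :=
    (Partrec.rfindOpt hsf).of_eq_tot fun z => Part.get_mem (hdom z)
  refine ⟨fun N => ((LL N).map g).sum, computable_sum hg primrec_LL, ?_⟩
  intro V _ T hT N k hVN hkN hex
  obtain ⟨p, hpl, hpv, ⟨e⟩⟩ := exists_par hT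
  obtain ⟨W, _, H, hw, hni⟩ := hex
  -- transfer `H` to `Fin m`
  have hk : k < f (p.length + 1) (parL p) := by
    by_contra hc
    let d : SimpleGraph.comap (Fintype.equivFin W).symm H ≃g H :=
      SimpleGraph.Iso.comap (Fintype.equivFin W).symm H
    have h1 : Win (gr (p.length + 1) (parL p)) (SimpleGraph.comap (Fintype.equivFin W).symm H)
        k [] := (win_iso_nil e d).1 hw
    have h2 := (hdepth p hpv).1 _ _ ((EF_iff_win _ _ _).2 (win_mono (not_lt.1 hc) h1))
    obtain ⟨i⟩ := h2
    exact hni ⟨(e.symm.trans i).trans d⟩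
  have hmem : (p, k) ∈ LL N := mem_LL hpv (by omega) hkN
  have hgm : g (p, k) ∈ Nat.rfindOpt (sf f D1 D2 (p, k)) := Part.get_mem (hdom (p, k))
  obtain ⟨c, hc⟩ := Nat.rfindOpt_spec hgm
  simp only [sf, hpv, hk, decide_true, Bool.and_true, cond_true, Option.mem_def] at hc
  obtain ⟨x, hx1, hx2⟩ := Option.bind_eq_some_iff.1 hc
  have hgood : Good p k x := by
    by_contra hng
    simp only [hng, decide_false, cond_false] at hx2
    exact absurd hx2 (by simp)
  simp only [hgood, decide_true, cond_true, Option.some.injEq] at hx2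
  refine ⟨x.1, gr x.1 x.2.1, ?_, ?_, ?_⟩
  · rw [hx2]
    exact List.single_le_sum (fun _ _ => Nat.zero_le _) _ (List.mem_map.2 ⟨(p, k), hmem, rfl⟩)
  · exact (win_iso_nil e.symm SimpleGraph.Iso.refl).1 (win_of_chk hgood.1)
  · have h1 := (nonIso_iff _ _ _ _).1 hgood.2
    rintro ⟨i⟩
    exact h1 ⟨e.trans i⟩

/-- **The bridge.** `K` is not computable, `Wt a B` is a computable predicate, monotone in `B`,
which implies `K a`; for every `a` there are a tree `T` and a `k` of size at most `S a`
(`S` computable) such that `K a` gives a graph `H ≢ T`, `H ≡_k T`, and every such `H` gives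
`Wt a |H|`. Then the depth of trees is not computable. -/
theorem bridge {K : ℕ → Prop} (hK : ¬ ComputablePred K) {Wt : ℕ → ℕ → Prop}
    (hW : ComputablePred fun x : ℕ × ℕ => Wt x.1 x.2)
    (hmono : ∀ a B B', B ≤ B' → Wt a B → Wt a B') (hWK : ∀ a B, Wt a B → K a)
    {S : ℕ → ℕ} (hS : Computable S)
    (h : ∀ a, ∃ (V : Type) (_ : Fintype V) (T : SimpleGraph V) (k : ℕ),
      Fintype.card V ≤ S a ∧ k ≤ S a ∧ T.IsTree ∧
      (K a → ∃ (W : Type) (_ : Fintype W) (H : SimpleGraph W),
        Win T H k [] ∧ ¬ Nonempty (T ≃g H)) ∧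
      ∀ (W : Type) [Fintype W] (H : SimpleGraph W), Win T H k [] → ¬ Nonempty (T ≃g H) →
        Wt a (Fintype.card W)) :
    ¬ ∃ f : ℕ → List (ℕ × ℕ) → ℕ, Computable₂ f ∧ IsDepth f := by
  rintro ⟨f, hf, hD⟩
  obtain ⟨B, hB, hB2⟩ := exists_bound hf hD
  apply hK
  have h1 : ComputablePred fun a => Wt a (B (S a)) := by
    obtain ⟨g, hg, hg2⟩ := ComputablePred.computable_iff.1 hW
    rw [ComputablePred.computable_iff]
    refine ⟨fun a => g (a, B (S a)), hg.comp (Computable.pair Computable.id (hB.comp hS)), ?_⟩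
    funext a
    exact congrFun hg2 (a, B (S a))
  refine h1.of_eq fun a => ⟨hWK a _, fun hKa => ?_⟩
  obtain ⟨V, _, T, k, h2, h3, h4, h5, h6⟩ := h a
  obtain ⟨m, H, h7, h8, h9⟩ := hB2 V T h4 (S a) k h2 h3 (h5 hKa)
  have h10 := h6 (Fin m) H h8 h9
  rw [Fintype.card_fin] at h10
  exact hmono a _ _ h7 h10

end Pool.Agent.Helper84.LD
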