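import Mathlib

set_option autoImplicit false

/-!
# Primitive recursive bounded quantifiers in a context; enumeration of lists; checking of
certificates for the Ehrenfeucht–Fraïssé game and of non-isomorphism
-/

namespace Pool.Agent.Helper84.LD

open Primrec

section ctx

variable {σ β : Type*} [Primcodable σ] [Primcodable β]

theorem ctx_forall_mem {L : σ → List β} (hL : Primrec L) {P : σ → β → Prop}
    (hP : PrimrecPred fun x : σ × β => P x.1 x.2) : PrimrecPred fun s => ∀ b ∈ L s, P s b := by
  have h1 : PrimrecRel fun (b : β) (s : σ) => P s b :=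
    hP.comp (Primrec.pair Primrec.snd Primrec.fst)
  have h2 : PrimrecRel fun (L : List β) (s : σ) => ∀ b ∈ L, P s b := h1.forall_mem_list
  exact PrimrecPred.comp (p := fun x : List β × σ => ∀ b ∈ x.1, P x.2 b) h2
    (Primrec.pair hL Primrec.id)

theorem ctx_exists_mem {L : σ → List β} (hL : Primrec L) {P : σ → β → Prop}
    (hP : PrimrecPred fun x : σ × β => P x.1 x.2) : PrimrecPred fun s => ∃ b ∈ L s, P s b := by
  have h1 : PrimrecRel fun (b : β) (s : σ) => P s b :=
    hP.comp (Primrec.pair Primrec.snd Primrec.fst)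
  have h2 : PrimrecRel fun (L : List β) (s : σ) => ∃ b ∈ L, P s b := h1.exists_mem_list
  exact PrimrecPred.comp (p := fun x : List β × σ => ∃ b ∈ x.1, P x.2 b) h2
    (Primrec.pair hL Primrec.id)

theorem ctx_forall_lt {f : σ → ℕ} (hf : Primrec f) {P : σ → ℕ → Prop}
    (hP : PrimrecPred fun x : σ × ℕ => P x.1 x.2) : PrimrecPred fun s => ∀ b < f s, P s b :=
  (ctx_forall_mem (Primrec.list_range.comp hf) hP).of_eq fun s => by simp

theorem ctx_exists_lt {f : σ → ℕ} (hf : Primrec f) {P : σ → ℕ → Prop}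
    (hP : PrimrecPred fun x : σ × ℕ => P x.1 x.2) : PrimrecPred fun s => ∃ b < f s, P s b :=
  (ctx_exists_mem (Primrec.list_range.comp hf) hP).of_eq fun s => by simp

theorem pp_imp {P Q : σ → Prop} (hP : PrimrecPred P) (hQ : PrimrecPred Q) :
    PrimrecPred fun s => P s → Q s :=
  (hP.not.or hQ).of_eq fun s => by
    constructor
    · rintro (h | h) h'
      · exact absurd h' h
      · exact h
    · intro h
      by_cases h' : P s
      · exact Or.inr (h h')
      · exact Or.inl h'

theorem pp_iff {P Q : σ → Prop} (hP : PrimrecPred P) (hQ : PrimrecPred Q) :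
    PrimrecPred fun s => (P s ↔ Q s) :=
  ((pp_imp hP hQ).and (pp_imp hQ hP)).of_eq fun s => by
    constructor
    · rintro ⟨h1, h2⟩; exact ⟨h1, h2⟩
    · rintro ⟨h1, h2⟩; exact ⟨h1, h2⟩

theorem pp_mem {f : σ → β} (hf : Primrec f) {L : σ → List β} (hL : Primrec L) :
    PrimrecPred fun s => f s ∈ L s := by
  have : PrimrecPred fun s => ∃ b ∈ L s, b = f s :=
    ctx_exists_mem hL (Primrec.eq.comp Primrec.snd (hf.comp Primrec.fst))
  exact this.of_eq fun s => by simp

theorem pp_eq {f g : σ → β} (hf : Primrec f) (hg : Primrec g) :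
    PrimrecPred fun s => f s = g s := Primrec.eq.comp hf hg

end ctx

/-! ### enumeration of all lists of given length with bounded entries -/

/-- all lists of length `t` with entries `< m` -/
def FL (m : ℕ) : ℕ → List (List ℕ)
  | 0 => [[]]
  | t + 1 => (FL m t).flatMap fun p => (List.range m).map fun x => x :: p

theorem mem_FL {m t : ℕ} {p : List ℕ} : p ∈ FL m t ↔ p.length = t ∧ ∀ x ∈ p, x < m := by
  induction t generalizing p with
  | zero =>
    simp only [FL, List.mem_singleton, List.length_eq_zero_iff]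
    constructor
    · rintro rfl; simp
    · exact fun h => h.1
  | succ t ih =>
    simp only [FL, List.mem_flatMap, List.mem_map, List.mem_range]
    constructor
    · rintro ⟨q, hq, x, hx, rfl⟩
      obtain ⟨h1, h2⟩ := ih.1 hq
      refine ⟨by simp [h1], ?_⟩
      intro y hy
      rcases List.mem_cons.1 hy with rfl | hy
      · exact hx
      · exact h2 y hy
    · rintro ⟨h1, h2⟩
      cases p with
      | nil => simp at h1
      | cons x q =>
        refine ⟨q, ih.2 ⟨by simpa using h1, fun y hy => h2 y (List.mem_cons_of_mem _ hy)⟩, x,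
          h2 x List.mem_cons_self, rfl⟩

theorem primrec_FL : Primrec₂ FL := by
  have h : Primrec₂ fun (m : ℕ) (t : ℕ) => (Nat.rec [[]] (fun _ L =>
      L.flatMap fun p => (List.range m).map fun x => x :: p) t : List (List ℕ)) := by
    refine Primrec.nat_rec (f := fun _ : ℕ => ([[]] : List (List ℕ)))
      (g := fun (m : ℕ) (x : ℕ × List (List ℕ)) =>
        x.2.flatMap fun p => (List.range m).map fun x => x :: p) (Primrec.const [[]]) ?_
    -- (m, (n, L)) ↦ ...
    refine Primrec.list_flatMap (Primrec.snd.comp Primrec.snd) ?_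
    refine Primrec.list_map (Primrec.list_range.comp (Primrec.fst.comp Primrec.fst)) ?_
    exact Primrec.list_cons.comp Primrec.snd (Primrec.snd.comp Primrec.fst)
  refine h.of_eq fun m t => ?_
  induction t with
  | zero => rfl
  | succ t ih => simp only [FL]; rw [← ih]

/-! ### adjacency of coded graphs -/

/-- adjacency in the graph coded by a list of pairs -/
def adjL (l : List (ℕ × ℕ)) (i j : ℕ) : Prop := i ≠ j ∧ ((i, j) ∈ l ∨ (j, i) ∈ l)

theorem pp_adjL {σ : Type*} [Primcodable σ] {l : σ → List (ℕ × ℕ)} (hl : Primrec l)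
    {f g : σ → ℕ} (hf : Primrec f) (hg : Primrec g) :
    PrimrecPred fun s => adjL (l s) (f s) (g s) :=
  (pp_eq hf hg).not.and ((pp_mem (Primrec.pair hf hg) hl).or (pp_mem (Primrec.pair hg hf) hl))

/-- the graph on `Fin n` coded by a list of pairs -/
def gr (n : ℕ) (l : List (ℕ × ℕ)) : SimpleGraph (Fin n) where
  Adj i j := adjL l i j
  symm := ⟨fun _ _ h => ⟨h.1.symm, h.2.symm⟩⟩
  loopless := ⟨fun _ h => h.1 rfl⟩

theorem gr_adj {n : ℕ} {l : List (ℕ × ℕ)} {i j : Fin n} :
    (gr n l).Adj i j ↔ adjL l i j := Iff.rfl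

/-- every graph on `Fin n` is coded -/
theorem exists_code {n : ℕ} (G : SimpleGraph (Fin n)) : ∃ l, G = gr n l := by
  classical
  refine ⟨(Finset.univ.filter fun x : Fin n × Fin n => G.Adj x.1 x.2).toList.map
    fun x => ((x.1 : ℕ), (x.2 : ℕ)), ?_⟩
  ext i j
  rw [gr_adj]
  simp only [adjL, List.mem_map, Finset.mem_toList, Finset.mem_filter, Finset.mem_univ, true_and,
    Prod.mk.injEq, Prod.exists]
  constructor
  · intro h
    exact ⟨fun e => h.ne (Fin.ext e), Or.inl ⟨i, j, h, rfl, rfl⟩⟩
  · rintro ⟨-, ⟨a, b, h, ha, hb⟩ | ⟨a, b, h, ha, hb⟩⟩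
    · rw [← Fin.ext ha, ← Fin.ext hb]; exact h
    · rw [← Fin.ext ha, ← Fin.ext hb]; exact h.symm

end Pool.Agent.Helper84.LD
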