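import Pool.Agent.Helper88.MH.M1
import Pool.Agent.Helper84.LD.Prims

set_option autoImplicit false

/-!
# The broadcast machine

A global state `g` and cells `c 0, c 1, …`; the global state reads the cell `0`, every cell reads the
global state and its two neighbours. The halting problem (start with all cells blank) is
undecidable for a family of such machines with a fixed cell alphabet and `a + const` global states.
-/

namespace Pool.Agent.Helper84.LD

open Pool.Agent.Helper74.MH

/-- Value of the input tape. -/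
def RR (k d1 d2 n : ℕ) : ℕ := d1 + k * Nat.rec 0 (fun _ v => d2 + k * v) n

/-- broadcast machines -/
structure BM (G A : Type) where
  start : G
  blank : A
  nxt : G → A → G
  upd : G → Option A → A → A → A
  halt : G → Bool
  blank_upd : ∀ g, upd g (some blank) blank blank = blank

namespace BM

variable {G A : Type}

/-- left neighbour, `none` is the wall -/
def left (c : ℕ → A) : ℕ → Option A
  | 0 => none
  | i + 1 => some (c i)

/-- configuration at time `n` -/
def conf (M : BM G A) : ℕ → G × (ℕ → A)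
  | 0 => (M.start, fun _ => M.blank)
  | n + 1 => (M.nxt (M.conf n).1 ((M.conf n).2 0), fun i =>
      M.upd (M.conf n).1 (left (M.conf n).2 i) ((M.conf n).2 i) ((M.conf n).2 (i + 1)))

theorem conf_blank (M : BM G A) : ∀ n i, n ≤ i → (M.conf n).2 i = M.blank := by
  intro n
  induction n with
  | zero => intro i _; rfl
  | succ n ih =>
    intro i hi
    obtain ⟨j, rfl⟩ : ∃ j, i = j + 1 := ⟨i - 1, by omega⟩
    show M.upd (M.conf n).1 (some ((M.conf n).2 j)) ((M.conf n).2 (j + 1)) ((M.conf n).2 (j + 1 + 1))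
      = M.blank
    rw [ih j (by omega), ih (j + 1) (by omega), ih (j + 1 + 1) (by omega)]
    exact M.blank_upd _

/-- The machine halts at some time. -/
def Halts (M : BM G A) : Prop := ∃ n, M.halt (M.conf n).1 = true

end BM

/-! ### digits -/

/-- the `i`-th digit of `x` in base `k` -/
def dig {k : ℕ} (hk : 0 < k) (x i : ℕ) : Fin k := ⟨x / k ^ i % k, Nat.mod_lt _ hk⟩

theorem dig_zero {k : ℕ} (hk : 0 < k) (x : ℕ) : dig hk x 0 = ⟨x % k, Nat.mod_lt _ hk⟩ := by
  simp [dig]

theorem dig_div {k : ℕ} (hk : 0 < k) (x i : ℕ) : dig hk (x / k) i = dig hk x (i + 1) := by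
  simp only [dig, Nat.div_div_eq_div_mul, pow_succ']

theorem dig_push_zero {k : ℕ} (hk : 0 < k) (x : ℕ) (d : Fin k) : dig hk (k * x + d) 0 = d := by
  apply Fin.ext
  simp [dig, Nat.mod_eq_of_lt d.2]

theorem dig_push_succ {k : ℕ} (hk : 0 < k) (x : ℕ) (d : Fin k) (i : ℕ) :
    dig hk (k * x + d) (i + 1) = dig hk x i := by
  rw [← dig_div]
  congr 1
  rw [Nat.mul_add_div hk, Nat.div_eq_of_lt d.2, Nat.add_zero]

theorem dig_of_zero {k : ℕ} (hk : 0 < k) (i : ℕ) : dig hk 0 i = ⟨0, hk⟩ := by
  simp [dig]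

/-! ### two-register machines as broadcast machines -/

section TB

variable {P : Type} {k : ℕ} (hk : 0 < k) (op : P → TOp P k)

/-- is this the halting instruction -/
def isHalt : TOp P k → Bool
  | .halt => true
  | _ => false

/-- The broadcast machine of a two-register machine. -/
def tb (p : P) : BM P (Fin k × Fin k) where
  start := p
  blank := (⟨0, hk⟩, ⟨0, hk⟩)
  nxt g c := match op g with
    | .right _ f => f c.2
    | .left _ f => f c.1
    | .jump p' => p'
    | .halt => g
  upd g cl c cr := match op g with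
    | .right d _ => (match cl with | none => d | some x => x.1, cr.2)
    | .left d _ => (cr.1, match cl with | none => d | some x => x.2)
    | .jump _ => c
    | .halt => c
  halt g := isHalt (op g)
  blank_upd g := by
    cases op g <;> rfl

/-- total step -/
def stepT (c : P × ℕ × ℕ) : P × ℕ × ℕ := (TOp.step op hk c).getD c

/-- iterated steps -/
def runT (c : P × ℕ × ℕ) : ℕ → P × ℕ × ℕ
  | 0 => c
  | n + 1 => stepT hk op (runT c n)

theorem tb_conf (p : P) (n : ℕ) :
    ((tb hk op p).conf n).1 = (runT hk op (p, 0, 0) n).1 ∧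
    ∀ i, ((tb hk op p).conf n).2 i =
      (dig hk (runT hk op (p, 0, 0) n).2.1 i, dig hk (runT hk op (p, 0, 0) n).2.2 i) := by
  induction n with
  | zero =>
    refine ⟨rfl, fun i => ?_⟩
    show ((⟨0, hk⟩, ⟨0, hk⟩) : Fin k × Fin k) = (dig hk 0 i, dig hk 0 i)
    rw [dig_of_zero]
  | succ n ih =>
    obtain ⟨ih1, ih2⟩ := ih
    rcases hc : runT hk op (p, 0, 0) n with ⟨q, L, R⟩
    rw [hc] at ih1 ih2
    simp only at ih1 ih2
    have hrun : runT hk op (p, 0, 0) (n + 1) = stepT hk op (q, L, R) := by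
      show stepT hk op (runT hk op (p, 0, 0) n) = _
      rw [hc]
    rw [hrun]
    refine ⟨?_, fun i => ?_⟩
    · show (tb hk op p).nxt ((tb hk op p).conf n).1 (((tb hk op p).conf n).2 0) = _
      rw [ih1, ih2 0]
      simp only [tb, stepT, TOp.step, dig_zero]
      cases op q <;> rfl
    · show (tb hk op p).upd ((tb hk op p).conf n).1 (BM.left ((tb hk op p).conf n).2 i)
        (((tb hk op p).conf n).2 i) (((tb hk op p).conf n).2 (i + 1)) = _
      rw [ih1, ih2 i, ih2 (i + 1)]
      cases i with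
      | zero =>
        simp only [tb, stepT, TOp.step, BM.left]
        cases op q with
        | right d f =>
          simp only [Option.getD_some, dig_push_zero, dig_div]
        | left d f =>
          simp only [Option.getD_some, dig_push_zero, dig_div]
        | jump p' => rfl
        | halt => rfl
      | succ i =>
        have hl : BM.left ((tb hk op p).conf n).2 (i + 1) = some (dig hk L i, dig hk R i) := by
          show some (((tb hk op p).conf n).2 i) = _
          rw [ih2 i]
        rw [hl]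
        simp only [tb, stepT, TOp.step]
        cases op q with
        | right d f =>
          simp only [Option.getD_some, dig_push_succ, dig_div]
        | left d f =>
          simp only [Option.getD_some, dig_push_succ, dig_div]
        | jump p' => rfl
        | halt => rfl

theorem step_eq_none_iff (c : P × ℕ × ℕ) : TOp.step op hk c = none ↔ isHalt (op c.1) = true := by
  obtain ⟨q, L, R⟩ := c
  simp only [TOp.step]
  cases op q <;> simp [isHalt]

theorem halts_iff_run (c : P × ℕ × ℕ) :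
    TOp.Halts op hk c ↔ ∃ n, isHalt (op (runT hk op c n).1) = true := by
  have hreach : ∀ n, Relation.ReflTransGen (fun c₁ c₂ => TOp.step op hk c₁ = some c₂) c
      (runT hk op c n) := by
    intro n
    induction n with
    | zero => exact Relation.ReflTransGen.refl
    | succ n ih =>
      show Relation.ReflTransGen _ c (stepT hk op (runT hk op c n))
      cases hs : TOp.step op hk (runT hk op c n) with
      | none =>
        have : stepT hk op (runT hk op c n) = runT hk op c n := by simp [stepT, hs]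
        rw [this]; exact ih
      | some c' =>
        have : stepT hk op (runT hk op c n) = c' := by simp [stepT, hs]
        rw [this]
        exact ih.tail hs
  constructor
  · rintro ⟨c', h1, h2⟩
    have : ∃ n, runT hk op c n = c' := by
      clear h2 hreach
      induction h1 with
      | refl => exact ⟨0, rfl⟩
      | tail _ h ih =>
        obtain ⟨n, hn⟩ := ih
        refine ⟨n + 1, ?_⟩
        show stepT hk op (runT hk op c n) = _
        rw [hn, stepT, h]
        rfl
    obtain ⟨n, rfl⟩ := this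
    exact ⟨n, (step_eq_none_iff hk op _).1 h2⟩
  · rintro ⟨n, hn⟩
    exact ⟨_, hreach n, (step_eq_none_iff hk op _).2 hn⟩

end TB

/-! ### the uniform machine with preloading -/

section U

variable {nP k : ℕ} (hk : 0 < k) (op : Fin nP → TOp (Fin nP) k) (p0 : Fin nP) (d1 d2 : Fin k)

/-- renaming of states -/
def mapOp {P P' : Type} (f : P → P') : TOp P k → TOp P' k
  | .right d g => .right d fun r => f (g r)
  | .left d g => .left d fun r => f (g r)
  | .jump p => .jump (f p)
  | .halt => .halt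

/-- the uniform machine: the state `inl j` pushes the input -/
def opU : ℕ ⊕ Fin nP → TOp (ℕ ⊕ Fin nP) k
  | .inl 0 => .left d1 fun _ => .inr p0
  | .inl (j + 1) => .left d2 fun _ => .inl j
  | .inr p => mapOp Sum.inr (op p)

/-- the machine for the input `a` -/
def opA (a : ℕ) : Fin (a + 1) ⊕ Fin nP → TOp (Fin (a + 1) ⊕ Fin nP) k
  | .inl ⟨0, _⟩ => .left d1 fun _ => .inr p0
  | .inl ⟨j + 1, h⟩ => .left d2 fun _ => .inl ⟨j, by omega⟩
  | .inr p => mapOp Sum.inr (op p)

/-- embedding of the states -/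
def emb (a : ℕ) : Fin (a + 1) ⊕ Fin nP → ℕ ⊕ Fin nP
  | .inl j => .inl j
  | .inr p => .inr p

theorem opU_emb (a : ℕ) (g : Fin (a + 1) ⊕ Fin nP) :
    opU op p0 d1 d2 (emb a g) = mapOp (emb a) (opA op p0 d1 d2 a g) := by
  rcases g with ⟨j, hj⟩ | p
  · cases j with
    | zero => rfl
    | succ j => rfl
  · show mapOp Sum.inr (op p) = mapOp (emb a) (mapOp Sum.inr (op p))
    cases op p <;> rfl

theorem run_emb (a : ℕ) (n : ℕ) (c : (Fin (a + 1) ⊕ Fin nP) × ℕ × ℕ) :
    runT hk (opU op p0 d1 d2) (emb a c.1, c.2) n =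
      (emb a (runT hk (opA op p0 d1 d2 a) c n).1, (runT hk (opA op p0 d1 d2 a) c n).2) := by
  induction n with
  | zero => rfl
  | succ n ih =>
    show stepT hk _ (runT hk (opU op p0 d1 d2) (emb a c.1, c.2) n) =
      (emb a (stepT hk _ (runT hk (opA op p0 d1 d2 a) c n)).1,
        (stepT hk _ (runT hk (opA op p0 d1 d2 a) c n)).2)
    rw [ih]
    obtain ⟨q, L, R⟩ := runT hk (opA op p0 d1 d2 a) c n
    simp only [stepT, TOp.step, opU_emb]
    cases opA op p0 d1 d2 a q <;> rfl

theorem isHalt_emb (a : ℕ) (g : Fin (a + 1) ⊕ Fin nP) :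
    isHalt (opU op p0 d1 d2 (emb a g)) = isHalt (opA op p0 d1 d2 a g) := by
  rw [opU_emb]
  cases opA op p0 d1 d2 a g <;> rfl

theorem run_inr (c : Fin nP × ℕ × ℕ) (n : ℕ) :
    runT hk (opU op p0 d1 d2) (.inr c.1, c.2) n =
      (.inr (runT hk op c n).1, (runT hk op c n).2) := by
  induction n with
  | zero => rfl
  | succ n ih =>
    show stepT hk _ (runT hk (opU op p0 d1 d2) (.inr c.1, c.2) n) =
      (.inr (stepT hk _ (runT hk op c n)).1, (stepT hk _ (runT hk op c n)).2)
    rw [ih]
    obtain ⟨q, L, R⟩ := runT hk op c n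
    simp only [stepT, TOp.step, opU]
    cases op q <;> rfl

theorem isHalt_inr (p : Fin nP) : isHalt (opU op p0 d1 d2 (.inr p)) = isHalt (op p) := by
  show isHalt (mapOp Sum.inr (op p)) = _
  cases op p <;> rfl

theorem run_preload (a j : ℕ) (hj : j ≤ a) :
    runT hk (opU op p0 d1 d2) (.inl a, 0, 0) j =
      (.inl (a - j), 0, (Nat.rec 0 (fun _ v => (d2 : ℕ) + k * v) j : ℕ)) := by
  induction j with
  | zero => rfl
  | succ j ih =>
    show stepT hk _ (runT hk (opU op p0 d1 d2) (.inl a, 0, 0) j) = _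
    rw [ih (by omega)]
    obtain ⟨b, hb⟩ : ∃ b, a - j = b + 1 := ⟨a - j - 1, by omega⟩
    have hb' : a - (j + 1) = b := by omega
    rw [hb, hb']
    simp only [stepT, TOp.step, opU, Option.getD_some, Nat.zero_div, Nat.add_comm]

theorem run_preload' (a : ℕ) :
    runT hk (opU op p0 d1 d2) (.inl a, 0, 0) (a + 1) = (.inr p0, 0, RR k d1 d2 a) := by
  show stepT hk _ (runT hk (opU op p0 d1 d2) (.inl a, 0, 0) a) = _
  rw [run_preload hk op p0 d1 d2 a a le_rfl, Nat.sub_self]
  simp only [stepT, TOp.step, opU, Option.getD_some, Nat.zero_div, RR, Nat.add_comm]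

theorem runT_add {P : Type} (op' : P → TOp P k) (c : P × ℕ × ℕ) (m n : ℕ) :
    runT hk op' c (m + n) = runT hk op' (runT hk op' c m) n := by
  induction n with
  | zero => rfl
  | succ n ih =>
    show stepT hk op' (runT hk op' c (m + n)) = stepT hk op' (runT hk op' (runT hk op' c m) n)
    rw [ih]

theorem halt_preload_iff (a : ℕ) :
    (∃ n, isHalt (opU op p0 d1 d2 (runT hk (opU op p0 d1 d2) (.inl a, 0, 0) n).1) = true) ↔
      TOp.Halts op hk (p0, 0, RR k d1 d2 a) := by
  rw [halts_iff_run]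
  have h2 : ∀ n, runT hk (opU op p0 d1 d2) (.inl a, 0, 0) (a + 1 + n) =
      (.inr (runT hk op (p0, 0, RR k d1 d2 a) n).1, (runT hk op (p0, 0, RR k d1 d2 a) n).2) := by
    intro n
    rw [runT_add, run_preload']
    exact run_inr hk op p0 d1 d2 (p0, 0, RR k d1 d2 a) n
  constructor
  · rintro ⟨n, hn⟩
    rcases Nat.lt_or_ge a n with h | h
    · obtain ⟨m, rfl⟩ := Nat.exists_eq_add_of_le (show a + 1 ≤ n from h)
      refine ⟨m, ?_⟩
      rw [h2, isHalt_inr] at hn
      exact hn
    · rw [run_preload hk op p0 d1 d2 a n h] at hn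
      exfalso
      simp only at hn
      cases hb : a - n with
      | zero => rw [hb] at hn; simp [opU, isHalt] at hn
      | succ b => rw [hb] at hn; simp [opU, isHalt] at hn
  · rintro ⟨n, hn⟩
    refine ⟨a + 1 + n, ?_⟩
    rw [h2, isHalt_inr]
    exact hn

/-! ### computability -/

/-- kind of an instruction -/
def kd {P : Type} : TOp P k → ℕ
  | .right _ _ => 0
  | .left _ _ => 1
  | .jump _ => 2
  | .halt => 3

/-- pushed digit -/
def dd {P : Type} : TOp P k → ℕ
  | .right d _ => d
  | .left d _ => d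
  | .jump _ => 0
  | .halt => 0

/-- next state -/
def ff {P : Type} (p : P) : TOp P k → Fin k → P
  | .right _ f, r => f r
  | .left _ f, r => f r
  | .jump q, _ => q
  | .halt, _ => p

theorem stepU_inl (j L R : ℕ) : stepT hk (opU op p0 d1 d2) (.inl j, L, R) =
    (if j = 0 then (.inr p0, L / k, k * R + d1) else (.inl (j - 1), L / k, k * R + d2)) := by
  cases j with
  | zero => rfl
  | succ j => rfl

theorem stepU_inr (p : Fin nP) (L R : ℕ) : stepT hk (opU op p0 d1 d2) (.inr p, L, R) =
    (if kd (op p) = 0 then (.inr (ff p (op p) ⟨R % k, Nat.mod_lt _ hk⟩), k * L + dd (op p), R / k)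
      else if kd (op p) = 1 then
        (.inr (ff p (op p) ⟨L % k, Nat.mod_lt _ hk⟩), L / k, k * R + dd (op p))
      else (.inr (ff p (op p) ⟨0, hk⟩), L, R)) := by
  simp only [stepT, TOp.step, opU]
  cases op p <;> rfl

theorem primrec_stepU : Primrec (stepT hk (opU op p0 d1 d2)) := by
  have hL : Primrec fun z : ((ℕ ⊕ Fin nP) × ℕ × ℕ) => z.2.1 := Primrec.fst.comp Primrec.snd
  have hR : Primrec fun z : ((ℕ ⊕ Fin nP) × ℕ × ℕ) => z.2.2 := Primrec.snd.comp Primrec.snd
  have hmod : Primrec fun x : ℕ => (⟨x % k, Nat.mod_lt _ hk⟩ : Fin k) :=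
    Primrec.fin_val_iff.1 (Primrec.nat_mod.comp Primrec.id (Primrec.const k))
  have hdiv : Primrec fun x : ℕ => x / k := Primrec.nat_div.comp Primrec.id (Primrec.const k)
  have hmul : Primrec₂ fun x d : ℕ => k * x + d :=
    Primrec.nat_add.comp (Primrec.nat_mul.comp (Primrec.const k) Primrec.fst) Primrec.snd
  have h1 : Primrec₂ fun (z : (ℕ ⊕ Fin nP) × ℕ × ℕ) (j : ℕ) =>
      ((if j = 0 then (.inr p0, z.2.1 / k, k * z.2.2 + d1)
        else (.inl (j - 1), z.2.1 / k, k * z.2.2 + d2)) : (ℕ ⊕ Fin nP) × ℕ × ℕ) := by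
    refine Primrec.ite (Primrec.eq.comp Primrec.snd (Primrec.const 0)) ?_ ?_
    · exact Primrec.pair (Primrec.const _) (Primrec.pair (hdiv.comp (hL.comp Primrec.fst))
        (hmul.comp (hR.comp Primrec.fst) (Primrec.const _)))
    · exact Primrec.pair (Primrec.sumInl.comp (Primrec.pred.comp Primrec.snd))
        (Primrec.pair (hdiv.comp (hL.comp Primrec.fst))
          (hmul.comp (hR.comp Primrec.fst) (Primrec.const _)))
  have hff : Primrec₂ fun (p : Fin nP) (r : Fin k) => ff p (op p) r :=
    Primrec.dom_finite (fun x : Fin nP × Fin k => ff x.1 (op x.1) x.2)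
  have hkd : Primrec fun p : Fin nP => kd (op p) := Primrec.dom_finite _
  have hdd : Primrec fun p : Fin nP => dd (op p) := Primrec.dom_finite _
  have h2 : Primrec₂ fun (z : (ℕ ⊕ Fin nP) × ℕ × ℕ) (p : Fin nP) =>
      ((if kd (op p) = 0 then
          (.inr (ff p (op p) ⟨z.2.2 % k, Nat.mod_lt _ hk⟩), k * z.2.1 + dd (op p), z.2.2 / k)
        else if kd (op p) = 1 then
          (.inr (ff p (op p) ⟨z.2.1 % k, Nat.mod_lt _ hk⟩), z.2.1 / k, k * z.2.2 + dd (op p))
        else (.inr (ff p (op p) ⟨0, hk⟩), z.2.1, z.2.2)) : (ℕ ⊕ Fin nP) × ℕ × ℕ) := by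
    refine Primrec.ite (Primrec.eq.comp (hkd.comp Primrec.snd) (Primrec.const 0)) ?_
      (Primrec.ite (Primrec.eq.comp (hkd.comp Primrec.snd) (Primrec.const 1)) ?_ ?_)
    · exact Primrec.pair (Primrec.sumInr.comp (hff.comp Primrec.snd
        (hmod.comp (hR.comp Primrec.fst)))) (Primrec.pair
          (hmul.comp (hL.comp Primrec.fst) (hdd.comp Primrec.snd)) (hdiv.comp (hR.comp Primrec.fst)))
    · exact Primrec.pair (Primrec.sumInr.comp (hff.comp Primrec.snd
        (hmod.comp (hL.comp Primrec.fst)))) (Primrec.pair (hdiv.comp (hL.comp Primrec.fst))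
          (hmul.comp (hR.comp Primrec.fst) (hdd.comp Primrec.snd)))
    · exact Primrec.pair (Primrec.sumInr.comp (hff.comp Primrec.snd (Primrec.const _)))
        (Primrec.pair (hL.comp Primrec.fst) (hR.comp Primrec.fst))
  refine (Primrec.sumCasesOn Primrec.fst h1 h2).of_eq ?_
  rintro ⟨q, L, R⟩
  rcases q with j | p
  · exact (stepU_inl hk op p0 d1 d2 j L R).symm
  · exact (stepU_inr hk op p0 d1 d2 p L R).symm

theorem primrec_isHaltU : PrimrecPred fun p : ℕ ⊕ Fin nP => isHalt (opU op p0 d1 d2 p) = true := by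
  have h1 : Primrec fun p : ℕ ⊕ Fin nP => isHalt (opU op p0 d1 d2 p) := by
    have h2 : Primrec fun p : Fin nP => isHalt (op p) := Primrec.dom_finite _
    refine (Primrec.sumCasesOn (f := fun p : ℕ ⊕ Fin nP => p) (g := fun _ _ => false)
      (h := fun _ p => isHalt (op p)) Primrec.id (Primrec.const false).to₂
      (h2.comp Primrec.snd).to₂).of_eq ?_
    intro p
    rcases p with j | p
    · cases j <;> rfl
    · exact (isHalt_inr op p0 d1 d2 p).symm
  exact pp_eq h1 (Primrec.const true)

theorem computable_Wt : ComputablePred fun x : ℕ × ℕ => ∃ n ≤ x.2,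
    isHalt (opU op p0 d1 d2 (runT hk (opU op p0 d1 d2) (.inl x.1, 0, 0) n).1) = true := by
  have hrun : ∀ (c : (ℕ ⊕ Fin nP) × ℕ × ℕ) (n : ℕ),
      (stepT hk (opU op p0 d1 d2))^[n] c = runT hk (opU op p0 d1 d2) c n := by
    intro c n
    induction n with
    | zero => rfl
    | succ n ih => rw [Function.iterate_succ_apply', ih]; rfl
  have h1 : Primrec fun z : (ℕ × ℕ) × ℕ =>
      (runT hk (opU op p0 d1 d2) ((.inl z.1.1 : ℕ ⊕ Fin nP), 0, 0) z.2).1 := by
    have h2 : Primrec fun z : (ℕ × ℕ) × ℕ =>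
        (stepT hk (opU op p0 d1 d2))^[z.2] ((.inl z.1.1 : ℕ ⊕ Fin nP), 0, 0) :=
      Primrec.nat_iterate Primrec.snd
        (Primrec.pair (Primrec.sumInl.comp (Primrec.fst.comp Primrec.fst)) (Primrec.const (0, 0)))
        ((primrec_stepU hk op p0 d1 d2).comp Primrec.snd)
    exact (Primrec.fst.comp h2).of_eq fun z => by rw [hrun]
  have h3 : PrimrecPred fun x : ℕ × ℕ => ∃ n < x.2 + 1,
      isHalt (opU op p0 d1 d2 (runT hk (opU op p0 d1 d2) (.inl x.1, 0, 0) n).1) = true :=
    ctx_exists_lt (σ := ℕ × ℕ) (f := fun x => x.2 + 1) (Primrec.succ.comp Primrec.snd)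
      (P := fun x n => isHalt (opU op p0 d1 d2
        (runT hk (opU op p0 d1 d2) (.inl x.1, 0, 0) n).1) = true)
      ((primrec_isHaltU op p0 d1 d2).comp h1)
  have h4 : PrimrecPred fun x : ℕ × ℕ => ∃ n ≤ x.2,
      isHalt (opU op p0 d1 d2 (runT hk (opU op p0 d1 d2) (.inl x.1, 0, 0) n).1) = true :=
    h3.of_eq fun x => by simp only [Nat.lt_succ_iff]
  obtain ⟨h5, h6⟩ := h4
  exact ⟨h5, h6.to_comp⟩

end U

/-- A two-register machine with undecidable halting problem, explicit inputs. -/
theorem exists_TOp : ∃ (nP k : ℕ) (hk : 0 < k) (op : Fin nP → TOp (Fin nP) k) (p0 : Fin nP)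
    (d1 d2 : Fin k), ¬ ComputablePred fun n => TOp.Halts op hk (p0, 0, RR k d1 d2 n) := by
  classical
  obtain ⟨Γ, Λ, iΓ, fΓ, iΛ, N, S, x0, x1, x2, hS, hsup, hN⟩ := Pool.Agent.Helper88.Undec.exists_TM0
  obtain ⟨M, hM⟩ := Pool.Agent.Helper88.TMPass.exists_restr (S := S) N hsup
  have : Fintype S := hS.fintype
  have hk : 0 < Fintype.card Γ := Fintype.card_pos
  let z : Fin (Fintype.card Γ) := ⟨0, hk⟩
  let e : Γ ≃ Fin (Fintype.card Γ) :=
    (Fintype.equivFin Γ).trans (Equiv.swap (Fintype.equivFin Γ default) z)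
  have he : (e default : ℕ) = 0 := by
    have : e default = z := by
      simp only [e, Equiv.trans_apply, Equiv.swap_apply_left]
    rw [this]
  let s : S × Γ ≃ Fin (Fintype.card (S × Γ)) := Fintype.equivFin _
  refine ⟨Fintype.card (S × Γ), Fintype.card Γ, hk, Pool.Agent.Helper88.MH.op e M s,
    s (⟨default, hsup.1⟩, x0), e x1, e x2, ?_⟩
  intro hc
  apply ComputablePred.halting_problem 0
  have h1 : ∀ n, TOp.Halts (Pool.Agent.Helper88.MH.op e M s) hk (s (⟨default, hsup.1⟩, x0), 0,
      Pool.Agent.Helper88.MH.RR (Fintype.card Γ) (e x1) (e x2) n) ↔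
      (Nat.Partrec.Code.eval (Denumerable.ofNat Nat.Partrec.Code n) 0).Dom := by
    intro n
    rw [← hN n, ← Pool.Agent.Helper88.MH.halts_init_iff e he hk N M s hM hsup.1,
      ← Pool.Agent.Helper88.MH.val_input]
    rfl
  have h2 : ComputablePred (fun n : ℕ =>
      (Nat.Partrec.Code.eval (Denumerable.ofNat Nat.Partrec.Code n) 0).Dom) :=
    hc.of_eq fun n => h1 n
  have h3 : ComputablePred (fun c : Nat.Partrec.Code =>
      (Nat.Partrec.Code.eval (Denumerable.ofNat Nat.Partrec.Code (Encodable.encode c)) 0).Dom) := by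
    obtain ⟨hdec, hcomp⟩ := h2
    exact ⟨fun c => hdec _, hcomp.comp Computable.encode⟩
  refine h3.of_eq ?_
  intro c
  rw [Denumerable.ofNat_encode]

/-- **Undecidability of the halting problem of broadcast machines.** -/
theorem exists_BM : ∃ (nP k : ℕ) (_ : 0 < k)
    (M : ∀ a : ℕ, BM (Fin (a + 1) ⊕ Fin nP) (Fin k × Fin k)),
    (¬ ComputablePred fun a => ∃ n, (M a).halt ((M a).conf n).1 = true) ∧
    ComputablePred fun x : ℕ × ℕ => ∃ n ≤ x.2, (M x.1).halt ((M x.1).conf n).1 = true := by
  obtain ⟨nP, k, hk, op, p0, d1, d2, hund⟩ := exists_TOp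
  let st : ∀ a : ℕ, Fin (a + 1) ⊕ Fin nP := fun a => .inl ⟨a, Nat.lt_succ_self a⟩
  let M : ∀ a : ℕ, BM (Fin (a + 1) ⊕ Fin nP) (Fin k × Fin k) := fun a =>
    tb hk (opA op p0 d1 d2 a) (st a)
  have key : ∀ a n, ((M a).halt ((M a).conf n).1 = true ↔
      isHalt (opU op p0 d1 d2 (runT hk (opU op p0 d1 d2) (.inl a, 0, 0) n).1) = true) := by
    intro a n
    have h1 : ((M a).conf n).1 = (runT hk (opA op p0 d1 d2 a) (st a, 0, 0) n).1 :=
      (tb_conf hk (opA op p0 d1 d2 a) (st a) n).1
    have h2 := run_emb hk op p0 d1 d2 a n (st a, 0, 0)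
    have h3 : runT hk (opU op p0 d1 d2) (.inl a, 0, 0) n =
      (emb a (runT hk (opA op p0 d1 d2 a) (st a, 0, 0) n).1,
        (runT hk (opA op p0 d1 d2 a) (st a, 0, 0) n).2) := h2
    rw [h3, isHalt_emb, h1]
    rfl
  refine ⟨nP, k, hk, M, ?_, ?_⟩
  · intro h
    apply hund
    refine h.of_eq fun a => ?_
    rw [← halt_preload_iff]
    exact exists_congr fun n => key a n
  · refine (computable_Wt hk op p0 d1 d2).of_eq fun x => ?_
    exact exists_congr fun n => and_congr_right fun _ => (key x.1 n).symm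

end Pool.Agent.Helper84.LD
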