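import Pool.Agent.Helper32.LD.StW
import Pool.Agent.Helper84.LD.BMach

set_option autoImplicit false

/-!
# LD project, tiling part: the word machine

Module `StWM`: a word machine with undecidable halting problem.
-/

namespace Pool.Agent.Helper84.LD

open Pool.Agent.Helper32.LD Pool.Agent.Helper74.MH

namespace WML

/-! ### word machines on lists -/

section gen

variable {Sg S R : Type} (M : WM Sg S R)

/-- state of the left pass -/
def lst (s : S) : List Sg → S
  | [] => s
  | x :: W => lst (M.dl s x) W

/-- state of the right pass -/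
def rst (r : R) : List Sg → R
  | [] => r
  | x :: W => M.dr (rst r W) x

/-- next word -/
def nxt (s : S) (r : R) : List Sg → List Sg
  | [] => []
  | x :: W => M.c1 x s (rst M r W) :: M.c2 x s (rst M r W) :: nxt (M.dl s x) r W

theorem lst_append (s : S) (A B : List Sg) : lst M s (A ++ B) = lst M (lst M s A) B := by
  induction A generalizing s with
  | nil => rfl
  | cons x A ih => exact ih _

theorem rst_append (r : R) (A B : List Sg) : rst M r (A ++ B) = rst M (rst M r B) A := by
  induction A with
  | nil => rfl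
  | cons x A ih => show M.dr (rst M r (A ++ B)) x = _; rw [ih]; rfl

theorem nxt_append (s : S) (r : R) (A B : List Sg) :
    nxt M s r (A ++ B) = nxt M s (rst M r B) A ++ nxt M (lst M s A) r B := by
  induction A generalizing s with
  | nil => rfl
  | cons x A ih =>
    show M.c1 x s (rst M r (A ++ B)) :: M.c2 x s (rst M r (A ++ B)) :: nxt M (M.dl s x) r (A ++ B) = _
    rw [ih, rst_append]
    rfl

theorem nxt_length (s : S) (r : R) (W : List Sg) : (nxt M s r W).length = W.length * 2 := by
  induction W generalizing s with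
  | nil => rfl
  | cons x W ih =>
    show (nxt M (M.dl s x) r W).length + 1 + 1 = _
    rw [ih, List.length_cons]
    ring

theorem nxt_get (s : S) (r : R) (W : List Sg) (k : ℕ) (hk : k < W.length) :
    (nxt M s r W)[2 * k]? = some (M.c1 W[k] (lst M s (W.take k)) (rst M r (W.drop (k + 1)))) ∧
    (nxt M s r W)[2 * k + 1]? =
      some (M.c2 W[k] (lst M s (W.take k)) (rst M r (W.drop (k + 1)))) := by
  induction W generalizing s k with
  | nil => simp at hk
  | cons x W ih =>
    cases k with
    | zero => exact ⟨rfl, rfl⟩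
    | succ k =>
      have := ih (M.dl s x) k (by simpa using hk)
      exact this

/-- the list represents the word -/
def Rep (w : ℕ → Sg) (W : List Sg) : Prop := ∀ k, (h : k < W.length) → w k = W[k]

theorem sl_eq (w : ℕ → Sg) (W : List Sg) (h : Rep w W) (k : ℕ) (hk : k ≤ W.length) :
    M.sl w k = lst M M.s0 (W.take k) := by
  induction k with
  | zero => rfl
  | succ k ih =>
    show M.dl (M.sl w k) (w k) = _
    rw [ih (by omega), h k (by omega), List.take_succ_eq_append_getElem (by omega), lst_append]
    rfl

theorem srr_eq (w : ℕ → Sg) (W : List Sg) (h : Rep w W) (j : ℕ) (hj : j ≤ W.length) :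
    M.srr w W.length j = rst M M.r0 (W.drop (W.length - j)) := by
  induction j with
  | zero => simp [WM.srr, rst]
  | succ j ih =>
    show M.dr (M.srr w W.length j) (w (W.length - 1 - j)) = _
    have h1 : W.length - (j + 1) < W.length := by omega
    rw [ih (by omega), h _ (by omega), List.drop_eq_getElem_cons h1]
    show _ = M.dr (rst M M.r0 (W.drop (W.length - (j + 1) + 1))) W[W.length - (j + 1)]
    have h2 : W.length - (j + 1) + 1 = W.length - j := by omega
    have h3 : W.length - 1 - j = W.length - (j + 1) := by omega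
    simp only [h2, h3]

theorem sr_eq (w : ℕ → Sg) (W : List Sg) (h : Rep w W) (k : ℕ) (hk : k ≤ W.length) :
    M.sr w W.length k = rst M M.r0 (W.drop k) := by
  show M.srr w W.length (W.length - k) = _
  rw [srr_eq M w W h _ (by omega)]
  congr 2
  omega

theorem rep_next (w : ℕ → Sg) (W : List Sg) (h : Rep w W) :
    Rep (M.next w W.length) (nxt M M.s0 M.r0 W) := by
  intro k hk
  rw [nxt_length] at hk
  have hk2 : k / 2 < W.length := by omega
  have h1 := nxt_get M M.s0 M.r0 W (k / 2) hk2
  unfold WM.next
  rw [sl_eq M w W h (k / 2) hk2.le, sr_eq M w W h (k / 2 + 1) hk2, h (k / 2) hk2]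
  split_ifs with h2
  · have h3 : 2 * (k / 2) = k := by omega
    rw [h3] at h1
    exact ((List.getElem?_eq_some_iff.1 h1.1).2).symm
  · have h3 : 2 * (k / 2) + 1 = k := by omega
    rw [h3] at h1
    exact ((List.getElem?_eq_some_iff.1 h1.2).2).symm

/-- rows as lists -/
def rowL (W0 : List Sg) : ℕ → List Sg
  | 0 => W0
  | n + 1 => nxt M M.s0 M.r0 (rowL W0 n)

theorem rowL_length (W0 : List Sg) (n : ℕ) : (rowL M W0 n).length = W0.length * 2 ^ n := by
  induction n with
  | zero => simp [rowL]
  | succ n ih => rw [rowL, nxt_length, ih, pow_succ, mul_assoc]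

theorem rep_row (w0 : ℕ → Sg) (W0 : List Sg) (h : Rep w0 W0) (n : ℕ) :
    Rep (M.row w0 W0.length n) (rowL M W0 n) := by
  induction n with
  | zero => exact h
  | succ n ih =>
    show Rep (M.next (M.row w0 W0.length n) (W0.length * 2 ^ n)) (nxt M M.s0 M.r0 (rowL M W0 n))
    rw [← rowL_length M W0 n]
    exact rep_next M _ _ ih

end gen

/-! ### the machine -/

/-- symbols -/
inductive Sy (nP k : ℕ)
  | F | st
  | cell (d : Fin k)
  | head (p : Fin nP)
  deriving DecidableEq, Fintype

variable {nP k : ℕ} (hk : 0 < k) (op : Fin nP → TOp (Fin nP) k) (p0 : Fin nP)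

/-- digit shown by a symbol -/
def dg : Sy nP k → Fin k
  | .cell d => d
  | _ => ⟨0, hk⟩

/-- the symbol is a head which moves to the right -/
def mvR : Sy nP k → Bool
  | .head p => match op p with
    | .right _ _ => true
    | _ => false
  | _ => false

/-- the symbol is a head which moves to the left -/
def mvL : Sy nP k → Bool
  | .head p => match op p with
    | .left _ _ => true
    | _ => false
  | _ => false

/-- nearest symbol -/
def nea (s x : Sy nP k) : Sy nP k := if x = .F then s else x

/-- first child -/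
def ch1 (x l r : Sy nP k) : Sy nP k :=
  match x with
  | .F => .F
  | .st => .head p0
  | .cell d => if mvR op l = true ∨ mvL op r = true then .F else .cell d
  | .head p => match op p with
    | .right d _ => .cell d
    | .left _ f => .head (f (dg hk l))
    | .jump p' => .head p'
    | .halt => .head p

/-- second child -/
def ch2 (x r : Sy nP k) : Sy nP k :=
  match x with
  | .F => .F
  | .st => .F
  | .cell _ => .F
  | .head p => match op p with
    | .right _ f => .head (f (dg hk r))
    | .left d _ => .cell d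
    | .jump _ => .F
    | .halt => .F

/-- the halting flag of a symbol -/
def hsf : Sy nP k → Option Bool
  | .F => none
  | .st => some false
  | .cell _ => none
  | .head p => some (isHalt (op p))

/-- the word machine -/
def MM : WM (Sy nP k) (Sy nP k) (Sy nP k) where
  s0 := .F
  r0 := .F
  dl := nea
  dr := nea
  c1 := fun x l r => ch1 hk op p0 x l r
  c2 := fun x _ r => ch2 hk op x r
  hs := hsf op

/-- ordinary symbols -/
def isN : Sy nP k → Prop
  | .F => True
  | .cell _ => True
  | _ => False

/-- value of a word -/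
def vl : List (Sy nP k) → ℕ
  | [] => 0
  | .cell d :: l => d + k * vl l
  | .F :: l => vl l
  | .st :: l => vl l
  | .head _ :: l => vl l

/-- doubling -/
def dbl (l : List (Sy nP k)) : List (Sy nP k) := l.flatMap fun x => [x, .F]

theorem vl_dbl (l : List (Sy nP k)) : vl (dbl l) = vl l := by
  induction l with
  | nil => rfl
  | cons x l ih =>
    show vl (x :: .F :: dbl l) = _
    cases x <;> simp only [vl, ih]

theorem vl_append (l l' : List (Sy nP k)) (h : ∀ x ∈ l, x = .F) : vl (l ++ l') = vl l' := by
  induction l with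
  | nil => rfl
  | cons x l ih =>
    have hx := h x (by simp)
    subst hx
    show vl (l ++ l') = _
    exact ih fun y hy => h y (by simp [hy])

theorem vl_dbl_reverse (l : List (Sy nP k)) : vl (dbl l).reverse = vl l.reverse := by
  induction l using List.reverseRecOn with
  | nil => rfl
  | append_singleton l x ih =>
    have h1 : dbl (l ++ [x]) = dbl l ++ [x, .F] := by simp [dbl]
    rw [h1, List.reverse_append, List.reverse_append]
    show vl (.F :: x :: (dbl l).reverse) = vl (x :: l.reverse)
    cases x <;> simp only [vl, ih]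

theorem N_dbl (l : List (Sy nP k)) (h : ∀ x ∈ l, isN x) : ∀ x ∈ dbl l, isN x := by
  intro x hx
  simp only [dbl, List.mem_flatMap, List.mem_cons, List.not_mem_nil, or_false] at hx
  obtain ⟨y, hy, rfl | rfl⟩ := hx
  · exact h _ hy
  · trivial

/-- ordinary symbols do not move -/
theorem mvR_N (x : Sy nP k) (h : isN x) : mvR op x = false := by
  cases x <;> first | rfl | exact h.elim

theorem mvL_N (x : Sy nP k) (h : isN x) : mvL op x = false := by
  cases x <;> first | rfl | exact h.elim

theorem nea_or (s x : Sy nP k) : nea s x = s ∨ nea s x = x := by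
  unfold nea
  split_ifs
  · exact Or.inl rfl
  · exact Or.inr rfl

theorem mvL_rst (r : Sy nP k) (hr : mvL op r = false) (l : List (Sy nP k))
    (h : ∀ x ∈ l, isN x) : mvL op (rst (MM hk op p0) r l) = false := by
  induction l with
  | nil => exact hr
  | cons x l ih =>
    show mvL op (nea (rst (MM hk op p0) r l) x) = false
    rcases nea_or (rst (MM hk op p0) r l) x with h1 | h1 <;> rw [h1]
    · exact ih fun y hy => h y (by simp [hy])
    · exact mvL_N op x (h x (by simp))

theorem mvR_lst (s : Sy nP k) (hs : mvR op s = false) (l : List (Sy nP k))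
    (h : ∀ x ∈ l, isN x) : mvR op (lst (MM hk op p0) s l) = false := by
  induction l generalizing s with
  | nil => exact hs
  | cons x l ih =>
    show mvR op (lst (MM hk op p0) (nea s x) l) = false
    refine ih _ ?_ fun y hy => h y (by simp [hy])
    rcases nea_or s x with h1 | h1 <;> rw [h1]
    · exact hs
    · exact mvR_N op x (h x (by simp))

/-- no move: every symbol is doubled -/
theorem nxt_neutral (s r : Sy nP k) (hs : mvR op s = false) (hr : mvL op r = false)
    (l : List (Sy nP k)) (h : ∀ x ∈ l, isN x) : nxt (MM hk op p0) s r l = dbl l := by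
  induction l generalizing s with
  | nil => rfl
  | cons x l ih =>
    have h1 : ∀ y ∈ l, isN y := fun y hy => h y (by simp [hy])
    have hx : isN x := h x (by simp)
    have h2 := mvL_rst hk op p0 r hr l h1
    have h3 : mvR op (nea s x) = false := by
      rcases nea_or s x with h3 | h3 <;> rw [h3]
      · exact hs
      · exact mvR_N op x hx
    show ch1 hk op p0 x s (rst (MM hk op p0) r l) :: ch2 hk op x (rst (MM hk op p0) r l) ::
      nxt (MM hk op p0) (nea s x) r l = x :: .F :: dbl l
    rw [ih _ h3 h1]
    cases x with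
    | F => rfl
    | st => exact hx.elim
    | head p => exact hx.elim
    | cell d =>
      simp only [ch1, ch2, hs, h2]
      simp

/-- the symbol next to the word -/
theorem dg_rst (l : List (Sy nP k)) (h : ∀ x ∈ l, isN x) :
    (dg hk (rst (MM hk op p0) .F l) : ℕ) = vl l % k := by
  induction l with
  | nil => simp [rst, dg, vl]
  | cons x l ih =>
    have h1 : ∀ y ∈ l, isN y := fun y hy => h y (by simp [hy])
    have hx : isN x := h x (by simp)
    show (dg hk (nea (rst (MM hk op p0) .F l) x) : ℕ) = _
    cases x with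
    | F =>
      simp only [nea, if_true, vl]
      exact ih h1
    | st => exact hx.elim
    | head p => exact hx.elim
    | cell d =>
      simp [nea, dg, vl, Nat.mod_eq_of_lt d.2]

theorem dg_lst (l : List (Sy nP k)) (h : ∀ x ∈ l, isN x) :
    (dg hk (lst (MM hk op p0) .F l) : ℕ) = vl l.reverse % k := by
  induction l using List.reverseRecOn with
  | nil => simp [lst, dg, vl]
  | append_singleton l x ih =>
    have h1 : ∀ y ∈ l, isN y := fun y hy => h y (by simp [hy])
    have hx : isN x := h x (by simp)
    rw [lst_append]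
    show (dg hk (nea (lst (MM hk op p0) .F l) x) : ℕ) = _
    rw [List.reverse_append]
    cases x with
    | F =>
      simp only [nea, if_true]
      exact ih h1
    | st => exact hx.elim
    | head p => exact hx.elim
    | cell d =>
      simp [nea, dg, vl, Nat.mod_eq_of_lt d.2]

/-- pop from the right part -/
theorem nxt_popR (s : Sy nP k) (hs : mvR op s = true)
    (l : List (Sy nP k)) (h : ∀ x ∈ l, isN x) :
    vl (nxt (MM hk op p0) s .F l) = vl l / k ∧ ∀ x ∈ nxt (MM hk op p0) s .F l, isN x := by
  induction l with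
  | nil => exact ⟨by simp [nxt, vl], by simp [nxt]⟩
  | cons x l ih =>
    have h1 : ∀ y ∈ l, isN y := fun y hy => h y (by simp [hy])
    have hx : isN x := h x (by simp)
    have e : nxt (MM hk op p0) s .F (x :: l) =
      ch1 hk op p0 x s (rst (MM hk op p0) .F l) :: ch2 hk op x (rst (MM hk op p0) .F l) ::
      nxt (MM hk op p0) (nea s x) .F l := rfl
    rw [e]
    cases x with
    | F =>
      have h2 : nea s (Sy.F : Sy nP k) = s := rfl
      rw [h2]
      obtain ⟨i1, i2⟩ := ih h1
      refine ⟨?_, ?_⟩
      · show vl (nxt (MM hk op p0) s .F l) = vl l / k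
        exact i1
      · intro y hy
        simp only [List.mem_cons] at hy
        rcases hy with rfl | rfl | hy
        · trivial
        · trivial
        · exact i2 y hy
    | st => exact hx.elim
    | head p => exact hx.elim
    | cell d =>
      have h2 : nea s (Sy.cell d : Sy nP k) = .cell d := by simp [nea]
      rw [h2, nxt_neutral hk op p0 (.cell d) .F rfl rfl l h1]
      have h3 : ch1 hk op p0 (.cell d) s (rst (MM hk op p0) .F l) = .F := by
        simp [ch1, hs]
      rw [h3]
      refine ⟨?_, ?_⟩
      · show vl (dbl l) = (d + k * vl l) / k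
        rw [vl_dbl, Nat.add_mul_div_left _ _ hk, Nat.div_eq_of_lt d.2, Nat.zero_add]
      · intro y hy
        simp only [List.mem_cons] at hy
        rcases hy with rfl | rfl | hy
        · trivial
        · trivial
        · exact N_dbl l h1 y hy

/-- pop from the left part -/
theorem nxt_popL (r : Sy nP k) (hr : mvL op r = true)
    (l : List (Sy nP k)) (h : ∀ x ∈ l, isN x) :
    vl (nxt (MM hk op p0) .F r l).reverse = vl l.reverse / k ∧
      ∀ x ∈ nxt (MM hk op p0) .F r l, isN x := by
  induction l using List.reverseRecOn with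
  | nil => exact ⟨by simp [nxt, vl], by simp [nxt]⟩
  | append_singleton l x ih =>
    have h1 : ∀ y ∈ l, isN y := fun y hy => h y (by simp [hy])
    have hx : isN x := h x (by simp)
    have e : nxt (MM hk op p0) .F r (l ++ [x]) = nxt (MM hk op p0) .F (nea r x) l ++
      [ch1 hk op p0 x (lst (MM hk op p0) .F l) r, ch2 hk op x r] := by
      rw [nxt_append]; rfl
    rw [e, List.reverse_append, List.reverse_append]
    cases x with
    | F =>
      have h2 : nea r (Sy.F : Sy nP k) = r := rfl
      rw [h2]
      obtain ⟨i1, i2⟩ := ih h1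
      refine ⟨?_, ?_⟩
      · show vl (nxt (MM hk op p0) .F r l).reverse = vl l.reverse / k
        exact i1
      · intro y hy
        simp only [List.mem_append, List.mem_cons, List.not_mem_nil, or_false] at hy
        rcases hy with hy | rfl | rfl
        · exact i2 y hy
        · trivial
        · trivial
    | st => exact hx.elim
    | head p => exact hx.elim
    | cell d =>
      have h2 : nea r (Sy.cell d : Sy nP k) = .cell d := by simp [nea]
      rw [h2, nxt_neutral hk op p0 .F (.cell d) rfl rfl l h1]
      have h3 : ch1 hk op p0 (.cell d) (lst (MM hk op p0) .F l) r = .F := by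
        simp [ch1, hr]
      rw [h3]
      refine ⟨?_, ?_⟩
      · show vl (dbl l).reverse = (d + k * vl l.reverse) / k
        rw [vl_dbl_reverse, Nat.add_mul_div_left _ _ hk, Nat.div_eq_of_lt d.2, Nat.zero_add]
      · intro y hy
        simp only [List.mem_append, List.mem_cons, List.not_mem_nil, or_false] at hy
        rcases hy with hy | rfl | rfl
        · exact N_dbl l h1 y hy
        · trivial
        · trivial

/-- The word represents the configuration. -/
def Good (c : Fin nP × ℕ × ℕ) (W : List (Sy nP k)) : Prop :=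
  ∃ A B : List (Sy nP k), W = A ++ .head c.1 :: B ∧ (∀ x ∈ A, isN x) ∧ (∀ x ∈ B, isN x) ∧
    vl A.reverse = c.2.1 ∧ vl B = c.2.2

theorem good_next (c : Fin nP × ℕ × ℕ) (W : List (Sy nP k)) (h : Good c W) :
    Good (stepT hk op c) (nxt (MM hk op p0) .F .F W) := by
  obtain ⟨A, B, rfl, hA, hB, hvA, hvB⟩ := h
  obtain ⟨p, L, R⟩ := c
  simp only at hvA hvB
  have hN : ∀ r, (rst (MM hk op p0) r B = r ∨ isN (rst (MM hk op p0) r B)) := by
    intro r
    clear hvB
    induction B with
    | nil => exact Or.inl rfl
    | cons x B ih =>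
      have h1 : ∀ y ∈ B, isN y := fun y hy => hB y (by simp [hy])
      show nea (rst (MM hk op p0) r B) x = r ∨ isN (nea (rst (MM hk op p0) r B) x)
      rcases nea_or (rst (MM hk op p0) r B) x with h2 | h2 <;> rw [h2]
      · exact ih h1
      · exact Or.inr (hB x (by simp))
  have e : nxt (MM hk op p0) .F .F (A ++ .head p :: B) =
      nxt (MM hk op p0) .F (.head p) A ++
      (ch1 hk op p0 (.head p) (lst (MM hk op p0) .F A) (rst (MM hk op p0) .F B) ::
        ch2 hk op (.head p) (rst (MM hk op p0) .F B) ::
        nxt (MM hk op p0) (.head p) .F B) := by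
    rw [nxt_append]
    have h1 : rst (MM hk op p0) .F (.head p :: B) = .head p := by
      show nea (rst (MM hk op p0) .F B) (.head p) = .head p
      simp [nea]
    have h2 : nxt (MM hk op p0) (lst (MM hk op p0) .F A) .F (.head p :: B) =
        (ch1 hk op p0 (.head p) (lst (MM hk op p0) .F A) (rst (MM hk op p0) .F B) ::
        ch2 hk op (.head p) (rst (MM hk op p0) .F B) ::
        nxt (MM hk op p0) (nea (lst (MM hk op p0) .F A) (.head p)) .F B) := rfl
    rw [h1, h2]
    have h3 : nea (lst (MM hk op p0) .F A) (.head p) = .head p := by simp [nea]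
    rw [h3]
  rw [e]
  have hFF : ∀ l : List (Sy nP k), (∀ x ∈ l, isN x) → ∀ x ∈ Sy.F :: l, isN x := by
    intro l hl x hx
    simp only [List.mem_cons] at hx
    rcases hx with rfl | hx
    · trivial
    · exact hl x hx
  cases hop : op p with
  | right d f =>
    have m1 : mvR op (.head p) = true := by simp [mvR, hop]
    have m2 : mvL op (.head p) = false := by simp [mvL, hop]
    obtain ⟨i1, i2⟩ := nxt_popR hk op p0 (.head p) m1 B hB
    rw [nxt_neutral hk op p0 .F (.head p) rfl m2 A hA]
    have hstep : stepT hk op (p, L, R) = (f ⟨R % k, Nat.mod_lt _ hk⟩, k * L + d, R / k) := by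
      simp [stepT, TOp.step, hop]
    rw [hstep]
    have hd : dg hk (rst (MM hk op p0) .F B) = ⟨R % k, Nat.mod_lt _ hk⟩ := by
      apply Fin.ext
      rw [dg_rst hk op p0 B hB, hvB]
    refine ⟨dbl A ++ [.cell d], nxt (MM hk op p0) (.head p) .F B, ?_, ?_, i2, ?_, ?_⟩
    · simp only [ch1, ch2, hop, hd, List.append_assoc, List.cons_append, List.nil_append]
    · intro x hx
      simp only [List.mem_append, List.mem_cons, List.not_mem_nil, or_false] at hx
      rcases hx with hx | rfl
      · exact N_dbl A hA x hx
      · trivial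
    · rw [List.reverse_append]
      show (d : ℕ) + k * vl (dbl A).reverse = k * L + d
      rw [vl_dbl_reverse, hvA, Nat.add_comm]
    · show vl (nxt (MM hk op p0) (.head p) .F B) = R / k
      rw [i1, hvB]
  | left d f =>
    have m1 : mvR op (.head p) = false := by simp [mvR, hop]
    have m2 : mvL op (.head p) = true := by simp [mvL, hop]
    obtain ⟨i1, i2⟩ := nxt_popL hk op p0 (.head p) m2 A hA
    rw [nxt_neutral hk op p0 (.head p) .F m1 rfl B hB]
    have hstep : stepT hk op (p, L, R) = (f ⟨L % k, Nat.mod_lt _ hk⟩, L / k, k * R + d) := by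
      simp [stepT, TOp.step, hop]
    rw [hstep]
    have hd : dg hk (lst (MM hk op p0) .F A) = ⟨L % k, Nat.mod_lt _ hk⟩ := by
      apply Fin.ext
      rw [dg_lst hk op p0 A hA, hvA]
    refine ⟨nxt (MM hk op p0) .F (.head p) A, .cell d :: dbl B, ?_, i2, ?_, ?_, ?_⟩
    · simp only [ch1, ch2, hop, hd]
    · intro x hx
      simp only [List.mem_cons] at hx
      rcases hx with rfl | hx
      · trivial
      · exact N_dbl B hB x hx
    · show vl (nxt (MM hk op p0) .F (.head p) A).reverse = L / k
      rw [i1, hvA]
    · show (d : ℕ) + k * vl (dbl B) = k * R + d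
      rw [vl_dbl, hvB, Nat.add_comm]
  | jump p' =>
    have m1 : mvR op (.head p) = false := by simp [mvR, hop]
    have m2 : mvL op (.head p) = false := by simp [mvL, hop]
    rw [nxt_neutral hk op p0 (.head p) .F m1 rfl B hB,
      nxt_neutral hk op p0 .F (.head p) rfl m2 A hA]
    have hstep : stepT hk op (p, L, R) = (p', L, R) := by
      simp [stepT, TOp.step, hop]
    rw [hstep]
    refine ⟨dbl A, .F :: dbl B, ?_, N_dbl A hA, hFF _ (N_dbl B hB), ?_, ?_⟩
    · simp only [ch1, ch2, hop]
    · show vl (dbl A).reverse = L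
      rw [vl_dbl_reverse, hvA]
    · show vl (dbl B) = R
      rw [vl_dbl, hvB]
  | halt =>
    have m1 : mvR op (.head p) = false := by simp [mvR, hop]
    have m2 : mvL op (.head p) = false := by simp [mvL, hop]
    rw [nxt_neutral hk op p0 (.head p) .F m1 rfl B hB,
      nxt_neutral hk op p0 .F (.head p) rfl m2 A hA]
    have hstep : stepT hk op (p, L, R) = (p, L, R) := by
      simp [stepT, TOp.step, hop]
    rw [hstep]
    refine ⟨dbl A, .F :: dbl B, ?_, N_dbl A hA, hFF _ (N_dbl B hB), ?_, ?_⟩
    · simp only [ch1, ch2, hop]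
    · show vl (dbl A).reverse = L
      rw [vl_dbl_reverse, hvA]
    · show vl (dbl B) = R
      rw [vl_dbl, hvB]

/-- initial word -/
def W0 (d1 d2 : Fin k) (a : ℕ) : List (Sy nP k) := .st :: .cell d1 :: List.replicate a (.cell d2)

theorem W0_length (d1 d2 : Fin k) (a : ℕ) : (W0 (nP := nP) d1 d2 a).length = a + 2 := by
  simp [W0]

theorem vl_rep (d1 d2 : Fin k) (a : ℕ) :
    vl (.cell d1 :: List.replicate a (.cell d2) : List (Sy nP k)) = RR k d1 d2 a := by
  have h : ∀ a, vl (List.replicate a (.cell d2) : List (Sy nP k)) =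
      (Nat.rec 0 (fun _ v => (d2 : ℕ) + k * v) a : ℕ) := by
    intro a
    induction a with
    | zero => rfl
    | succ a ih =>
      rw [List.replicate_succ]
      show (d2 : ℕ) + k * vl (List.replicate a (.cell d2) : List (Sy nP k)) = _
      rw [ih]
  show (d1 : ℕ) + k * vl (List.replicate a (.cell d2) : List (Sy nP k)) = _
  rw [h]
  rfl

theorem good_row (d1 d2 : Fin k) (a n : ℕ) :
    Good (runT hk op (p0, 0, RR k d1 d2 a) n) (rowL (MM hk op p0) (W0 d1 d2 a) (n + 1)) := by
  induction n with
  | zero =>
    have hN : ∀ x ∈ (.cell d1 :: List.replicate a (.cell d2) : List (Sy nP k)), isN x := by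
      intro x hx
      simp only [List.mem_cons, List.mem_replicate] at hx
      rcases hx with rfl | ⟨_, rfl⟩ <;> trivial
    show Good (p0, 0, RR k d1 d2 a) (nxt (MM hk op p0) .F .F (.st :: (.cell d1 ::
      List.replicate a (.cell d2))))
    have e : nxt (MM hk op p0) .F .F (.st :: (.cell d1 :: List.replicate a (.cell d2))) =
      .head p0 :: .F :: nxt (MM hk op p0) .st .F (.cell d1 :: List.replicate a (.cell d2)) := rfl
    rw [e, nxt_neutral hk op p0 .st .F rfl rfl _ hN]
    refine ⟨[], .F :: dbl (.cell d1 :: List.replicate a (.cell d2)), rfl, by simp, ?_, rfl, ?_⟩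
    · intro x hx
      simp only [List.mem_cons (a := x) (b := .F)] at hx
      rcases hx with rfl | hx
      · trivial
      · exact N_dbl _ hN x hx
    · show vl (dbl (.cell d1 :: List.replicate a (.cell d2))) = _
      rw [vl_dbl, vl_rep]
  | succ n ih =>
    exact good_next hk op p0 _ _ ih

theorem hs_good (c : Fin nP × ℕ × ℕ) (W : List (Sy nP k)) (h : Good c W) :
    (∃ x ∈ W, hsf op x = some (isHalt (op c.1))) ∧
    ∀ x ∈ W, hsf op x = none ∨ hsf op x = some (isHalt (op c.1)) := by
  obtain ⟨A, B, rfl, hA, hB, -, -⟩ := h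
  have hn : ∀ x : Sy nP k, isN x → hsf op x = none := by
    intro x hx
    cases x <;> first | rfl | exact hx.elim
  refine ⟨⟨.head c.1, by simp, rfl⟩, ?_⟩
  intro x hx
  simp only [List.mem_append, List.mem_cons] at hx
  rcases hx with hx | rfl | hx
  · exact Or.inl (hn x (hA x hx))
  · exact Or.inr rfl
  · exact Or.inl (hn x (hB x hx))

end WML

open WML in
/-- **Module WM.** -/
theorem pWM : StWM := by
  classical
  obtain ⟨nP, k, hk, op, p0, d1, d2, hund⟩ := exists_TOp
  let w0 : ℕ → ℕ → Sy nP k := fun a i => (W0 d1 d2 a).getD i .F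
  have hrep : ∀ a, Rep (w0 a) (W0 d1 d2 a) := by
    intro a i hi
    show (W0 d1 d2 a).getD i .F = _
    rw [List.getD_eq_getElem _ _ hi]
  have hlen : ∀ a, (W0 (nP := nP) d1 d2 a).length = a + 2 := W0_length d1 d2
  have hrow : ∀ a n, Rep ((MM hk op p0).row (w0 a) (a + 2) n)
      (rowL (MM hk op p0) (W0 d1 d2 a) n) := by
    intro a n
    have := rep_row (MM hk op p0) (w0 a) (W0 d1 d2 a) (hrep a) n
    rwa [hlen] at this
  have hrl : ∀ a n, (rowL (MM hk op p0) (W0 d1 d2 a) n).length = (a + 2) * 2 ^ n := by
    intro a n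
    rw [rowL_length, hlen]
  have h0 : ∀ a, ∀ i < (a + 2) * 2 ^ 0, (i = 0 → (MM hk op p0).hs ((MM hk op p0).row (w0 a) (a + 2) 0 i) = some false) ∧
      (i ≠ 0 → (MM hk op p0).hs ((MM hk op p0).row (w0 a) (a + 2) 0 i) = none) := by
    intro a i hi
    have hi' : i < a + 2 := by simpa using hi
    show (i = 0 → hsf op ((W0 d1 d2 a).getD i .F) = some false) ∧
      (i ≠ 0 → hsf op ((W0 d1 d2 a).getD i .F) = none)
    refine ⟨?_, ?_⟩
    · rintro rfl
      rfl
    · intro hi0
      obtain ⟨j, rfl⟩ : ∃ j, i = j + 1 := ⟨i - 1, by omega⟩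
      cases j with
      | zero => rfl
      | succ j =>
        show hsf op ((List.replicate a (Sy.cell d2 : Sy nP k)).getD j .F) = none
        have hj : j < a := by omega
        have h5 : (List.replicate a (Sy.cell d2 : Sy nP k)).getD j .F = .cell d2 := by
          rw [List.getD_eq_getElem _ _ (by simpa using hj), List.getElem_replicate]
        rw [h5]
        rfl
  have h1 : ∀ a n, ((∃ i < (a + 2) * 2 ^ (n + 1), (MM hk op p0).hs ((MM hk op p0).row (w0 a) (a + 2) (n + 1) i) =
        some (isHalt (op (runT hk op (p0, 0, RR k d1 d2 a) n).1))) ∧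
      ∀ i < (a + 2) * 2 ^ (n + 1), (MM hk op p0).hs ((MM hk op p0).row (w0 a) (a + 2) (n + 1) i) = none ∨
        (MM hk op p0).hs ((MM hk op p0).row (w0 a) (a + 2) (n + 1) i) =
          some (isHalt (op (runT hk op (p0, 0, RR k d1 d2 a) n).1))) := by
    intro a n
    obtain ⟨⟨x, hx, hx1⟩, hx2⟩ := hs_good op _ _ (good_row hk op p0 d1 d2 a n)
    refine ⟨?_, ?_⟩
    · obtain ⟨i, hi, rfl⟩ := List.getElem_of_mem hx
      refine ⟨i, by rwa [hrl] at hi, ?_⟩
      rw [hrow a (n + 1) i hi]
      exact hx1
    · intro i hi
      have hi' : i < (rowL (MM hk op p0) (W0 d1 d2 a) (n + 1)).length := by rwa [hrl]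
      rw [hrow a (n + 1) i hi']
      exact hx2 _ (List.getElem_mem hi')
  have hH0 : ∀ a, ¬ (MM hk op p0).Hlt (w0 a) (a + 2) 0 := by
    rintro a ⟨i, hi, hh⟩
    obtain ⟨h2, h3⟩ := h0 a i hi
    by_cases hi0 : i = 0
    · rw [h2 hi0] at hh; simp at hh
    · rw [h3 hi0] at hh; simp at hh
  have hH : ∀ a n, (MM hk op p0).Hlt (w0 a) (a + 2) (n + 1) ↔
      isHalt (op (runT hk op (p0, 0, RR k d1 d2 a) n).1) = true := by
    intro a n
    obtain ⟨⟨i, hi, hi1⟩, h3⟩ := h1 a n
    constructor
    · rintro ⟨j, hj, hh⟩
      rcases h3 j hj with h4 | h4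
      · rw [h4] at hh; simp at hh
      · rw [h4] at hh; simpa using hh
    · intro hh
      exact ⟨i, hi, by rw [hi1, hh]⟩
  refine ⟨Sy nP k, Sy nP k, Sy nP k, inferInstance, inferInstance, inferInstance, MM hk op p0, 2,
    w0, by omega, ?_, hH0, ?_, ?_⟩
  · intro a n
    cases n with
    | zero =>
      refine ⟨false, ⟨0, by positivity, (h0 a 0 (by positivity)).1 rfl⟩, ?_⟩
      intro i hi
      by_cases hi0 : i = 0
      · exact Or.inr ((h0 a i hi).1 hi0)
      · exact Or.inl ((h0 a i hi).2 hi0)
    | succ n => exact ⟨_, h1 a n⟩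
  · intro h
    apply hund
    refine h.of_eq fun a => ?_
    rw [halts_iff_run]
    constructor
    · rintro ⟨n, hn⟩
      cases n with
      | zero => exact absurd hn (hH0 a)
      | succ n => exact ⟨n, (hH a n).1 hn⟩
    · rintro ⟨n, hn⟩
      exact ⟨n + 1, (hH a n).2 hn⟩
  · have hc : Computable fun x : ℕ × ℕ => (x.1, x.1 + x.2) :=
      (Primrec.pair Primrec.fst (Primrec.nat_add.comp Primrec.fst Primrec.snd)).to_comp
    obtain ⟨hd, hcomp⟩ := computable_Wt hk op p0 d1 d2
    have h2 : ComputablePred fun x : ℕ × ℕ => ∃ n ≤ x.1 + x.2,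
        isHalt (opU op p0 d1 d2 (runT hk (opU op p0 d1 d2) (.inl x.1, 0, 0) n).1) = true :=
      ⟨fun x => hd (x.1, x.1 + x.2), hcomp.comp hc⟩
    refine h2.of_eq fun x => ?_
    obtain ⟨a, B⟩ := x
    simp only
    have hr2 : ∀ n, runT hk (opU op p0 d1 d2) (.inl a, 0, 0) (a + 1 + n) =
        (.inr (runT hk op (p0, 0, RR k d1 d2 a) n).1, (runT hk op (p0, 0, RR k d1 d2 a) n).2) := by
      intro n
      rw [runT_add, run_preload']
      exact run_inr hk op p0 d1 d2 (p0, 0, RR k d1 d2 a) n
    constructor
    · rintro ⟨n, hn, hh⟩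
      rcases Nat.lt_or_ge a n with h | h
      · obtain ⟨m, rfl⟩ := Nat.exists_eq_add_of_le (show a + 1 ≤ n from h)
        rw [hr2, isHalt_inr] at hh
        exact ⟨m + 1, by omega, (hH a m).2 hh⟩
      · exfalso
        rw [run_preload hk op p0 d1 d2 a n h] at hh
        simp only at hh
        cases hb : a - n with
        | zero => rw [hb] at hh; simp [opU, isHalt] at hh
        | succ b => rw [hb] at hh; simp [opU, isHalt] at hh
    · rintro ⟨n, hn, hh⟩
      cases n with
      | zero => exact absurd hh (hH0 a)
      | succ n =>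
        refine ⟨a + 1 + n, by omega, ?_⟩
        rw [hr2, isHalt_inr]
        exact (hH a n).1 hh

end Pool.Agent.Helper84.LD
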