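import Pool.Agent.Helper2.LD.St6

set_option autoImplicit false

/-! # LD project, module Ch: existence of choices -/

namespace Pool.Agent.Helper84.LD

open Pool.Agent.Helper2.LD

/-- **Module Ch.** -/
theorem pCh : StCh := by
  classical
  intro V Q Λ B FB N e c hc
  have hsur : Function.Surjective (Set.rangeFactorization (TS N c)) :=
    Set.rangeFactorization_surjective
  have hpr : ∀ u z, u ≠ z → ∃ w, c.G.Adj z w ∧ c.G.dist u w + 1 = c.G.dist u z := by
    intro u z huz
    obtain ⟨p, hp⟩ := (hc.conn.preconnected z u).exists_walk_length_eq_dist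
    cases p with
    | nil => exact absurd rfl huz
    | @cons _ w _ hzw p =>
      refine ⟨w, hzw, ?_⟩
      rw [SimpleGraph.Walk.length_cons] at hp
      have h1 : c.G.dist w u ≤ p.length := SimpleGraph.dist_le p
      have h2 : c.G.dist z u ≤ c.G.dist z w + c.G.dist w u :=
        hc.conn.dist_triangle
      have h3 : c.G.dist z w = 1 := SimpleGraph.dist_eq_one_iff_adj.2 hzw
      have h4 : c.G.dist w u ≤ p.length := h1
      have h5 : c.G.dist u w = c.G.dist w u := SimpleGraph.dist_comm
      have h6 : c.G.dist u z = c.G.dist z u := SimpleGraph.dist_comm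
      omega
  have hq : ∀ u, ∃ q, c.ow q = u := by
    intro u
    obtain ⟨w, hw⟩ := hc.nb u
    obtain ⟨q, hq, -⟩ := hc.k9 u w hw
    exact ⟨q, hq⟩
  refine ⟨⟨fun u => Function.surjInv hsur (Set.rangeFactorization (TS N c) u),
    fun u z => if h : u ≠ z then (hpr u z h).choose else z, fun u => (hq u).choose⟩, ?_, ?_, ?_, ?_⟩
  · intro u
    have := Function.surjInv_eq hsur (Set.rangeFactorization (TS N c) u)
    exact congrArg Subtype.val this
  · intro u u' h
    have : Set.rangeFactorization (TS N c) u = Set.rangeFactorization (TS N c) u' :=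
      Subtype.ext h
    simp only [this]
  · intro u z h
    simp only [dif_pos h]
    exact (hpr u z h).choose_spec
  · intro u
    exact (hq u).choose_spec

end Pool.Agent.Helper84.LD
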