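import Pool.Agent.Helper2.LD.St6

set_option autoImplicit false

/-! # LD project, module FFin: finiteness and size of the full graph -/

namespace Pool.Agent.Helper84.LD

open Pool.Agent.Helper2.LD

/-- codes of names -/
private abbrev NT (K : Type) (m S : ℕ) : Type :=
  Option (K × Bool × (Fin 3 ⊕ Fin (m + 1) ⊕ (Fin (S + 1) × Fin (S + 1))))

/-- code of a name -/
private def nm {K : Type} (m S : ℕ) : Fb K → NT K m S
  | .root => none
  | .a1 κ c => some (κ, c, .inl 0)
  | .a2 κ c => some (κ, c, .inl 1)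
  | .r κ c => some (κ, c, .inl 2)
  | .lf κ c i => some (κ, c, .inr (.inl ⟨i % (m + 1), Nat.mod_lt _ (Nat.succ_pos _)⟩))
  | .mk κ c i j => some (κ, c, .inr (.inr (⟨i % (S + 1), Nat.mod_lt _ (Nat.succ_pos _)⟩,
      ⟨j % (S + 1), Nat.mod_lt _ (Nat.succ_pos _)⟩)))

private theorem nm_inj {K : Type} (m S : ℕ) (code : K → Finset ℕ)
    (hc : ∀ κ, ∀ i ∈ code κ, i ≤ S) (L : Finset K) (f g : Fb K) (hf : Fb.ok m code L f)
    (hg : Fb.ok m code L g) (h : nm m S f = nm m S g) : f = g := by
  cases f with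
  | root => cases g <;> first | rfl | simp [nm] at h
  | a1 κ c =>
    cases g <;> simp [nm] at h
    obtain ⟨rfl, rfl⟩ := h
    rfl
  | a2 κ c =>
    cases g <;> simp [nm] at h
    obtain ⟨rfl, rfl⟩ := h
    rfl
  | r κ c =>
    cases g <;> simp [nm] at h
    obtain ⟨rfl, rfl⟩ := h
    rfl
  | lf κ c i =>
    cases g with
    | lf κ' c' i' =>
      simp only [nm, Option.some.injEq, Prod.mk.injEq, Sum.inr.injEq, Sum.inl.injEq,
        Fin.mk.injEq] at h
      obtain ⟨rfl, rfl, h⟩ := h
      have h1 : i ≤ m := by rcases hf with h1 | h1 <;> omega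
      have h2 : i' ≤ m := by rcases hg with h2 | h2 <;> omega
      rw [Nat.mod_eq_of_lt (by omega), Nat.mod_eq_of_lt (by omega)] at h
      rw [h]
    | _ => simp [nm] at h
  | mk κ c i j =>
    cases g with
    | mk κ' c' i' j' =>
      simp only [nm, Option.some.injEq, Prod.mk.injEq, Sum.inr.injEq, Fin.mk.injEq] at h
      obtain ⟨rfl, rfl, h, h'⟩ := h
      obtain ⟨f1, f2, f3⟩ := hf
      obtain ⟨g1, g2, g3⟩ := hg
      have h1 := hc _ _ f1
      have h2 := hc _ _ g1
      rw [Nat.mod_eq_of_lt (by omega), Nat.mod_eq_of_lt (by omega)] at h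
      rw [Nat.mod_eq_of_lt (by omega), Nat.mod_eq_of_lt (by omega)] at h'
      rw [h, h']
    | _ => simp [nm] at h

/-- code of a vertex of the full graph -/
private def fcode {K V : Type} (k : ℕ) (C : KCode k K) (lab : V → Finset K)
    (p : FullV k C lab) : V × (Fin (HH k) → Option (Finset K)) × NT K (MM k) (SS k) :=
  (p.1.1.1.1, (fun i => p.1.1.1.2[(i : ℕ)]?), nm (MM k) (SS k) p.1.2)

private theorem fcode_inj {K V : Type} (k : ℕ) (C : KCode k K) (lab : V → Finset K) :
    Function.Injective (fcode k C lab) := by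
  rintro ⟨⟨⟨⟨x, l⟩, hx⟩, f⟩, hf⟩ ⟨⟨⟨⟨y, m⟩, hy⟩, g⟩, hg⟩ h
  simp only [fcode, Prod.mk.injEq] at h
  obtain ⟨rfl, h2, h3⟩ := h
  have hlm : l = m := by
    apply List.ext_getElem?
    intro i
    by_cases hi : i < HH k
    · exact congrFun h2 ⟨i, hi⟩
    · have h4 : l.length ≤ i := by have := hx.1; simp only at this; omega
      have h5 : m.length ≤ i := by have := hy.1; simp only at this; omega
      rw [List.getElem?_eq_none h4, List.getElem?_eq_none h5]
  subst hlm
  have hfg : f = g := nm_inj (MM k) (SS k) C.code (fun κ i hi => (C.rng κ i hi).2) _ f g hf hg h3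
  subst hfg
  rfl

/-- **Module FFin.** -/
theorem pFFin : StFFin := by
  classical
  have hfin : ∀ {K V : Type} [Fintype K] [Fintype V] (k : ℕ) (C : KCode k K)
      (lab : V → Finset K), Finite (FullV k C lab) := by
    intro K V _ _ k C lab
    exact Finite.of_injective _ (fcode_inj k C lab)
  refine ⟨hfin, ?_, ?_⟩
  · intro K V _ _ k C lab
    have h1 := Nat.card_le_card_of_injective _ (fcode_inj k C lab)
    refine h1.trans (le_of_eq ?_)
    rw [Nat.card_eq_fintype_card]
    simp only [Fintype.card_prod, Fintype.card_pi, Fintype.card_option, Fintype.card_finset,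
      Finset.prod_const, Finset.card_univ, Fintype.card_fin, Fintype.card_bool, Fintype.card_sum]
    ring
  · intro K V V' _ _ _ _ k C lab lab'
    have := hfin k C lab
    have := hfin k C (Sum.elim lab lab')
    have hL : ∀ u : BrV K V (HH k), brL (Sum.elim lab lab')
        (⟨(Sum.inl u.1.1, u.1.2), u.2⟩ : BrV K (V ⊕ V') (HH k)) = brL lab u := by
      rintro ⟨⟨x, l⟩, hx⟩
      cases l <;> rfl
    let ψ : FullV k C lab → FullV k C (Sum.elim lab lab') := fun p =>
      ⟨(⟨(Sum.inl p.1.1.1.1, p.1.1.1.2), p.1.1.2⟩, p.1.2), by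
        show Fb.ok (MM k) C.code (brL (Sum.elim lab lab') _) p.1.2
        rw [hL]
        exact p.2⟩
    have hψ : Function.Injective ψ := by
      rintro ⟨⟨⟨⟨x, l⟩, hx⟩, f⟩, hf⟩ ⟨⟨⟨⟨y, m⟩, hy⟩, g⟩, hg⟩ h
      have h1 := congrArg (fun p : FullV k C (Sum.elim lab lab') => p.1.1.1.1) h
      have h2 := congrArg (fun p : FullV k C (Sum.elim lab lab') => p.1.1.1.2) h
      have h3 := congrArg (fun p : FullV k C (Sum.elim lab lab') => p.1.2) h
      have h1' : x = y := Sum.inl_injective h1
      have h2' : l = m := h2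
      have h3' : f = g := h3
      subst h1' h2' h3'
      rfl
    obtain ⟨v'⟩ := (inferInstance : Nonempty V')
    let z : FullV k C (Sum.elim lab lab') :=
      ⟨(⟨(Sum.inr v', []), ⟨Nat.zero_le _, trivial⟩⟩, Fb.root), trivial⟩
    have hz : z ∉ Set.range ψ := by
      rintro ⟨p, hp⟩
      have h1 := congrArg (fun p : FullV k C (Sum.elim lab lab') => p.1.1.1.1) hp
      have h2 : (Sum.inl p.1.1.1.1 : V ⊕ V') = Sum.inr v' := h1
      exact absurd h2 (by simp)
    let _ := Fintype.ofFinite (FullV k C lab)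
    let _ := Fintype.ofFinite (FullV k C (Sum.elim lab lab'))
    rw [Nat.card_eq_fintype_card, Nat.card_eq_fintype_card]
    exact Fintype.card_lt_of_injective_of_notMem ψ hψ hz

end Pool.Agent.Helper84.LD
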