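import Pool.Agent.Helper2.LD.St6

set_option autoImplicit false

/-! # LD project, module FIso: isomorphisms of full graphs -/

namespace Pool.Agent.Helper84.LD

open Pool.Agent.Helper2.LD

private def brE {K V V' : Type} (φ : V ≃ V') (h : ℕ) : BrV K V h ≃ BrV K V' h where
  toFun u := ⟨(φ u.1.1, u.1.2), u.2⟩
  invFun u := ⟨(φ.symm u.1.1, u.1.2), u.2⟩
  left_inv u := by
    apply Subtype.ext
    simp
  right_inv u := by
    apply Subtype.ext
    simp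

private theorem brL_brE {K V V' : Type} (φ : V ≃ V') (h : ℕ) (lab : V → Finset K)
    (lab' : V' → Finset K) (hl : ∀ x, lab' (φ x) = lab x) (u : BrV K V h) :
    brL lab' (brE φ h u) = brL lab u := by
  obtain ⟨⟨x, l⟩, hu⟩ := u
  cases l with
  | nil => exact hl x
  | cons c l => rfl

private def encE {X X' K : Type} (m : ℕ) (code : K → Finset ℕ) (L : X → Finset K)
    (L' : X' → Finset K) (β : X ≃ X') (hL : ∀ x, L' (β x) = L x) :
    EncV m code L ≃ EncV m code L' where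
  toFun p := ⟨(β p.1.1, p.1.2), by
    show Fb.ok m code (L' (β p.1.1)) p.1.2
    rw [hL]; exact p.2⟩
  invFun p := ⟨(β.symm p.1.1, p.1.2), by
    show Fb.ok m code (L (β.symm p.1.1)) p.1.2
    have := hL (β.symm p.1.1)
    rw [Equiv.apply_symm_apply] at this
    rw [← this]; exact p.2⟩
  left_inv p := by
    apply Subtype.ext
    simp
  right_inv p := by
    apply Subtype.ext
    simp

/-- **Module FIso.** -/
theorem pFIso : StFIso := by
  intro K V V' k C S lab S' lab' φ hl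
  refine ⟨⟨encE (MM k) C.code (brL lab) (brL lab') (brE φ.toEquiv (HH k))
    (brL_brE φ.toEquiv (HH k) lab lab' hl), ?_⟩⟩
  intro p q
  obtain ⟨⟨x, f⟩, hp⟩ := p
  obtain ⟨⟨y, g⟩, hq⟩ := q
  obtain ⟨⟨x, l⟩, hx⟩ := x
  obtain ⟨⟨y, l'⟩, hy⟩ := y
  have hinj : ∀ a b : V, φ a = φ b ↔ a = b := fun a b => φ.injective.eq_iff
  have h1 : (brG K S' (HH k)).Adj (⟨(φ x, l), hx⟩ : BrV K V' (HH k)) ⟨(φ y, l'), hy⟩ ↔
      (brG K S (HH k)).Adj (⟨(x, l), hx⟩ : BrV K V (HH k)) ⟨(y, l'), hy⟩ := by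
    show (l = [] ∧ l' = [] ∧ S'.Adj (φ x) (φ y)) ∨
      (φ x = φ y ∧ ((∃ c, l' = c :: l) ∨ (∃ c, l = c :: l'))) ↔
      (l = [] ∧ l' = [] ∧ S.Adj x y) ∨ (x = y ∧ ((∃ c, l' = c :: l) ∨ (∃ c, l = c :: l')))
    rw [hinj, φ.map_adj_iff]
  have h2 : (⟨(φ x, l), hx⟩ : BrV K V' (HH k)) = ⟨(φ y, l'), hy⟩ ↔
      (⟨(x, l), hx⟩ : BrV K V (HH k)) = ⟨(y, l'), hy⟩ := by
    constructor
    · intro h
      have h3 := congrArg Subtype.val h
      simp only [Prod.mk.injEq, hinj] at h3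
      obtain ⟨rfl, rfl⟩ := h3
      rfl
    · intro h
      have h3 := congrArg Subtype.val h
      simp only [Prod.mk.injEq] at h3
      obtain ⟨rfl, rfl⟩ := h3
      rfl
  show ((brG K S' (HH k)).Adj (⟨(φ x, l), hx⟩ : BrV K V' (HH k)) ⟨(φ y, l'), hy⟩ ∧
      f = Fb.root ∧ g = Fb.root) ∨
      ((⟨(φ x, l), hx⟩ : BrV K V' (HH k)) = ⟨(φ y, l'), hy⟩ ∧ Fb.adj f g) ↔
    ((brG K S (HH k)).Adj (⟨(x, l), hx⟩ : BrV K V (HH k)) ⟨(y, l'), hy⟩ ∧
      f = Fb.root ∧ g = Fb.root) ∨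
      ((⟨(x, l), hx⟩ : BrV K V (HH k)) = ⟨(y, l'), hy⟩ ∧ Fb.adj f g)
  rw [h1, h2]

end Pool.Agent.Helper84.LD
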