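import Pool.Agent.Helper2.LD.St6

set_option autoImplicit false

/-! # LD project, module FTree: the full graph of a tree skeleton is a tree -/

namespace Pool.Agent.Helper84.LD

open Pool.Agent.Helper2.LD

private theorem not_reach' {X : Type} (G : SimpleGraph X) (S : Set X)
    (h : ∀ x y, G.Adj x y → x ∈ S → y ∈ S) (x y : X) (hx : x ∈ S) (hy : y ∉ S) :
    ¬ G.Reachable x y := by
  rintro ⟨p⟩
  induction p with
  | nil => exact hy hx
  | cons huv p ih => exact ih (h _ _ huv hx) hy

/-- hanging trees at the vertices of a tree -/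
private theorem pend {Y V : Type} (G : SimpleGraph Y) (S : SimpleGraph V) (ι : V → Y)
    (hι : Function.Injective ι) (ht : Y → ℕ) (par : Y → Y)
    (h0 : ∀ y, ht y = 0 → ∃ v, y = ι v) (h0' : ∀ v, ht (ι v) = 0)
    (hp : ∀ y, ht y ≠ 0 → ht (par y) + 1 = ht y)
    (ha : ∀ x y, G.Adj x y ↔ (ht x ≠ 0 ∧ y = par x) ∨ (ht y ≠ 0 ∧ x = par y) ∨
      ∃ u v, x = ι u ∧ y = ι v ∧ S.Adj u v) (hS : S.IsTree) : G.IsTree := by
  classical
  have hit : ∀ (y : Y) (i : ℕ), i ≤ ht y → ht (par^[i] y) + i = ht y := by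
    intro y i
    induction i with
    | zero => intro _; rfl
    | succ i ih =>
      intro hi
      have h1 := ih (by omega)
      rw [Function.iterate_succ_apply']
      have h2 := hp (par^[i] y) (by omega)
      omega
  have hhub : ∀ (n : ℕ) (y : Y), ht y = n → G.Reachable y (par^[ht y] y) := by
    intro n
    induction n with
    | zero => intro y hy; rw [hy]; exact SimpleGraph.Reachable.refl _
    | succ n ih =>
      intro y hy
      have h1 := hp y (by omega)
      have h2 : G.Adj y (par y) := (ha _ _).2 (Or.inl ⟨by omega, rfl⟩)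
      have h3 := ih (par y) (by omega)
      have h4 : par^[ht y] y = par^[ht (par y)] (par y) := by
        rw [← h1, Function.iterate_succ_apply]
      rw [h4]
      exact h2.reachable.trans h3
  have hex : ∀ y : Y, ∃ v, par^[ht y] y = ι v := by
    intro y
    apply h0
    have := hit y (ht y) le_rfl
    omega
  have hmap : ∀ u v, S.Reachable u v → G.Reachable (ι u) (ι v) := by
    rintro u v ⟨p⟩
    induction p with
    | nil => exact SimpleGraph.Reachable.refl _
    | cons huv p ih =>
      have h1 : G.Adj (ι _) (ι _) := (ha _ _).2 (Or.inr (Or.inr ⟨_, _, rfl, rfl, huv⟩))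
      exact h1.reachable.trans ih
  have hpre : G.Preconnected := by
    intro x y
    obtain ⟨u, hu⟩ := hex x
    obtain ⟨v, hv⟩ := hex y
    have h1 := hhub _ x rfl
    have h2 := hhub _ y rfl
    rw [hu] at h1
    rw [hv] at h2
    exact h1.trans ((hmap u v (hS.1.preconnected u v)).trans h2.symm)
  have hne : Nonempty Y := by
    obtain ⟨v⟩ := hS.1.nonempty
    exact ⟨ι v⟩
  refine ⟨⟨hpre⟩, ?_⟩
  rw [SimpleGraph.isAcyclic_iff_forall_adj_isBridge]
  have hpar : ∀ x y : Y, ht x ≠ 0 → y = par x →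
      ¬ (G.deleteEdges {s(x, y)}).Reachable x y := by
    intro x y hx hy
    let Z : Set Y := {z | ∃ i ≤ ht z, par^[i] z = x}
    have hyl := hp x hx
    rw [← hy] at hyl
    have hxS : x ∈ Z := ⟨0, Nat.zero_le _, rfl⟩
    have hyS : y ∉ Z := by
      rintro ⟨i, hi, h⟩
      have := hit y i hi
      rw [h] at this
      omega
    refine not_reach' _ Z ?_ x y hxS hyS
    have key : ∀ z w : Y, ht z ≠ 0 → w = par z → z ≠ x → (z ∈ Z ↔ w ∈ Z) := by
      intro z w hz hw hzx
      have hwl := hp z hz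
      rw [← hw] at hwl
      constructor
      · rintro ⟨i, hi, h⟩
        cases i with
        | zero => exact absurd h hzx
        | succ i =>
          refine ⟨i, by omega, ?_⟩
          rw [hw]
          exact h
      · rintro ⟨i, hi, h⟩
        refine ⟨i + 1, by omega, ?_⟩
        rw [hw] at h
        exact h
    intro z w hzw hzS
    rw [SimpleGraph.deleteEdges_adj] at hzw
    obtain ⟨hzw, hne⟩ := hzw
    have hne' : s(z, w) ≠ s(x, y) := hne
    rcases (ha z w).1 hzw with ⟨h1, h2⟩ | ⟨h1, h2⟩ | ⟨u, v, rfl, rfl, _⟩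
    · have hzx : z ≠ x := by
        rintro rfl
        apply hne'
        rw [h2, hy]
      exact (key z w h1 h2 hzx).1 hzS
    · have hwx : w ≠ x := by
        rintro rfl
        apply hne'
        rw [h2, hy, Sym2.eq_swap]
      exact (key w z h1 h2 hwx).2 hzS
    · exfalso
      obtain ⟨i, hi, h⟩ := hzS
      rw [h0'] at hi
      have hi0 : i = 0 := by omega
      subst hi0
      have h' : ι u = x := h
      apply hx
      rw [← h', h0']
  have hbd : ∀ u v : V, S.Adj u v →
      ¬ (G.deleteEdges {s(ι u, ι v)}).Reachable (ι u) (ι v) := by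
    intro u v huv
    have hbr := (SimpleGraph.isAcyclic_iff_forall_adj_isBridge.1 hS.2) huv
    rw [SimpleGraph.isBridge_iff] at hbr
    let Z : Set Y := {z | ∃ w, par^[ht z] z = ι w ∧ (S.deleteEdges {s(u, v)}).Reachable u w}
    have hxS : ι u ∈ Z := by
      refine ⟨u, ?_, SimpleGraph.Reachable.refl _⟩
      rw [h0']; rfl
    have hyS : ι v ∉ Z := by
      rintro ⟨w, h1, h2⟩
      rw [h0'] at h1
      have h3 : v = w := hι h1
      rw [← h3] at h2
      exact hbr h2
    refine not_reach' _ Z ?_ _ _ hxS hyS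
    have key : ∀ z w : Y, ht z ≠ 0 → w = par z → (z ∈ Z ↔ w ∈ Z) := by
      intro z w hz hw
      have hwl := hp z hz
      rw [← hw] at hwl
      have e : par^[ht z] z = par^[ht w] w := by
        rw [← hwl, Function.iterate_succ_apply, hw]
      show (∃ y, par^[ht z] z = ι y ∧ (S.deleteEdges {s(u, v)}).Reachable u y) ↔
        ∃ y, par^[ht w] w = ι y ∧ (S.deleteEdges {s(u, v)}).Reachable u y
      rw [e]
    intro z w hzw hzS
    rw [SimpleGraph.deleteEdges_adj] at hzw
    obtain ⟨hzw, hne⟩ := hzw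
    have hne' : s(z, w) ≠ s(ι u, ι v) := hne
    rcases (ha z w).1 hzw with ⟨h1, h2⟩ | ⟨h1, h2⟩ | ⟨a, b, rfl, rfl, hab⟩
    · exact (key z w h1 h2).1 hzS
    · exact (key w z h1 h2).2 hzS
    · obtain ⟨c, h1, h2⟩ := hzS
      rw [h0'] at h1
      have h3 : a = c := hι h1
      rw [← h3] at h2
      refine ⟨b, by rw [h0']; rfl, h2.trans ?_⟩
      have h4 : (S.deleteEdges {s(u, v)}).Adj a b := by
        rw [SimpleGraph.deleteEdges_adj]
        refine ⟨hab, ?_⟩
        intro h5
        have h6 : s(a, b) = s(u, v) := h5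
        apply hne'
        have := congrArg (Sym2.map ι) h6
        simpa only [Sym2.map_mk] using this
      exact h4.reachable
  intro x y hxy
  rw [SimpleGraph.isBridge_iff]
  rcases (ha x y).1 hxy with ⟨h1, h2⟩ | ⟨h1, h2⟩ | ⟨u, v, rfl, rfl, huv⟩
  · exact hpar x y h1 h2
  · have := hpar y x h1 h2
    rw [Sym2.eq_swap]
    exact fun h => this h.symm
  · exact hbd u v huv

/-! ### brushes -/

private theorem okl_tail {K : Type} (l : List (Finset K)) (h : okl l) : okl l.tail := by
  cases l with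
  | nil => exact h
  | cons c l => exact h.2

private theorem brG_tree {K V : Type} (S : SimpleGraph V) (h : ℕ) (hS : S.IsTree) :
    (brG K S h).IsTree := by
  refine pend (brG K S h) S (fun v => ⟨(v, []), Nat.zero_le _, trivial⟩) ?_
    (fun u => u.1.2.length) (fun u => ⟨(u.1.1, u.1.2.tail), by
      refine ⟨?_, okl_tail _ u.2.2⟩
      have := u.2.1
      simp only [List.length_tail]
      omega⟩) ?_ ?_ ?_ ?_ hS
  · intro u v huv
    have := congrArg (fun x : BrV K V h => x.1.1) huv
    exact this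
  · rintro ⟨⟨x, l⟩, hx⟩ h0
    have hl : l = [] := List.eq_nil_of_length_eq_zero h0
    subst hl
    exact ⟨x, rfl⟩
  · intro v; rfl
  · rintro ⟨⟨x, l⟩, hx⟩ h0
    cases l with
    | nil => exact absurd rfl h0
    | cons c l => rfl
  · rintro ⟨⟨x, l⟩, hx⟩ ⟨⟨y, m⟩, hy⟩
    constructor
    · rintro (⟨h1, h2, h3⟩ | ⟨h1, ⟨c, h2⟩ | ⟨c, h2⟩⟩)
      · have h1' : l = [] := h1
        have h2' : m = [] := h2
        subst h1' h2'
        exact Or.inr (Or.inr ⟨x, y, rfl, rfl, h3⟩)
      · have h1' : x = y := h1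
        have h2' : m = c :: l := h2
        subst h1' h2'
        exact Or.inr (Or.inl ⟨by simp, rfl⟩)
      · have h1' : x = y := h1
        have h2' : l = c :: m := h2
        subst h1' h2'
        exact Or.inl ⟨by simp, rfl⟩
    · rintro (⟨h1, h2⟩ | ⟨h1, h2⟩ | ⟨u, v, h1, h2, h3⟩)
      · have h3 := congrArg Subtype.val h2
        simp only [Prod.mk.injEq] at h3
        obtain ⟨rfl, rfl⟩ := h3
        cases l with
        | nil => exact absurd rfl h1
        | cons c l => exact Or.inr ⟨rfl, Or.inr ⟨c, rfl⟩⟩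
      · have h3 := congrArg Subtype.val h2
        simp only [Prod.mk.injEq] at h3
        obtain ⟨rfl, rfl⟩ := h3
        cases m with
        | nil => exact absurd rfl h1
        | cons c m => exact Or.inr ⟨rfl, Or.inl ⟨c, rfl⟩⟩
      · have h4 := congrArg Subtype.val h1
        simp only [Prod.mk.injEq] at h4
        obtain ⟨rfl, rfl⟩ := h4
        have h5 := congrArg Subtype.val h2
        simp only [Prod.mk.injEq] at h5
        obtain ⟨rfl, rfl⟩ := h5
        exact Or.inl ⟨rfl, rfl, h3⟩

/-! ### gadgets -/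

/-- depth of a name -/
private def dpt {K : Type} : Fb K → ℕ
  | .root => 0
  | .a1 _ _ => 1
  | .a2 _ _ => 2
  | .r _ _ => 3
  | .lf _ _ _ => 4
  | .mk _ _ _ j => if j ≤ 1 then 2 else j + 1

private theorem dpt_par {K : Type} (f : Fb K) (h : f ≠ .root) : dpt (Fb.par f) + 1 = dpt f := by
  cases f with
  | root => exact absurd rfl h
  | a1 κ c => rfl
  | a2 κ c => rfl
  | r κ c => rfl
  | lf κ c i => rfl
  | mk κ c i j =>
    simp only [Fb.par]
    by_cases hj : j ≤ 1
    · rw [if_pos hj]
      simp [dpt, hj]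
    · rw [if_neg hj]
      simp only [dpt]
      rw [if_neg hj]
      split_ifs with h2
      · omega
      · omega

private theorem dpt_zero {K : Type} (f : Fb K) : dpt f = 0 ↔ f = .root := by
  cases f with
  | root => simp [dpt]
  | a1 κ c => simp [dpt]
  | a2 κ c => simp [dpt]
  | r κ c => simp [dpt]
  | lf κ c i => simp [dpt]
  | mk κ c i j =>
    simp only [dpt]
    split_ifs <;> simp

private theorem ok_par {K : Type} (m : ℕ) (code : K → Finset ℕ) (L : Finset K) (f : Fb K)
    (h : Fb.ok m code L f) : Fb.ok m code L (Fb.par f) := by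
  cases f with
  | root => trivial
  | a1 κ c => trivial
  | a2 κ c => trivial
  | r κ c => trivial
  | lf κ c i => trivial
  | mk κ c i j =>
    simp only [Fb.par]
    obtain ⟨h1, h2, h3⟩ := h
    split_ifs with hj
    · trivial
    · exact ⟨h1, by omega, by omega⟩

private theorem encG_tree {X K : Type} (P : SimpleGraph X) (m : ℕ) (code : K → Finset ℕ)
    (L : X → Finset K) (hP : P.IsTree) : (encG P m code L).IsTree := by
  refine pend (encG P m code L) P (fun x => ⟨(x, .root), trivial⟩) ?_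
    (fun p => dpt p.1.2) (fun p => ⟨(p.1.1, Fb.par p.1.2), ok_par _ _ _ _ p.2⟩) ?_ ?_ ?_ ?_ hP
  · intro u v huv
    have := congrArg (fun x : EncV m code L => x.1.1) huv
    exact this
  · rintro ⟨⟨x, f⟩, hx⟩ h0
    have hf : f = .root := (dpt_zero f).1 h0
    subst hf
    exact ⟨x, rfl⟩
  · intro v; rfl
  · rintro ⟨⟨x, f⟩, hx⟩ h0
    exact dpt_par f fun h => h0 ((dpt_zero f).2 h)
  · rintro ⟨⟨x, f⟩, hx⟩ ⟨⟨y, g⟩, hy⟩
    have e1 : dpt f ≠ 0 ↔ f ≠ .root := not_congr (dpt_zero f)
    have e2 : dpt g ≠ 0 ↔ g ≠ .root := not_congr (dpt_zero g)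
    constructor
    · rintro (⟨h1, h2, h3⟩ | ⟨h1, ⟨h2, h3⟩ | ⟨h2, h3⟩⟩)
      · have h2' : f = .root := h2
        have h3' : g = .root := h3
        subst h2' h3'
        exact Or.inr (Or.inr ⟨x, y, rfl, rfl, h1⟩)
      · have h1' : x = y := h1
        have h3' : g = Fb.par f := h3
        subst h1' h3'
        exact Or.inl ⟨e1.2 h2, rfl⟩
      · have h1' : x = y := h1
        have h3' : f = Fb.par g := h3
        subst h1' h3'
        exact Or.inr (Or.inl ⟨e2.2 h2, rfl⟩)
    · rintro (⟨h1, h2⟩ | ⟨h1, h2⟩ | ⟨u, v, h1, h2, h3⟩)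
      · have h3 := congrArg Subtype.val h2
        simp only [Prod.mk.injEq] at h3
        obtain ⟨rfl, rfl⟩ := h3
        exact Or.inr ⟨rfl, Or.inl ⟨e1.1 h1, rfl⟩⟩
      · have h3 := congrArg Subtype.val h2
        simp only [Prod.mk.injEq] at h3
        obtain ⟨rfl, rfl⟩ := h3
        exact Or.inr ⟨rfl, Or.inr ⟨e2.1 h1, rfl⟩⟩
      · have h4 := congrArg Subtype.val h1
        simp only [Prod.mk.injEq] at h4
        obtain ⟨rfl, rfl⟩ := h4
        have h5 := congrArg Subtype.val h2
        simp only [Prod.mk.injEq] at h5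
        obtain ⟨rfl, rfl⟩ := h5
        exact Or.inl ⟨h3, rfl, rfl⟩

/-- **Module FTree.** -/
theorem pFTree : StFTree := by
  intro K V _ _ k C S lab hS
  exact encG_tree _ _ _ _ (brG_tree S (HH k) hS)

end Pool.Agent.Helper84.LD
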