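import Pool.Agent.Helper2.LD.St6

set_option autoImplicit false

/-! # LD project, module KC: existence of codes -/

namespace Pool.Agent.Helper84.LD

open Pool.Agent.Helper2.LD

/-- **Module KC.** -/
theorem pKC : StKC := by
  classical
  intro k K _ hk hK
  let P : Finset (Finset ℕ) := (Finset.Icc 5 (SS k)).powerset.erase ∅
  have hc : P.card = 2 ^ (SS k - 4) - 1 := by
    rw [Finset.card_erase_of_mem (Finset.empty_mem_powerset _), Finset.card_powerset,
      Nat.card_Icc]
    have : SS k + 1 - 5 = SS k - 4 := by omega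
    rw [this]
  have hle : Fintype.card K ≤ Fintype.card P := by
    rw [Fintype.card_coe, hc]; omega
  obtain ⟨f⟩ := Function.Embedding.nonempty_of_card_le hle
  refine ⟨⟨fun κ => (f κ).1, fun a b h => f.injective (Subtype.ext h), fun κ => ?_,
    fun κ i hi => ?_⟩⟩
  · exact Finset.nonempty_iff_ne_empty.2 (Finset.mem_erase.1 (f κ).2).1
  · have h1 := Finset.mem_powerset.1 (Finset.mem_erase.1 (f κ).2).2 hi
    exact Finset.mem_Icc.1 h1

end Pool.Agent.Helper84.LD
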