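import Pool.Agent.Helper2.LD.St6

set_option autoImplicit false

/-! # LD project, module Kd: the number of kinds -/

namespace Pool.Agent.Helper84.LD

open Pool.Agent.Helper2.LD

/-- kinds as a sum type -/
private def eqv (N : ℕ) (Λ B FB : Type) :
    Kd N Λ B FB ≃ Λ ⊕ (B × FB) ⊕ Fin (2 * N + 1) ⊕ Λ ⊕ (Λ × Fin (2 * N)) ⊕ Fin 4 where
  toFun
    | .kap l => .inl l
    | .gam b f => .inr (.inl (b, f))
    | .pi j => .inr (.inr (.inl j))
    | .del l => .inr (.inr (.inr (.inl l)))
    | .ty l d => .inr (.inr (.inr (.inr (.inl (l, d)))))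
    | .fg i => .inr (.inr (.inr (.inr (.inr i))))
  invFun
    | .inl l => .kap l
    | .inr (.inl (b, f)) => .gam b f
    | .inr (.inr (.inl j)) => .pi j
    | .inr (.inr (.inr (.inl l))) => .del l
    | .inr (.inr (.inr (.inr (.inl (l, d))))) => .ty l d
    | .inr (.inr (.inr (.inr (.inr i)))) => .fg i
  left_inv x := by cases x <;> rfl
  right_inv x := by
    rcases x with l | ⟨b, f⟩ | j | l | ⟨l, d⟩ | i <;> rfl

/-- **Module Kd.** -/
theorem pKd : StKd := by
  intro Λ B FB _ _ _ N
  rw [Fintype.card_congr (eqv N Λ B FB)]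
  simp only [Fintype.card_sum, Fintype.card_prod, Fintype.card_fin]
  ring

end Pool.Agent.Helper84.LD
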