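import Pool.Agent.Helper2.LD.St6

set_option autoImplicit false

/-! # LD project, module Size: the computable size bound -/

namespace Pool.Agent.Helper84.LD

open Pool.Agent.Helper2.LD

private theorem pr_pow : Primrec₂ (fun a b : ℕ => a ^ b) := by
  have h : Primrec₂ fun a b : ℕ => (Nat.rec 1 (fun _ v => v * a) b : ℕ) :=
    Primrec.nat_rec (f := fun _ : ℕ => 1) (g := fun a (p : ℕ × ℕ) => p.2 * a) (Primrec.const 1)
      (Primrec.nat_mul.comp (Primrec.snd.comp Primrec.snd) Primrec.fst)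
  refine h.of_eq fun a b => ?_
  induction b with
  | zero => rfl
  | succ b ih => rw [pow_succ, ← ih]

/-- the bound -/
private def SB (k : ℕ) : ℕ :=
  k + (1 + 2 * 2 ^ 2 ^ (SS k - 4) * (2 * NN k + 2 * (1 + (2 ^ 2 ^ (SS k - 4)) ^ 2))) *
    (2 ^ 2 ^ (SS k - 4) + 1) ^ HH k *
    (1 + 2 * 2 ^ (SS k - 4) * (4 + MM k + (SS k + 1) ^ 2))

private theorem pr_SB : Primrec SB := by
  have two : Primrec fun _ : ℕ => (2 : ℕ) := Primrec.const 2
  have one : Primrec fun _ : ℕ => (1 : ℕ) := Primrec.const 1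
  have four : Primrec fun _ : ℕ => (4 : ℕ) := Primrec.const 4
  have hN : Primrec NN := pr_pow.comp two (Primrec.nat_sub.comp Primrec.id (Primrec.const 3))
  have hS : Primrec SS := pr_pow.comp two (Primrec.nat_sub.comp Primrec.id (Primrec.const 30))
  have hM : Primrec MM := Primrec.nat_sub.comp Primrec.id four
  have hH : Primrec HH := Primrec.nat_mul.comp two hN
  have hK : Primrec fun k => 2 ^ (SS k - 4) := pr_pow.comp two (Primrec.nat_sub.comp hS four)
  have hK2 : Primrec fun k => 2 ^ 2 ^ (SS k - 4) := pr_pow.comp two hK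
  have hA : Primrec fun k => 1 + 2 * 2 ^ 2 ^ (SS k - 4) *
      (2 * NN k + 2 * (1 + (2 ^ 2 ^ (SS k - 4)) ^ 2)) :=
    Primrec.nat_add.comp one (Primrec.nat_mul.comp (Primrec.nat_mul.comp two hK2)
      (Primrec.nat_add.comp (Primrec.nat_mul.comp two hN)
        (Primrec.nat_mul.comp two (Primrec.nat_add.comp one (pr_pow.comp hK2 two)))))
  have hB : Primrec fun k => (2 ^ 2 ^ (SS k - 4) + 1) ^ HH k :=
    pr_pow.comp (Primrec.nat_add.comp hK2 one) hH
  have hC : Primrec fun k => 1 + 2 * 2 ^ (SS k - 4) * (4 + MM k + (SS k + 1) ^ 2) :=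
    Primrec.nat_add.comp one (Primrec.nat_mul.comp (Primrec.nat_mul.comp two hK)
      (Primrec.nat_add.comp (Primrec.nat_add.comp four hM)
        (pr_pow.comp (Primrec.nat_add.comp hS one) two)))
  exact Primrec.nat_add.comp Primrec.id (Primrec.nat_mul.comp (Primrec.nat_mul.comp hA hB) hC)

/-- **Module Size.** -/
theorem pSize : StSize := by
  refine ⟨SB, pr_SB.to_comp, ?_⟩
  intro k _
  refine ⟨Nat.le_add_right _ _, ?_⟩
  intro K T F hK hT hF
  have hK' : K ≤ 2 ^ (SS k - 4) := hK.le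
  have h2 : 2 ^ K ≤ 2 ^ 2 ^ (SS k - 4) := Nat.pow_le_pow_right (by norm_num) hK'
  have hT' : T ≤ 1 + 2 * 2 ^ 2 ^ (SS k - 4) *
      (2 * NN k + 2 * (1 + (2 ^ 2 ^ (SS k - 4)) ^ 2)) := by
    refine hT.trans ?_
    gcongr
  have h3 : T * (2 ^ K + 1) ^ HH k * (1 + 2 * K * (4 + MM k + (SS k + 1) ^ 2)) ≤
      (1 + 2 * 2 ^ 2 ^ (SS k - 4) * (2 * NN k + 2 * (1 + (2 ^ 2 ^ (SS k - 4)) ^ 2))) *
      (2 ^ 2 ^ (SS k - 4) + 1) ^ HH k *
      (1 + 2 * 2 ^ (SS k - 4) * (4 + MM k + (SS k + 1) ^ 2)) := by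
    refine Nat.mul_le_mul (Nat.mul_le_mul hT' ?_) ?_
    · exact Nat.pow_le_pow_left (by omega) _
    · gcongr
  exact (hF.trans h3).trans (Nat.le_add_left _ _)

end Pool.Agent.Helper84.LD
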