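import Pool.Agent.Helper2.LD.St6

set_option autoImplicit false

/-! # LD project, module TFin: finiteness and size of the tree skeleton -/

namespace Pool.Agent.Helper84.LD

open Pool.Agent.Helper2.LD

/-- codes of natural hubs -/
private abbrev GC (V Q K : Type) (n : ℕ) : Type :=
  V ⊕ (Q × Fin (n + 1)) ⊕ (V × Fin (n + 1)) ⊕ (V × Finset K)

private def gcode {V Q K : Type} (n : ℕ) : GH V Q K → GC V Q K n
  | .core x => .inl x
  | .gho q j => .inr (.inl (q, ⟨j % (n + 1), Nat.mod_lt _ (Nat.succ_pos _)⟩))
  | .tru x j => .inr (.inr (.inl (x, ⟨j % (n + 1), Nat.mod_lt _ (Nat.succ_pos _)⟩)))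
  | .fan x l => .inr (.inr (.inr (x, l)))

private theorem gcode_inj {V Q Λ B FB : Type} (N e : ℕ) (c : Core V Q Λ B FB)
    (h h' : GH V Q (Kd N Λ B FB)) (ho : okG N e c h) (ho' : okG N e c h')
    (hh : gcode (2 * N) h = gcode (2 * N) h') : h = h' := by
  cases h with
  | core x =>
    cases h' <;> simp [gcode] at hh
    rw [hh]
  | gho q j =>
    cases h' with
    | gho q' j' =>
      simp only [gcode, Sum.inr.injEq, Sum.inl.injEq, Prod.mk.injEq, Fin.mk.injEq] at hh
      obtain ⟨rfl, hh⟩ := hh
      obtain ⟨h1, h2⟩ := ho
      obtain ⟨h3, h4⟩ := ho'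
      rw [Nat.mod_eq_of_lt (by omega), Nat.mod_eq_of_lt (by omega)] at hh
      rw [hh]
    | _ => simp [gcode] at hh
  | tru x j =>
    cases h' with
    | tru x' j' =>
      simp only [gcode, Sum.inr.injEq, Sum.inl.injEq, Prod.mk.injEq, Fin.mk.injEq] at hh
      obtain ⟨rfl, hh⟩ := hh
      obtain ⟨h1, h2⟩ := ho
      obtain ⟨h3, h4⟩ := ho'
      rw [Nat.mod_eq_of_lt (by omega), Nat.mod_eq_of_lt (by omega)] at hh
      rw [hh]
    | _ => simp [gcode] at hh
  | fan x l =>
    cases h' <;> simp [gcode] at hh
    rw [hh.1, hh.2]

/-- codes of hubs of the tree skeleton -/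
private abbrev TC (V Q K : Type) (n : ℕ) : Type :=
  Option ((Bool × V × GC V Q K n) ⊕ (Bool × V × GC V Q K n) ⊕ (Bool × V × Fin (n + 1)))

private def tcode {V Q K : Type} (n : ℕ) : TH V Q K → TC V Q K n
  | .nat b u h => some (.inl (b, u, gcode n h))
  | .cap b u h => some (.inr (.inl (b, u, gcode n h)))
  | .pth b u j => some (.inr (.inr (b, u, ⟨j % (n + 1), Nat.mod_lt _ (Nat.succ_pos _)⟩)))
  | .rt => none

private theorem tcode_inj {V Q Λ B FB : Type} (N e : ℕ) (c : Core V Q Λ B FB) (s : Ch V Q)
    (x y : TH V Q (Kd N Λ B FB)) (hx : okT N e c s x) (hy : okT N e c s y)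
    (h : tcode (2 * N) x = tcode (2 * N) y) : x = y := by
  cases x with
  | nat b u z =>
    cases y with
    | nat b' u' z' =>
      simp only [tcode, Option.some.injEq, Sum.inl.injEq, Prod.mk.injEq] at h
      obtain ⟨rfl, rfl, h⟩ := h
      rw [gcode_inj N e c z z' hx.2.1 hy.2.1 h]
    | _ => simp [tcode] at h
  | cap b u z =>
    cases y with
    | cap b' u' z' =>
      simp only [tcode, Option.some.injEq, Sum.inl.injEq, Sum.inr.injEq, Prod.mk.injEq] at h
      obtain ⟨rfl, rfl, h⟩ := h
      rw [gcode_inj N e c z z' hx.2.1 hy.2.1 h]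
    | _ => simp [tcode] at h
  | pth b u j =>
    cases y with
    | pth b' u' j' =>
      simp only [tcode, Option.some.injEq, Sum.inr.injEq, Prod.mk.injEq, Fin.mk.injEq] at h
      obtain ⟨rfl, rfl, h⟩ := h
      obtain ⟨-, h1, h2⟩ := hx
      obtain ⟨-, h3, h4⟩ := hy
      rw [Nat.mod_eq_of_lt (by omega), Nat.mod_eq_of_lt (by omega)] at h
      rw [h]
    | _ => simp [tcode] at h
  | rt => cases y <;> first | rfl | simp [tcode] at h

/-- **Module TFin.** -/
theorem pTFin (hT : StTok) (hI : StTinj) : StTFin := by
  classical
  have hfinT : ∀ {V Q Λ B FB : Type} [Fintype V] [Fintype Q] [Fintype Λ] [Fintype B]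
      [Fintype FB] (N e : ℕ) (c : Core V Q Λ B FB) (s : Ch V Q), Finite (TV N e c s) := by
    intro V Q Λ B FB _ _ _ _ _ N e c s
    refine Finite.of_injective (fun x : TV N e c s => tcode (2 * N) x.1) ?_
    intro x y h
    exact Subtype.ext (tcode_inj N e c s x.1 y.1 x.2 y.2 h)
  refine ⟨hfinT, ?_, ?_⟩
  · intro V Q Λ B FB _ _ _ _ _ N e c
    refine Finite.of_injective (fun x : GV N e c => gcode (2 * N) x.1) ?_
    intro x y h
    exact Subtype.ext (gcode_inj N e c x.1 y.1 x.2 y.2 h)
  · intro V Q Λ B FB _ _ _ _ _ N e c s hp hc hs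
    -- representatives are determined by their types
    have htyl : ∀ u u', s.rp u = u → s.rp u' = u' →
        (tyl N (TS N c u) : Finset (Kd N Λ B FB)) = tyl N (TS N c u') → u = u' := by
      intro u u' hu hu' h
      have hTS : TS N c u = TS N c u' := by
        have key : ∀ v v', (tyl N (TS N c v) : Finset (Kd N Λ B FB)) = tyl N (TS N c v') →
            ∀ p ∈ TS N c v, p ∈ TS N c v' := by
          rintro v v' hv ⟨l, d⟩ hp
          have hd : d < 2 * N := hp.1
          have h1 : (Kd.ty l ⟨d, hd⟩ : Kd N Λ B FB) ∈
              (tyl N (TS N c v) : Finset (Kd N Λ B FB)) := by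
            unfold tyl
            rw [Finset.mem_filter]
            exact ⟨Finset.mem_univ _, l, ⟨d, hd⟩, rfl, hp⟩
          rw [hv] at h1
          unfold tyl at h1
          rw [Finset.mem_filter] at h1
          obtain ⟨-, l', d', h2, h3⟩ := h1
          simp only [Kd.ty.injEq] at h2
          obtain ⟨rfl, rfl⟩ := h2
          exact h3
        exact Set.Subset.antisymm (key u u' h) (key u' u h.symm)
      rw [← hu, ← hu', hs.rp2 u u' hTS]
    let K := Kd N Λ B FB
    let nc : Bool → V → GH V Q K → Option (Finset K × Finset K) := fun b u h =>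
      if h = .core u then none else some (gl N e c h, gl N e c (pb N e c s b u h))
    -- natural hubs of one piece are determined by the labels of the hub and its parent
    have hnc : ∀ b u h h', okT N e c s (.nat b u h) → okT N e c s (.nat b u h') →
        nc b u h = nc b u h' → h = h' := by
      intro b u h h' ho ho' hh
      by_cases h1 : h = .core u
      · by_cases h2 : h' = .core u
        · rw [h1, h2]
        · simp only [nc, if_pos h1, if_neg h2] at hh
          simp at hh
      · by_cases h2 : h' = .core u
        · simp only [nc, if_neg h1, if_pos h2] at hh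
          simp at hh
        · simp only [nc, if_neg h1, if_neg h2, Option.some.injEq, Prod.mk.injEq] at hh
          have key : ∀ h, okT N e c s (.nat b u h) → h ≠ .core u →
              tlev N c (.nat b u h : TH V Q K) ≠ 0 := by
            intro h ho hne h0
            rcases hT.zero N e c s hp hc hs _ ho h0 with h3 | ⟨b', u', _, h3⟩
            · simp at h3
            · simp only [TH.nat.injEq] at h3
              obtain ⟨rfl, rfl, rfl⟩ := h3
              exact hne rfl
          have l1 := key h ho h1
          have l2 := key h' ho' h2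
          obtain ⟨o1, -, p1⟩ := hT.ok N e c s hp hc hs _ ho l1
          obtain ⟨o2, -, p2⟩ := hT.ok N e c s hp hc hs _ ho' l2
          let x : TV N e c s := ⟨.nat b u h, ho⟩
          let y : TV N e c s := ⟨tpar N e c s (.nat b u h), o1⟩
          let x' : TV N e c s := ⟨.nat b u h', ho'⟩
          let y' : TV N e c s := ⟨tpar N e c s (.nat b u h'), o2⟩
          have a1 : (TG N e c s).Adj x y :=
            (hT.adj N e c s hp hc hs x y).2 (Or.inl ⟨l1, rfl⟩)
          have a2 : (TG N e c s).Adj x' y' :=
            (hT.adj N e c s hp hc hs x' y').2 (Or.inl ⟨l2, rfl⟩)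
          have e1 := hI.edge N e c s hp hc hs x y x' y' a1 a2 rfl (by simp [x, pc])
            hh.1 hh.2
          have e2 := congrArg Subtype.val e1.1
          have e3 : (TH.nat b u h : TH V Q K) = .nat b u h' := e2
          simpa using e3
    have hcap : ∀ b u h, okT N e c s (.cap b u h) → okT N e c s (.nat b u h) := by
      rintro b u h ⟨h1, h2, h3, -⟩
      exact ⟨h1, h2, Or.inl h3.le⟩
    let cd : TH V Q K → Option (Bool × Finset K × (Fin (2 * N) ⊕
        (Bool × Option (Finset K × Finset K)))) := fun x =>
      match x with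
      | .nat b u h => some (b, tyl N (TS N c u), .inr (true, nc b u h))
      | .cap b u h => some (b, tyl N (TS N c u), .inr (false, nc b u h))
      | .pth b u j => if hj : j - 1 < 2 * N then
          some (b, tyl N (TS N c u), .inl ⟨j - 1, hj⟩) else none
      | .rt => none
    have hcd : ∀ x y, okT N e c s x → okT N e c s y → cd x = cd y → x = y := by
      intro x y hx hy h
      cases x with
      | nat b u z =>
        cases y with
        | nat b' u' z' =>
          simp only [cd, Option.some.injEq, Sum.inr.injEq, Prod.mk.injEq, true_and] at h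
          obtain ⟨rfl, hu, h⟩ := h
          obtain rfl := htyl u u' hx.1 hy.1 hu
          rw [hnc b u z z' hx hy h]
        | cap b' u' z' => simp [cd] at h
        | pth b' u' j' =>
          simp only [cd] at h
          split_ifs at h
          simp at h
        | rt => simp [cd] at h
      | cap b u z =>
        cases y with
        | nat b' u' z' => simp [cd] at h
        | cap b' u' z' =>
          simp only [cd, Option.some.injEq, Sum.inr.injEq, Prod.mk.injEq, true_and] at h
          obtain ⟨rfl, hu, h⟩ := h
          obtain rfl := htyl u u' hx.1 hy.1 hu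
          rw [hnc b u z z' (hcap _ _ _ hx) (hcap _ _ _ hy) h]
        | pth b' u' j' =>
          simp only [cd] at h
          split_ifs at h
          simp at h
        | rt => simp [cd] at h
      | pth b u j =>
        obtain ⟨x1, x2, x3⟩ := hx
        have hj : j - 1 < 2 * N := by omega
        cases y with
        | nat b' u' z' =>
          simp only [cd, dif_pos hj] at h
          simp at h
        | cap b' u' z' =>
          simp only [cd, dif_pos hj] at h
          simp at h
        | pth b' u' j' =>
          obtain ⟨y1, y2, y3⟩ := hy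
          have hj' : j' - 1 < 2 * N := by omega
          simp only [cd, dif_pos hj, dif_pos hj', Option.some.injEq, Prod.mk.injEq,
            Sum.inl.injEq, Fin.mk.injEq] at h
          obtain ⟨rfl, hu, h⟩ := h
          obtain rfl := htyl u u' x1 y1 hu
          have : j = j' := by omega
          rw [this]
        | rt =>
          simp only [cd, dif_pos hj] at h
          simp at h
      | rt =>
        cases y with
        | nat b' u' z' => simp [cd] at h
        | cap b' u' z' => simp [cd] at h
        | pth b' u' j' =>
          obtain ⟨y1, y2, y3⟩ := hy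
          have hj' : j' - 1 < 2 * N := by omega
          simp only [cd, dif_pos hj'] at h
          simp at h
        | rt => rfl
    have := hfinT N e c s
    have h1 := Nat.card_le_card_of_injective (fun x : TV N e c s => cd x.1)
      (fun x y h => Subtype.ext (hcd x.1 y.1 x.2 y.2 h))
    refine h1.trans (le_of_eq ?_)
    rw [Nat.card_eq_fintype_card]
    simp only [Fintype.card_option, Fintype.card_prod, Fintype.card_sum, Fintype.card_fin,
      Fintype.card_bool, Fintype.card_finset]
    ring

end Pool.Agent.Helper84.LD
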