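import Pool.Agent.Helper2.LD.St4

set_option autoImplicit false

/-!
# LD project, module Bridge: distances and bridges
-/

namespace Pool.Agent.Helper84.LD

open Pool.Agent.Helper2.LD

private theorem le_edist {X : Type} (G : SimpleGraph X) (u v : X) (d : ℕ∞)
    (h : ∀ p : G.Walk u v, d ≤ p.length) : d ≤ G.edist u v := le_iInf h

open Classical in
/-- retraction to `A` -/
private noncomputable def ret {X : Type} (A : Set X) (a : X) (ha : a ∈ A) (x : X) : A :=
  if h : x ∈ A then ⟨x, h⟩ else ⟨a, ha⟩

private theorem ret_in {X : Type} (A : Set X) (a : X) (ha : a ∈ A) (x : X) (h : x ∈ A) :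
    ret A a ha x = ⟨x, h⟩ := by
  unfold ret
  rw [dif_pos h]

private theorem ret_out {X : Type} (A : Set X) (a : X) (ha : a ∈ A) (x : X) (h : x ∉ A) :
    ret A a ha x = ⟨a, ha⟩ := by
  unfold ret
  rw [dif_neg h]

private theorem walk_ret {X : Type} (G : SimpleGraph X) (A : Set X) (a b : X) (ha : a ∈ A)
    (h : ∀ x ∈ A, ∀ y, y ∉ A → G.Adj x y → x = a ∧ y = b) (x y : X) (p : G.Walk x y) :
    ∃ q : (G.induce A).Walk (ret A a ha x) (ret A a ha y), q.length ≤ p.length := by
  induction p with
  | nil => exact ⟨.nil, le_rfl⟩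
  | @cons u v w huv p ih =>
    obtain ⟨q, hq⟩ := ih
    by_cases hu : u ∈ A
    · by_cases hv : v ∈ A
      · have hadj : (G.induce A).Adj (ret A a ha u) (ret A a ha v) := by
          rw [ret_in A a ha u hu, ret_in A a ha v hv]
          exact huv
        refine ⟨.cons hadj q, ?_⟩
        rw [SimpleGraph.Walk.length_cons, SimpleGraph.Walk.length_cons]
        omega
      · obtain ⟨rfl, rfl⟩ := h u hu v hv huv
        have e : ret A u ha u = ret A u ha v := by
          rw [ret_in A u ha u hu, ret_out A u ha v hv]
        refine ⟨q.copy e.symm rfl, ?_⟩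
        rw [SimpleGraph.Walk.length_copy, SimpleGraph.Walk.length_cons]
        omega
    · by_cases hv : v ∈ A
      · obtain ⟨rfl, rfl⟩ := h v hv u hu huv.symm
        have e : ret A v ha u = ret A v ha v := by
          rw [ret_in A v ha v hv, ret_out A v ha u hu]
        refine ⟨q.copy e.symm rfl, ?_⟩
        rw [SimpleGraph.Walk.length_copy, SimpleGraph.Walk.length_cons]
        omega
      · have e : ret A a ha u = ret A a ha v := by
          rw [ret_out A a ha u hu, ret_out A a ha v hv]
        refine ⟨q.copy e.symm rfl, ?_⟩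
        rw [SimpleGraph.Walk.length_copy, SimpleGraph.Walk.length_cons]
        omega

private theorem walk_cut {X : Type} (G : SimpleGraph X) (A : Set X) (a b : X)
    (h : ∀ x ∈ A, ∀ y, y ∉ A → G.Adj x y → x = a ∧ y = b) (x y : X) (p : G.Walk x y)
    (hx : x ∈ A) (hy : y ∉ A) : G.edist x a + 1 + G.edist b y ≤ p.length := by
  induction p with
  | nil => exact absurd hx hy
  | @cons u v w huv p ih =>
    rw [SimpleGraph.Walk.length_cons]
    by_cases hv : v ∈ A
    · have h1 := ih hv hy
      have h2 : G.edist u a ≤ 1 + G.edist v a := by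
        refine (G.edist_triangle (v := v)).trans ?_
        refine add_le_add ?_ le_rfl
        exact SimpleGraph.edist_le_one_iff_adj_or_eq.2 (Or.inl huv)
      calc G.edist u a + 1 + G.edist b w ≤ (1 + G.edist v a) + 1 + G.edist b w := by gcongr
        _ = (G.edist v a + 1 + G.edist b w) + 1 := by ring
        _ ≤ (p.length : ℕ∞) + 1 := by gcongr
        _ = ((p.length + 1 : ℕ) : ℕ∞) := by push_cast; rfl
    · obtain ⟨rfl, rfl⟩ := h u hx v hv huv
      rw [SimpleGraph.edist_self, zero_add]
      have h3 : G.edist v w ≤ p.length := SimpleGraph.edist_le p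
      calc 1 + G.edist v w ≤ 1 + (p.length : ℕ∞) := by gcongr
        _ = ((p.length + 1 : ℕ) : ℕ∞) := by push_cast; ring

/-- **Module Bridge.** -/
theorem pBridge : StBridge := by
  intro X G A a b ha hb hab h
  refine ⟨?_, ?_⟩
  · intro x y
    apply le_antisymm
    · refine le_edist _ _ _ _ fun p => ?_
      have h1 := SimpleGraph.edist_le (p.map (SimpleGraph.Embedding.induce A).toHom)
      rw [SimpleGraph.Walk.length_map] at h1
      exact h1
    · refine le_edist _ _ _ _ fun p => ?_
      obtain ⟨q, hq⟩ := walk_ret G A a b ha h x y p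
      have ex : ret A a ha x = x := ret_in A a ha x x.2
      have ey : ret A a ha y = y := ret_in A a ha y y.2
      have h1 := SimpleGraph.edist_le (q.copy ex ey)
      rw [SimpleGraph.Walk.length_copy] at h1
      exact h1.trans (by exact_mod_cast hq)
  · intro x hx y hy
    apply le_antisymm
    · refine (G.edist_triangle (v := b)).trans ?_
      refine add_le_add ?_ le_rfl
      refine (G.edist_triangle (v := a)).trans ?_
      refine add_le_add le_rfl ?_
      exact SimpleGraph.edist_le_one_iff_adj_or_eq.2 (Or.inl hab)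
    · exact le_edist _ _ _ _ fun p => walk_cut G A a b h x y p hx hy

end Pool.Agent.Helper84.LD
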