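import Pool.Agent.Helper2.LD.St4

set_option autoImplicit false

/-!
# LD project, modules Ttree and Tpos
-/

namespace Pool.Agent.Helper84.LD

open Pool.Agent.Helper2.LD

variable {V Q Λ B FB : Type} {N e : ℕ} {c : Core V Q Λ B FB} {s : Ch V Q}

private theorem iter (hT : StTok) (hp : Par N e) (hc : CoreAx N e c) (hs : ChAx N c s)
    (x : TH V Q (Kd N Λ B FB)) (hx : okT N e c s x) (i : ℕ) (hi : i ≤ tlev N c x) :
    okT N e c s ((tpar N e c s)^[i] x) ∧ tlev N c ((tpar N e c s)^[i] x) + i = tlev N c x ∧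
      pc ((tpar N e c s)^[i] x) = pc x := by
  induction i with
  | zero => exact ⟨hx, rfl, rfl⟩
  | succ i ih =>
    obtain ⟨h1, h2, h3⟩ := ih (by omega)
    rw [Function.iterate_succ_apply']
    obtain ⟨h4, h5, h6⟩ := hT.ok N e c s hp hc hs _ h1 (by omega)
    exact ⟨h4, by omega, h6.trans h3⟩

/-- the connecting caps and paths exist -/
private theorem okpth (hp : Par N e) (u : V) (b : Bool) (hu : s.rp u = u) :
    okT N e c s (.pth b u 1 : TH V Q (Kd N Λ B FB)) := by
  obtain ⟨h1, h2⟩ := hp
  exact ⟨hu, le_rfl, by omega⟩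

private theorem pc_rp (x : TH V Q (Kd N Λ B FB)) (hx : okT N e c s x) (b : Bool) (u : V)
    (h : pc x = some (b, u)) : s.rp u = u := by
  cases x with
  | nat b' u' h' =>
    simp only [pc, Option.some.injEq, Prod.mk.injEq] at h
    obtain ⟨rfl, rfl⟩ := h
    exact hx.1
  | cap b' u' h' =>
    simp only [pc, Option.some.injEq, Prod.mk.injEq] at h
    obtain ⟨rfl, rfl⟩ := h
    exact hx.1
  | pth _ _ _ => simp [pc] at h
  | rt => simp [pc] at h

/-- **Module Tpos.** -/
theorem pTpos (hT : StTok) (hD : StTdist) : StTpos := by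
  intro V Q Λ B FB N e c s hp hc hs x y z b u p q hx hy hyl
  have hxp : pc x.1 = some (b, u) := by rw [hx]; rfl
  have hu : s.rp u = u := pc_rp x.1 x.2 b u hxp
  let a : TV N e c s := ⟨.cap b u (cc N s b u), hT.okc N e c s hp hc hs b u hu⟩
  let a' : TV N e c s := ⟨.pth b u 1, okpth hp u b hu⟩
  have hzz : pc z.1 = some (b, u) → (TG N e c s).edist x z = ((tlev N c z.1 : ℕ) : ℕ∞) := fun h =>
    hD.root N e c s hp hc hs x z b u hx h
  have hyy := hD.root N e c s hp hc hs x y b u hx hy
  constructor
  · rintro ⟨h1, h2⟩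
    have hz : pc z.1 = some (b, u) := by
      by_contra hz
      have e1 := hD.out N e c s hp hc hs x z a a' b u hxp hz rfl rfl
      have e2 := hD.out N e c s hp hc hs y z a a' b u hy hz rfl rfl
      have e3 : (TG N e c s).edist x y ≤ (TG N e c s).edist x a + (TG N e c s).edist a y :=
        (TG N e c s).edist_triangle
      rw [hyy, hyl] at e3
      rw [h1] at e1
      rw [SimpleGraph.edist_comm, h2] at e2
      have e4 : (TG N e c s).edist a y = (TG N e c s).edist y a := SimpleGraph.edist_comm
      rw [e4] at e3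
      have hf1 : (TG N e c s).edist x a ≤ (p : ℕ∞) := by
        rw [e1, add_assoc]; exact le_self_add
      have hf2 : (TG N e c s).edist y a ≤ (q : ℕ∞) := by
        rw [e2, add_assoc]; exact le_self_add
      obtain ⟨m1, hm1, -⟩ := ENat.le_natCast_iff.1 hf1
      obtain ⟨m2, hm2, -⟩ := ENat.le_natCast_iff.1 hf2
      rw [hm1, hm2] at e3
      rw [hm1] at e1
      rw [hm2] at e2
      have hf3 : (TG N e c s).edist a' z ≤ (p : ℕ∞) := by
        rw [e1]; exact le_add_self
      obtain ⟨m3, hm3, -⟩ := ENat.le_natCast_iff.1 hf3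
      rw [hm3] at e1 e2
      have e1' : p = m1 + 1 + m3 := by exact_mod_cast e1
      have e2' : q = m2 + 1 + m3 := by exact_mod_cast e2
      have e3' : p + q ≤ m1 + m2 := by exact_mod_cast e3
      omega
    have h3 : tlev N c z.1 = p := by
      have := hzz hz
      rw [h1] at this
      exact_mod_cast this.symm
    obtain ⟨i, j, hi, hj, hij, he⟩ := (hD.inn N e c s hp hc hs z y (hz.trans hy.symm) q).1
      (by rw [h2])
    have hi' := (iter hT hp hc hs z.1 z.2 i hi).2.1
    have hj' := (iter hT hp hc hs y.1 y.2 j hj).2.1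
    rw [he] at hi'
    have hi0 : i = 0 := by omega
    have hjq : j = q := by omega
    subst hi0 hjq
    exact he
  · intro hz
    obtain ⟨h1, h2, h3⟩ := iter hT hp hc hs y.1 y.2 q (by omega)
    rw [← hz] at h1 h2 h3
    have hzp : pc z.1 = some (b, u) := h3.trans hy
    refine ⟨?_, ?_⟩
    · rw [hzz hzp]
      have : tlev N c z.1 = p := by omega
      rw [this]
    · apply le_antisymm
      · exact (hD.inn N e c s hp hc hs z y (hzp.trans hy.symm) q).2
          ⟨0, q, by omega, by omega, by omega, hz⟩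
      · by_contra hlt
        rw [not_le] at hlt
        obtain ⟨m, hm, -⟩ := ENat.le_natCast_iff.1 hlt.le
        rw [hm] at hlt
        have hmq : m < q := by exact_mod_cast hlt
        obtain ⟨i, j, hi, hj, hij, he⟩ := (hD.inn N e c s hp hc hs z y (hzp.trans hy.symm) m).1
          (by rw [hm])
        have hi' := (iter hT hp hc hs z.1 z.2 i hi).2.1
        have hj' := (iter hT hp hc hs y.1 y.2 j hj).2.1
        rw [he] at hi'
        omega

/-! ### the tree -/

/-- projection to the part of `o` -/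
private def prj {K : Type} (N : ℕ) (s : Ch V Q) [DecidableEq V] (o : Option (Bool × V))
    (y : TH V Q K) : TH V Q K :=
  if pc y = o then y else
    match o with
    | some (b, u) => .cap b u (cc N s b u)
    | none => match pc y with
      | some (b, u) => .pth b u 1
      | none => y

private theorem prj_same {K : Type} [DecidableEq V] (o : Option (Bool × V)) (y : TH V Q K)
    (h : pc y = o) : prj N s o y = y := by
  unfold prj
  rw [if_pos h]

private theorem prj_pc {K : Type} [DecidableEq V] (o : Option (Bool × V)) (y y' : TH V Q K)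
    (h : pc y ≠ o) (h' : pc y' = pc y) : prj N s o y = prj N s o y' := by
  unfold prj
  rw [if_neg h, if_neg (by rw [h']; exact h)]
  cases o with
  | some p => rfl
  | none =>
    simp only
    rw [h']
    cases hy : pc y with
    | none => exact absurd hy h
    | some p => rfl

private theorem prj_bdg {K : Type} [DecidableEq V] (o : Option (Bool × V)) (y y' : TH V Q K)
    (h : Bdg N s y y') : prj N s o y = prj N s o y' := by
  obtain ⟨b, u, rfl, rfl⟩ := h
  unfold prj
  have h1 : pc (.cap b u (cc N s b u) : TH V Q K) = some (b, u) := rfl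
  have h2 : pc (.pth b u 1 : TH V Q K) = none := rfl
  rw [h1, h2]
  cases o with
  | none => simp
  | some p =>
    obtain ⟨b', u'⟩ := p
    by_cases hh : some (b, u) = some (b', u')
    · rw [if_pos hh]
      simp only [Option.some.injEq, Prod.mk.injEq] at hh
      obtain ⟨rfl, rfl⟩ := hh
      simp
    · rw [if_neg hh]
      simp

/-- non-reachability from a closed set -/
private theorem not_reach {X : Type} (G : SimpleGraph X) (S : Set X)
    (h : ∀ x y, G.Adj x y → x ∈ S → y ∈ S) (x y : X) (hx : x ∈ S) (hy : y ∉ S) :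
    ¬ G.Reachable x y := by
  rintro ⟨p⟩
  induction p with
  | nil => exact hy hx
  | cons huv p ih => exact ih (h _ _ huv hx) hy

/-- **Module Ttree.** -/
theorem pTtree (hT : StTok) : StTtree := by
  classical
  intro V Q Λ B FB N e c s hp hc hs
  have hAdj := hT.adj N e c s hp hc hs
  have hiter := fun (x : TV N e c s) => iter hT hp hc hs x.1 x.2
  let rt : TV N e c s := ⟨.rt, trivial⟩
  -- the level zero ancestor
  have hanc : ∀ (n : ℕ) (x : TV N e c s), tlev N c x.1 = n → ∃ z : TV N e c s,
      (TG N e c s).Reachable x z ∧ tlev N c z.1 = 0 ∧ pc z.1 = pc x.1 := by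
    intro n
    induction n with
    | zero => intro x hx; exact ⟨x, SimpleGraph.Reachable.refl _, hx, rfl⟩
    | succ n ih =>
      intro x hx
      obtain ⟨h1, h2, h3⟩ := hT.ok N e c s hp hc hs x.1 x.2 (by omega)
      let x' : TV N e c s := ⟨tpar N e c s x.1, h1⟩
      have hx' : tlev N c x'.1 = n := by show tlev N c (tpar N e c s x.1) = n; omega
      obtain ⟨z, hz1, hz2, hz3⟩ := ih x' hx'
      have hadj : (TG N e c s).Adj x x' := (hAdj x x').2 (Or.inl ⟨by omega, rfl⟩)
      exact ⟨z, hadj.reachable.trans hz1, hz2, hz3.trans h3⟩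
  have hroot : ∀ z : TV N e c s, tlev N c z.1 = 0 → pc z.1 = none → z = rt := by
    intro z hz hz'
    rcases hT.zero N e c s hp hc hs z.1 z.2 hz with h | ⟨b, u, _, h⟩
    · exact Subtype.ext h
    · rw [h] at hz'; simp [pc] at hz'
  have hroot' : ∀ (z : TV N e c s) (b : Bool) (u : V), tlev N c z.1 = 0 →
      pc z.1 = some (b, u) → z.1 = .nat b u (.core u) := by
    intro z b u hz hz'
    rcases hT.zero N e c s hp hc hs z.1 z.2 hz with h | ⟨b', u', _, h⟩
    · rw [h] at hz'; simp [pc] at hz'
    · rw [h] at hz'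
      simp only [pc, Option.some.injEq, Prod.mk.injEq] at hz'
      obtain ⟨rfl, rfl⟩ := hz'
      exact h
  have hcon : ∀ x : TV N e c s, (TG N e c s).Reachable x rt := by
    intro x
    cases hx : pc x.1 with
    | none =>
      obtain ⟨z, hz1, hz2, hz3⟩ := hanc _ x rfl
      rw [← hroot z hz2 (hz3.trans hx)]
      exact hz1
    | some p =>
      obtain ⟨b, u⟩ := p
      have hu : s.rp u = u := pc_rp x.1 x.2 b u hx
      let a : TV N e c s := ⟨.cap b u (cc N s b u), hT.okc N e c s hp hc hs b u hu⟩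
      let a' : TV N e c s := ⟨.pth b u 1, okpth hp u b hu⟩
      obtain ⟨z, hz1, hz2, hz3⟩ := hanc _ x rfl
      obtain ⟨w, hw1, hw2, hw3⟩ := hanc _ a rfl
      obtain ⟨v, hv1, hv2, hv3⟩ := hanc _ a' rfl
      have hv : v = rt := hroot v hv2 hv3
      rw [hv] at hv1
      have hzw : z = w := Subtype.ext
        ((hroot' z b u hz2 (hz3.trans hx)).trans (hroot' w b u hw2 hw3).symm)
      rw [← hzw] at hw1
      have haa : (TG N e c s).Adj a a' :=
        (hAdj a a').2 (Or.inr (Or.inr (Or.inl ⟨b, u, rfl, rfl⟩)))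
      exact hz1.trans (hw1.symm.trans (haa.reachable.trans hv1))
  have : Nonempty (TV N e c s) := ⟨rt⟩
  refine ⟨⟨fun x y => (hcon x).trans (hcon y).symm⟩, ?_⟩
  rw [SimpleGraph.isAcyclic_iff_forall_adj_isBridge]
  -- the cut for a parent edge
  have hpar : ∀ x y : TV N e c s, tlev N c x.1 ≠ 0 → y.1 = tpar N e c s x.1 →
      ¬ ((TG N e c s).deleteEdges {s(x, y)}).Reachable x y := by
    intro x y hx hy
    let S : Set (TV N e c s) := {z | ∃ i ≤ tlev N c (prj N s (pc x.1) z.1),
      (tpar N e c s)^[i] (prj N s (pc x.1) z.1) = x.1}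
    have hxS : x ∈ S := by
      refine ⟨0, Nat.zero_le _, ?_⟩
      show prj N s (pc x.1) x.1 = x.1
      exact prj_same _ _ rfl
    have hyp : pc y.1 = pc x.1 := by
      rw [hy]; exact (hT.ok N e c s hp hc hs x.1 x.2 hx).2.2
    have hyl : tlev N c y.1 + 1 = tlev N c x.1 := by
      rw [hy]; exact (hT.ok N e c s hp hc hs x.1 x.2 hx).2.1
    have hyS : y ∉ S := by
      rintro ⟨i, hi, h⟩
      rw [prj_same _ _ hyp] at hi h
      have := (hiter y i hi).2.1
      rw [h] at this
      omega
    refine not_reach _ S ?_ x y hxS hyS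
    have key : ∀ z w : TV N e c s, tlev N c z.1 ≠ 0 → w.1 = tpar N e c s z.1 → z ≠ x →
        (z ∈ S ↔ w ∈ S) := by
      intro z w hz hw hzx
      have hwp : pc w.1 = pc z.1 := by
        rw [hw]; exact (hT.ok N e c s hp hc hs z.1 z.2 hz).2.2
      have hwl : tlev N c w.1 + 1 = tlev N c z.1 := by
        rw [hw]; exact (hT.ok N e c s hp hc hs z.1 z.2 hz).2.1
      by_cases hzp : pc z.1 = pc x.1
      · show (∃ i ≤ tlev N c (prj N s (pc x.1) z.1),
          (tpar N e c s)^[i] (prj N s (pc x.1) z.1) = x.1) ↔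
          ∃ i ≤ tlev N c (prj N s (pc x.1) w.1), (tpar N e c s)^[i] (prj N s (pc x.1) w.1) = x.1
        rw [prj_same _ _ hzp, prj_same _ _ (hwp.trans hzp)]
        constructor
        · rintro ⟨i, hi, h⟩
          cases i with
          | zero => exact absurd (Subtype.ext h) hzx
          | succ i =>
            refine ⟨i, by omega, ?_⟩
            rw [hw]
            exact h
        · rintro ⟨i, hi, h⟩
          refine ⟨i + 1, by omega, ?_⟩
          rw [hw] at h
          exact h
      · show (∃ i ≤ tlev N c (prj N s (pc x.1) z.1),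
          (tpar N e c s)^[i] (prj N s (pc x.1) z.1) = x.1) ↔
          ∃ i ≤ tlev N c (prj N s (pc x.1) w.1), (tpar N e c s)^[i] (prj N s (pc x.1) w.1) = x.1
        rw [prj_pc _ _ _ hzp hwp]
    have keyb : ∀ z w : TV N e c s, Bdg N s z.1 w.1 → (z ∈ S ↔ w ∈ S) := by
      intro z w h
      show (∃ i ≤ tlev N c (prj N s (pc x.1) z.1),
          (tpar N e c s)^[i] (prj N s (pc x.1) z.1) = x.1) ↔
          ∃ i ≤ tlev N c (prj N s (pc x.1) w.1), (tpar N e c s)^[i] (prj N s (pc x.1) w.1) = x.1
      rw [prj_bdg _ _ _ h]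
    intro z w hzw hzS
    rw [SimpleGraph.deleteEdges_adj] at hzw
    obtain ⟨hzw, hne⟩ := hzw
    have hne' : s(z, w) ≠ s(x, y) := hne
    rcases (hAdj z w).1 hzw with ⟨h1, h2⟩ | ⟨h1, h2⟩ | h1 | h1
    · have hzx : z ≠ x := by
        rintro rfl
        apply hne'
        have : w = y := Subtype.ext (h2.trans hy.symm)
        rw [this]
      exact (key z w h1 h2 hzx).1 hzS
    · have hwx : w ≠ x := by
        rintro rfl
        apply hne'
        have : z = y := Subtype.ext (h2.trans hy.symm)
        rw [this, Sym2.eq_swap]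
      exact (key w z h1 h2 hwx).2 hzS
    · exact (keyb z w h1).1 hzS
    · exact (keyb w z h1).2 hzS
  have hbd : ∀ x y : TV N e c s, Bdg N s x.1 y.1 →
      ¬ ((TG N e c s).deleteEdges {s(x, y)}).Reachable x y := by
    rintro x y ⟨b, u, hx, hy⟩
    let S : Set (TV N e c s) := {z | pc z.1 = some (b, u)}
    have hxS : x ∈ S := by show pc x.1 = _; rw [hx]; rfl
    have hyS : y ∉ S := by
      show ¬ (pc y.1 = some (b, u))
      rw [hy]; simp [pc]
    refine not_reach _ S ?_ x y hxS hyS
    intro z w hzw hzS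
    rw [SimpleGraph.deleteEdges_adj] at hzw
    obtain ⟨hzw, hne⟩ := hzw
    have hne' : s(z, w) ≠ s(x, y) := hne
    rcases (hAdj z w).1 hzw with ⟨h1, h2⟩ | ⟨h1, h2⟩ | h1 | h1
    · show pc w.1 = some (b, u)
      rw [h2, (hT.ok N e c s hp hc hs z.1 z.2 h1).2.2]
      exact hzS
    · show pc w.1 = some (b, u)
      have h3 : pc z.1 = pc w.1 := by
        rw [h2, (hT.ok N e c s hp hc hs w.1 w.2 h1).2.2]
      rw [← h3]
      exact hzS
    · exfalso
      obtain ⟨b', u', h3, h4⟩ := h1
      have h5 : pc z.1 = some (b, u) := hzS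
      rw [h3] at h5
      simp only [pc, Option.some.injEq, Prod.mk.injEq] at h5
      obtain ⟨rfl, rfl⟩ := h5
      apply hne'
      have e1 : z = x := Subtype.ext (h3.trans hx.symm)
      have e2 : w = y := Subtype.ext (h4.trans hy.symm)
      rw [e1, e2]
    · exfalso
      obtain ⟨b', u', h3, h4⟩ := h1
      have h5 : pc z.1 = some (b, u) := hzS
      rw [h4] at h5
      simp [pc] at h5
  intro x y hxy
  rw [SimpleGraph.isBridge_iff]
  rcases (hAdj x y).1 hxy with ⟨h1, h2⟩ | ⟨h1, h2⟩ | h1 | h1
  · exact hpar x y h1 h2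
  · have := hpar y x h1 h2
    rw [Sym2.eq_swap]
    exact fun h => this h.symm
  · exact hbd x y h1
  · have := hbd y x h1
    rw [Sym2.eq_swap]
    exact fun h => this h.symm

end Pool.Agent.Helper84.LD
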