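import Pool.Agent.Helper84.LD.Prims

set_option autoImplicit false

/-!
# The Ehrenfeucht–Fraïssé game: the relation of the frozen statement, the recursive form,
certificates
-/

namespace Pool.Agent.Helper84.LD

variable {V W V' W' : Type*}

/-- `k`-round equivalence, in the form of the frozen statement -/
def EF (T : SimpleGraph V) (H : SimpleGraph W) (k : ℕ) : Prop :=
  ∃ R : (j : ℕ) → (Fin j → V) → (Fin j → W) → Prop,
    R 0 Fin.elim0 Fin.elim0 ∧
    (∀ j ≤ k, ∀ (a : Fin j → V) (b : Fin j → W), R j a b →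
      ∀ i i' : Fin j, (a i = a i' ↔ b i = b i') ∧
        (T.Adj (a i) (a i') ↔ H.Adj (b i) (b i'))) ∧
    (∀ j < k, ∀ (a : Fin j → V) (b : Fin j → W), R j a b →
      (∀ v : V, ∃ w : W,
        R (j + 1) (Fin.snoc (α := fun _ => V) a v) (Fin.snoc (α := fun _ => W) b w)) ∧
      (∀ w : W, ∃ v : V,
        R (j + 1) (Fin.snoc (α := fun _ => V) a v) (Fin.snoc (α := fun _ => W) b w)))

/-- partial isomorphism -/
def PIso (T : SimpleGraph V) (H : SimpleGraph W) (s : List (V × W)) : Prop :=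
  ∀ x ∈ s, ∀ y ∈ s, (x.1 = y.1 ↔ x.2 = y.2) ∧ (T.Adj x.1 y.1 ↔ H.Adj x.2 y.2)

/-- Duplicator wins the game with `k` more rounds from the position `s`. -/
def Win (T : SimpleGraph V) (H : SimpleGraph W) : ℕ → List (V × W) → Prop
  | 0, s => PIso T H s
  | k + 1, s => PIso T H s ∧ (∀ v, ∃ w, Win T H k ((v, w) :: s)) ∧
      (∀ w, ∃ v, Win T H k ((v, w) :: s))

theorem Win.pIso {T : SimpleGraph V} {H : SimpleGraph W} {k : ℕ} {s : List (V × W)}
    (h : Win T H k s) : PIso T H s := by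
  cases k with
  | zero => exact h
  | succ k => exact h.1

/-- the position of two tuples -/
def pos {j : ℕ} (a : Fin j → V) (b : Fin j → W) : List (V × W) :=
  (List.ofFn fun i => (a i, b i)).reverse

theorem mem_pos {j : ℕ} {a : Fin j → V} {b : Fin j → W} {x : V × W} :
    x ∈ pos a b ↔ ∃ i, (a i, b i) = x := by
  simp [pos, List.mem_ofFn]

theorem pos_snoc {j : ℕ} (a : Fin j → V) (b : Fin j → W) (v : V) (w : W) :
    pos (Fin.snoc (α := fun _ => V) a v) (Fin.snoc (α := fun _ => W) b w) =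
      (v, w) :: pos a b := by
  unfold pos
  rw [List.ofFn_succ']
  simp only [Fin.snoc_castSucc, Fin.snoc_last, List.concat_eq_append, List.reverse_append,
    List.reverse_cons, List.reverse_nil, List.nil_append, List.cons_append]

theorem EF_iff_win (T : SimpleGraph V) (H : SimpleGraph W) (k : ℕ) :
    EF T H k ↔ Win T H k [] := by
  constructor
  · rintro ⟨R, h0, h1, h2⟩
    have key : ∀ (k' j : ℕ), j + k' = k → ∀ (a : Fin j → V) (b : Fin j → W), R j a b →
        Win T H k' (pos a b) := by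
      intro k'
      induction k' with
      | zero =>
        intro j hj a b hR x hx y hy
        obtain ⟨i, rfl⟩ := mem_pos.1 hx
        obtain ⟨i', rfl⟩ := mem_pos.1 hy
        exact h1 j (by omega) a b hR i i'
      | succ k' ih =>
        intro j hj a b hR
        refine ⟨?_, ?_, ?_⟩
        · intro x hx y hy
          obtain ⟨i, rfl⟩ := mem_pos.1 hx
          obtain ⟨i', rfl⟩ := mem_pos.1 hy
          exact h1 j (by omega) a b hR i i'
        · intro v
          obtain ⟨w, hw⟩ := (h2 j (by omega) a b hR).1 v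
          refine ⟨w, ?_⟩
          rw [← pos_snoc]
          exact ih (j + 1) (by omega) _ _ hw
        · intro w
          obtain ⟨v, hv⟩ := (h2 j (by omega) a b hR).2 w
          refine ⟨v, ?_⟩
          rw [← pos_snoc]
          exact ih (j + 1) (by omega) _ _ hv
    have := key k 0 (by omega) _ _ h0
    simpa [pos] using this
  · intro h
    refine ⟨fun j a b => Win T H (k - j) (pos a b), ?_, ?_, ?_⟩
    · simpa [pos] using h
    · intro j hj a b hR i i'
      exact hR.pIso _ (mem_pos.2 ⟨i, rfl⟩) _ (mem_pos.2 ⟨i', rfl⟩)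
    · intro j hj a b hR
      obtain ⟨d, hd⟩ : ∃ d, k - j = d + 1 := ⟨k - j - 1, by omega⟩
      have hd' : k - (j + 1) = d := by omega
      simp only [hd'] 
      rw [hd] at hR
      refine ⟨fun v => ?_, fun w => ?_⟩
      · obtain ⟨w, hw⟩ := hR.2.1 v
        exact ⟨w, by rw [pos_snoc]; exact hw⟩
      · obtain ⟨v, hv⟩ := hR.2.2 w
        exact ⟨v, by rw [pos_snoc]; exact hv⟩

/-! ### invariance under isomorphism -/

theorem win_iso {T : SimpleGraph V} {T' : SimpleGraph V'} {H : SimpleGraph W}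
    {H' : SimpleGraph W'} (e : T' ≃g T) (d : H' ≃g H) {k : ℕ} {s : List (V' × W')} :
    Win T H k (s.map fun x => (e x.1, d x.2)) ↔ Win T' H' k s := by
  have hp : ∀ s : List (V' × W'), PIso T H (s.map fun x => (e x.1, d x.2)) ↔ PIso T' H' s := by
    intro s
    constructor
    · intro h x hx y hy
      have := h _ (List.mem_map.2 ⟨x, hx, rfl⟩) _ (List.mem_map.2 ⟨y, hy, rfl⟩)
      simp only [EmbeddingLike.apply_eq_iff_eq, SimpleGraph.Iso.map_adj_iff] at this
      exact this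
    · intro h x' hx' y' hy'
      obtain ⟨x, hx, rfl⟩ := List.mem_map.1 hx'
      obtain ⟨y, hy, rfl⟩ := List.mem_map.1 hy'
      simp only [EmbeddingLike.apply_eq_iff_eq, SimpleGraph.Iso.map_adj_iff]
      exact h x hx y hy
  induction k generalizing s with
  | zero => exact hp s
  | succ k ih =>
    constructor
    · rintro ⟨h0, h1, h2⟩
      refine ⟨(hp s).1 h0, fun v => ?_, fun w => ?_⟩
      · obtain ⟨w, hw⟩ := h1 (e v)
        refine ⟨d.symm w, ih.1 ?_⟩
        simpa using hw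
      · obtain ⟨v, hv⟩ := h2 (d w)
        refine ⟨e.symm v, ih.1 ?_⟩
        simpa using hv
    · rintro ⟨h0, h1, h2⟩
      refine ⟨(hp s).2 h0, fun v => ?_, fun w => ?_⟩
      · obtain ⟨w, hw⟩ := h1 (e.symm v)
        refine ⟨d w, ?_⟩
        have := ih.2 hw
        simpa using this
      · obtain ⟨v, hv⟩ := h2 (d.symm w)
        refine ⟨e v, ?_⟩
        have := ih.2 hv
        simpa using this

theorem win_iso_nil {T : SimpleGraph V} {T' : SimpleGraph V'} {H : SimpleGraph W}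
    {H' : SimpleGraph W'} (e : T' ≃g T) (d : H' ≃g H) {k : ℕ} :
    Win T H k [] ↔ Win T' H' k [] := by
  have := win_iso e d (k := k) (s := [])
  simpa using this

theorem win_mono {T : SimpleGraph V} {H : SimpleGraph W} {k k' : ℕ} (hk : k ≤ k')
    {s : List (V × W)} (h : Win T H k' s) : Win T H k s := by
  induction k generalizing k' s with
  | zero => exact h.pIso
  | succ k ih =>
    obtain ⟨d, rfl⟩ : ∃ d, k' = d + 1 := ⟨k' - 1, by omega⟩
    refine ⟨h.1, fun v => ?_, fun w => ?_⟩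
    · obtain ⟨w, hw⟩ := h.2.1 v
      exact ⟨w, ih (by omega) hw⟩
    · obtain ⟨v, hv⟩ := h.2.2 w
      exact ⟨v, ih (by omega) hv⟩

/-! ### certificates -/

/-- certificate for a win of Duplicator -/
def Chk (n m k : ℕ) (l l' : List (ℕ × ℕ)) (c : List (List (ℕ × ℕ))) : Prop :=
  [] ∈ c ∧ ∀ s ∈ c, (∀ x ∈ s, ∀ y ∈ s, (x.1 = y.1 ↔ x.2 = y.2) ∧
      (adjL l x.1 y.1 ↔ adjL l' x.2 y.2)) ∧
    (s.length < k → (∀ v < n, ∃ w < m, (v, w) :: s ∈ c) ∧ (∀ w < m, ∃ v < n, (v, w) :: s ∈ c))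

theorem win_of_chk {n m k : ℕ} {l l' : List (ℕ × ℕ)} {c : List (List (ℕ × ℕ))}
    (h : Chk n m k l l' c) : Win (gr n l) (gr m l') k [] := by
  have key : ∀ (k' : ℕ) (s : List (Fin n × Fin m)), s.length + k' = k →
      (s.map fun x => ((x.1 : ℕ), (x.2 : ℕ))) ∈ c → Win (gr n l) (gr m l') k' s := by
    intro k'
    induction k' with
    | zero =>
      intro s _ hs x hx y hy
      have := (h.2 _ hs).1 _ (List.mem_map.2 ⟨x, hx, rfl⟩) _ (List.mem_map.2 ⟨y, hy, rfl⟩)
      refine ⟨?_, this.2⟩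
      rw [Fin.ext_iff, Fin.ext_iff]
      exact this.1
    | succ k' ih =>
      intro s hl hs
      have hh := h.2 _ hs
      refine ⟨?_, ?_, ?_⟩
      · intro x hx y hy
        have := hh.1 _ (List.mem_map.2 ⟨x, hx, rfl⟩) _ (List.mem_map.2 ⟨y, hy, rfl⟩)
        refine ⟨?_, this.2⟩
        rw [Fin.ext_iff, Fin.ext_iff]
        exact this.1
      · intro v
        obtain ⟨w, hw, hc⟩ := (hh.2 (by rw [List.length_map]; omega)).1 v v.2
        exact ⟨⟨w, hw⟩, ih _ (by rw [List.length_cons]; omega) hc⟩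
      · intro w
        obtain ⟨v, hv, hc⟩ := (hh.2 (by rw [List.length_map]; omega)).2 w w.2
        exact ⟨⟨v, hv⟩, ih _ (by rw [List.length_cons]; omega) hc⟩
  exact key k [] (by simp) h.1

theorem chk_of_win {n m k : ℕ} {l l' : List (ℕ × ℕ)} (h : Win (gr n l) (gr m l') k []) :
    ∃ c, Chk n m k l l' c := by
  classical
  have hfin : {s : List (Fin n × Fin m) | s.length ≤ k ∧
      Win (gr n l) (gr m l') (k - s.length) s}.Finite :=
    (List.finite_length_le (Fin n × Fin m) k).subset fun s hs => hs.1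
  let f : List (Fin n × Fin m) → List (ℕ × ℕ) := fun s => s.map fun x => ((x.1 : ℕ), (x.2 : ℕ))
  refine ⟨hfin.toFinset.toList.map f, ?_, ?_⟩
  · rw [List.mem_map]
    refine ⟨[], ?_, rfl⟩
    rw [Finset.mem_toList, Set.Finite.mem_toFinset]
    exact ⟨by simp, by simpa using h⟩
  · intro s' hs'
    obtain ⟨s, hs, rfl⟩ := List.mem_map.1 hs'
    rw [Finset.mem_toList, Set.Finite.mem_toFinset] at hs
    obtain ⟨hl, hw⟩ := hs
    refine ⟨?_, ?_⟩
    · intro x' hx' y' hy'
      obtain ⟨x, hx, rfl⟩ := List.mem_map.1 hx'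
      obtain ⟨y, hy, rfl⟩ := List.mem_map.1 hy'
      have := hw.pIso x hx y hy
      refine ⟨?_, this.2⟩
      have h1 := this.1
      rw [Fin.ext_iff, Fin.ext_iff] at h1
      exact h1
    · intro hlt
      have hlt' : s.length < k := by simpa [f] using hlt
      obtain ⟨d, hd⟩ : ∃ d, k - s.length = d + 1 := ⟨k - s.length - 1, by omega⟩
      rw [hd] at hw
      refine ⟨fun v hv => ?_, fun w hw' => ?_⟩
      · obtain ⟨w, hw1⟩ := hw.2.1 ⟨v, hv⟩
        refine ⟨w, w.2, ?_⟩
        rw [List.mem_map]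
        refine ⟨(⟨v, hv⟩, w) :: s, ?_, rfl⟩
        rw [Finset.mem_toList, Set.Finite.mem_toFinset]
        refine ⟨by rw [List.length_cons]; omega, ?_⟩
        have : k - ((⟨v, hv⟩, w) :: s).length = d := by rw [List.length_cons]; omega
        rw [this]
        exact hw1
      · obtain ⟨v, hv1⟩ := hw.2.2 ⟨w, hw'⟩
        refine ⟨v, v.2, ?_⟩
        rw [List.mem_map]
        refine ⟨(v, ⟨w, hw'⟩) :: s, ?_, rfl⟩
        rw [Finset.mem_toList, Set.Finite.mem_toFinset]
        refine ⟨by rw [List.length_cons]; omega, ?_⟩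
        have : k - ((v, ⟨w, hw'⟩) :: s).length = d := by rw [List.length_cons]; omega
        rw [this]
        exact hv1

/-- the data `(n, m, k), (l, l', c)` of a certificate -/
abbrev CData : Type := (ℕ × ℕ × ℕ) × (List (ℕ × ℕ) × List (ℕ × ℕ) × List (List (ℕ × ℕ)))

theorem primrec_chk : PrimrecPred fun x : CData =>
    Chk x.1.1 x.1.2.1 x.1.2.2 x.2.1 x.2.2.1 x.2.2.2 := by
  have hn : Primrec fun x : CData => x.1.1 := Primrec.fst.comp Primrec.fst
  have hm : Primrec fun x : CData => x.1.2.1 := Primrec.fst.comp (Primrec.snd.comp Primrec.fst)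
  have hk : Primrec fun x : CData => x.1.2.2 := Primrec.snd.comp (Primrec.snd.comp Primrec.fst)
  have hl : Primrec fun x : CData => x.2.1 := Primrec.fst.comp Primrec.snd
  have hl' : Primrec fun x : CData => x.2.2.1 := Primrec.fst.comp (Primrec.snd.comp Primrec.snd)
  have hc : Primrec fun x : CData => x.2.2.2 := Primrec.snd.comp (Primrec.snd.comp Primrec.snd)
  refine (pp_mem (Primrec.const []) hc).and (ctx_forall_mem hc ?_)
  refine PrimrecPred.and ?_ (pp_imp ?_ (PrimrecPred.and ?_ ?_))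
  · -- context `x : CData × List (ℕ × ℕ)`
    refine ctx_forall_mem (σ := CData × List (ℕ × ℕ)) Primrec.snd
      (P := fun z x => ∀ y ∈ z.2, (x.1 = y.1 ↔ x.2 = y.2) ∧
        (adjL z.1.2.1 x.1 y.1 ↔ adjL z.1.2.2.1 x.2 y.2)) ?_
    refine ctx_forall_mem (σ := (CData × List (ℕ × ℕ)) × (ℕ × ℕ))
      (L := fun z => z.1.2) (Primrec.snd.comp Primrec.fst)
      (P := fun z y => (z.2.1 = y.1 ↔ z.2.2 = y.2) ∧
        (adjL z.1.1.2.1 z.2.1 y.1 ↔ adjL z.1.1.2.2.1 z.2.2 y.2)) ?_
    -- context `(((x, s), a), b)`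
    have ha : Primrec fun z : ((CData × List (ℕ × ℕ)) × (ℕ × ℕ)) × (ℕ × ℕ) => z.1.2 :=
      Primrec.snd.comp Primrec.fst
    have hb : Primrec fun z : ((CData × List (ℕ × ℕ)) × (ℕ × ℕ)) × (ℕ × ℕ) => z.2 := Primrec.snd
    have hx : Primrec fun z : ((CData × List (ℕ × ℕ)) × (ℕ × ℕ)) × (ℕ × ℕ) => z.1.1.1 :=
      Primrec.fst.comp (Primrec.fst.comp Primrec.fst)
    refine (pp_iff (pp_eq (Primrec.fst.comp ha) (Primrec.fst.comp hb))
      (pp_eq (Primrec.snd.comp ha) (Primrec.snd.comp hb))).and (pp_iff ?_ ?_)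
    · exact pp_adjL (hl.comp hx) (Primrec.fst.comp ha) (Primrec.fst.comp hb)
    · exact pp_adjL (hl'.comp hx) (Primrec.snd.comp ha) (Primrec.snd.comp hb)
  · exact Primrec.nat_lt.comp (Primrec.list_length.comp Primrec.snd) (hk.comp Primrec.fst)
  · refine ctx_forall_lt (σ := CData × List (ℕ × ℕ)) (f := fun z => z.1.1.1) (hn.comp Primrec.fst)
      (P := fun z v => ∃ w < z.1.1.2.1, (v, w) :: z.2 ∈ z.1.2.2.2) ?_
    refine ctx_exists_lt (σ := (CData × List (ℕ × ℕ)) × ℕ) (f := fun z => z.1.1.1.2.1)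
      (hm.comp (Primrec.fst.comp Primrec.fst))
      (P := fun z w => (z.2, w) :: z.1.2 ∈ z.1.1.2.2.2) ?_
    refine pp_mem (Primrec.list_cons.comp (Primrec.pair (Primrec.snd.comp Primrec.fst) Primrec.snd)
      (Primrec.snd.comp (Primrec.fst.comp Primrec.fst))) ?_
    exact hc.comp (Primrec.fst.comp (Primrec.fst.comp Primrec.fst))
  · refine ctx_forall_lt (σ := CData × List (ℕ × ℕ)) (f := fun z => z.1.1.2.1) (hm.comp Primrec.fst)
      (P := fun z w => ∃ v < z.1.1.1, (v, w) :: z.2 ∈ z.1.2.2.2) ?_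
    refine ctx_exists_lt (σ := (CData × List (ℕ × ℕ)) × ℕ) (f := fun z => z.1.1.1.1)
      (hn.comp (Primrec.fst.comp Primrec.fst))
      (P := fun z v => (v, z.2) :: z.1.2 ∈ z.1.1.2.2.2) ?_
    refine pp_mem (Primrec.list_cons.comp (Primrec.pair Primrec.snd (Primrec.snd.comp Primrec.fst))
      (Primrec.snd.comp (Primrec.fst.comp Primrec.fst))) ?_
    exact hc.comp (Primrec.fst.comp (Primrec.fst.comp Primrec.fst))

/-! ### non-isomorphism -/

/-- finitary form of non-isomorphism -/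
def NonIso (n m : ℕ) (l l' : List (ℕ × ℕ)) : Prop :=
  n ≠ m ∨ ∀ π ∈ FL m n, ¬ ∀ i < n, ∀ j < n,
    (π.getD i 0 = π.getD j 0 → i = j) ∧ (adjL l i j ↔ adjL l' (π.getD i 0) (π.getD j 0))

theorem nonIso_iff (n m : ℕ) (l l' : List (ℕ × ℕ)) :
    NonIso n m l l' ↔ ¬ Nonempty (gr n l ≃g gr m l') := by
  constructor
  · rintro (h | h) ⟨e⟩
    · apply h
      simpa using Fintype.card_congr e.toEquiv
    · refine h (List.ofFn fun i => (e i : ℕ)) (mem_FL.2 ⟨by simp, ?_⟩) ?_
      · intro x hx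
        obtain ⟨i, rfl⟩ := (List.mem_ofFn ..).1 hx
        exact (e i).2
      · intro i hi j hj
        have h1 : ∀ i (hi : i < n), (List.ofFn fun i => (e i : ℕ)).getD i 0 = e ⟨i, hi⟩ := by
          intro i hi
          rw [List.getD_eq_getElem _ _ (by simpa using hi), List.getElem_ofFn]
        rw [h1 i hi, h1 j hj]
        refine ⟨fun h => ?_, ?_⟩
        · have := e.injective (Fin.ext h)
          simpa using this
        · have := e.map_adj_iff (v := ⟨i, hi⟩) (w := ⟨j, hj⟩)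
          rw [gr_adj, gr_adj] at this
          exact this.symm
  · intro h
    by_contra hc
    rw [NonIso, not_or, not_not] at hc
    obtain ⟨rfl, hc⟩ := hc
    push Not at hc
    obtain ⟨π, hπ, h2⟩ := hc
    obtain ⟨hlen, hlt⟩ := mem_FL.1 hπ
    have hb : ∀ i < n, π.getD i 0 < n := by
      intro i hi
      rw [List.getD_eq_getElem _ _ (by omega)]
      exact hlt _ (List.getElem_mem _)
    let f : Fin n → Fin n := fun i => ⟨π.getD i 0, hb i i.2⟩
    have hf : Function.Injective f := by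
      intro i j hij
      have := (h2 i i.2 j j.2).1 (by simpa [f] using hij)
      exact Fin.ext this
    have hf' : Function.Bijective f := (Finite.injective_iff_bijective).1 hf
    apply h
    refine ⟨{ toEquiv := Equiv.ofBijective f hf', map_rel_iff' := ?_ }⟩
    intro i j
    show adjL l' (f i) (f j) ↔ adjL l i j
    exact (h2 i i.2 j j.2).2.symm

/-- the data `(n, m), (l, l')` -/
abbrev IData : Type := (ℕ × ℕ) × (List (ℕ × ℕ) × List (ℕ × ℕ))

theorem primrec_nonIso : PrimrecPred fun x : IData => NonIso x.1.1 x.1.2 x.2.1 x.2.2 := by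
  have hn : Primrec fun x : IData => x.1.1 := Primrec.fst.comp Primrec.fst
  have hm : Primrec fun x : IData => x.1.2 := Primrec.snd.comp Primrec.fst
  have hl : Primrec fun x : IData => x.2.1 := Primrec.fst.comp Primrec.snd
  have hl' : Primrec fun x : IData => x.2.2 := Primrec.snd.comp Primrec.snd
  refine (pp_eq hn hm).not.or (ctx_forall_mem (primrec_FL.comp hm hn) (PrimrecPred.not ?_))
  refine ctx_forall_lt (σ := IData × List ℕ) (f := fun z => z.1.1.1) (hn.comp Primrec.fst)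
    (P := fun z i => ∀ j < z.1.1.1, (z.2.getD i 0 = z.2.getD j 0 → i = j) ∧
      (adjL z.1.2.1 i j ↔ adjL z.1.2.2 (z.2.getD i 0) (z.2.getD j 0))) ?_
  refine ctx_forall_lt (σ := (IData × List ℕ) × ℕ) (f := fun z => z.1.1.1.1)
    (hn.comp (Primrec.fst.comp Primrec.fst))
    (P := fun z j => (z.1.2.getD z.2 0 = z.1.2.getD j 0 → z.2 = j) ∧
      (adjL z.1.1.2.1 z.2 j ↔ adjL z.1.1.2.2 (z.1.2.getD z.2 0) (z.1.2.getD j 0))) ?_
  have hπ : Primrec fun z : ((IData × List ℕ) × ℕ) × ℕ => z.1.1.2 :=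
    Primrec.snd.comp (Primrec.fst.comp Primrec.fst)
  have hi : Primrec fun z : ((IData × List ℕ) × ℕ) × ℕ => z.1.2 := Primrec.snd.comp Primrec.fst
  have hj : Primrec fun z : ((IData × List ℕ) × ℕ) × ℕ => z.2 := Primrec.snd
  have hx : Primrec fun z : ((IData × List ℕ) × ℕ) × ℕ => z.1.1.1 :=
    Primrec.fst.comp (Primrec.fst.comp Primrec.fst)
  have hgi : Primrec fun z : ((IData × List ℕ) × ℕ) × ℕ => z.1.1.2.getD z.1.2 0 :=
    (Primrec.list_getD 0).comp hπ hi
  have hgj : Primrec fun z : ((IData × List ℕ) × ℕ) × ℕ => z.1.1.2.getD z.2 0 :=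
    (Primrec.list_getD 0).comp hπ hj
  refine (pp_imp (pp_eq hgi hgj) (pp_eq hi hj)).and (pp_iff ?_ ?_)
  · exact pp_adjL (hl.comp hx) hi hj
  · exact pp_adjL (hl'.comp hx) hgi hgj

end Pool.Agent.Helper84.LD
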