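import Pool.Agent.Helper84.LD.Bridge
import Pool.Agent.Helper84.MRDP.Spec

set_option autoImplicit false

/-!
# Undecidability of the logical depth of trees from a gadget theorem

`GadgetFor m E`: what the combinatorial construction has to deliver for the system `E`.
-/

namespace Pool.Agent.Helper84.LD

open Pool.Agent.Helper84.MRDP

/-- bounded solutions of the system `E ∧ y 0 = 1 ∧ y 1 = a * y 0` -/
def BSol (m : ℕ) (E : List Eq2) (a B : ℕ) : Prop :=
  ∃ y : ℕ → ℕ, (∀ e ∈ E, e.Holds y) ∧ y 0 = 1 ∧ y 1 = a * y 0 ∧ ∀ i < m, y i ≤ B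

theorem pp_holds {m : ℕ} (e : Eq2) : PrimrecPred fun z : List ℕ => e.Holds (z.getD · 0) := by
  have hg : ∀ i : ℕ, Primrec fun z : List ℕ => z.getD i 0 := fun i =>
    (Primrec.list_getD 0).comp Primrec.id (Primrec.const i)
  cases e with
  | add i j k => exact pp_eq (Primrec.nat_add.comp (hg i) (hg j)) (hg k)
  | sq i j => exact pp_eq (hg j) (Primrec.nat_mul.comp (hg i) (hg i))

theorem pp_holds_all (E : List Eq2) :
    PrimrecPred fun z : List ℕ => ∀ e ∈ E, e.Holds (z.getD · 0) := by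
  induction E with
  | nil =>
    refine PrimrecPred.of_eq (p := fun _ : List ℕ => (0 : ℕ) = 0)
      (pp_eq (Primrec.const 0) (Primrec.const 0)) fun z => ?_
    simp
  | cons e E ih =>
    refine ((pp_holds (m := 0) e).and ih).of_eq fun z => ?_
    simp

theorem computablePred_bSol {m : ℕ} {E : List Eq2} (hm : 2 ≤ m) (hE : ∀ e ∈ E, e.Below m) :
    ComputablePred fun x : ℕ × ℕ => BSol m E x.1 x.2 := by
  have h1 : PrimrecPred fun x : ℕ × ℕ => ∃ z ∈ FL (x.2 + 1) m,
      ((∀ e ∈ E, e.Holds (z.getD · 0)) ∧ z.getD 0 0 = 1 ∧ z.getD 1 0 = x.1 * z.getD 0 0) := by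
    refine ctx_exists_mem (σ := ℕ × ℕ) (L := fun x => FL (x.2 + 1) m)
      (primrec_FL.comp (Primrec.succ.comp Primrec.snd) (Primrec.const m))
      (P := fun x z => (∀ e ∈ E, e.Holds (z.getD · 0)) ∧ z.getD 0 0 = 1 ∧
        z.getD 1 0 = x.1 * z.getD 0 0) ?_
    have hg : ∀ i : ℕ, Primrec fun z : (ℕ × ℕ) × List ℕ => z.2.getD i 0 := fun i =>
      (Primrec.list_getD 0).comp Primrec.snd (Primrec.const i)
    refine PrimrecPred.and ((pp_holds_all E).comp Primrec.snd) (PrimrecPred.and ?_ ?_)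
    · exact pp_eq (hg 0) (Primrec.const 1)
    · exact pp_eq (hg 1) (Primrec.nat_mul.comp (Primrec.fst.comp Primrec.fst) (hg 0))
  have h2 : PrimrecPred fun x : ℕ × ℕ => BSol m E x.1 x.2 := by
    refine h1.of_eq fun x => ?_
    constructor
    · rintro ⟨z, hz, h3, h4, h5⟩
      obtain ⟨h6, h7⟩ := mem_FL.1 hz
      refine ⟨(z.getD · 0), h3, h4, h5, fun i hi => ?_⟩
      show z.getD i 0 ≤ x.2
      rw [List.getD_eq_getElem _ _ (by omega)]
      have := h7 _ (List.getElem_mem (l := z) (n := i) (by omega))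
      omega
    · rintro ⟨y, h3, h4, h5, h6⟩
      have hg : ∀ i < m, ((List.range m).map y).getD i 0 = y i := by
        intro i hi
        rw [List.getD_eq_getElem _ _ (by simpa using hi)]
        simp
      refine ⟨(List.range m).map y, mem_FL.2 ⟨by simp, ?_⟩, ?_, ?_, ?_⟩
      · intro z hz
        obtain ⟨i, hi, rfl⟩ := List.mem_map.1 hz
        have := h6 i (List.mem_range.1 hi)
        omega
      · intro e he
        refine (Eq2.holds_congr (hE e he) ?_).2 (h3 e he)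
        exact hg
      · rw [hg 0 (by omega)]; exact h4
      · rw [hg 0 (by omega), hg 1 (by omega)]; exact h5
  obtain ⟨h3, h4⟩ := h2
  exact ⟨h3, h4.to_comp⟩

/-- **What the gadget has to deliver.** For a finite system `E` of equations `y i + y j = y k`,
`y j = y i ^ 2` in which `y 0 ∈ {0,1}` and in which (together with `y 1 = a * y 0`) `y 0 = 0`
forces `y = 0`: for every `a` there are a finite tree `T` and a number `k`, of size bounded by a
computable function of `a`, such that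
* if `E ∧ y 0 = 1 ∧ y 1 = a * y 0` has a solution, then some `H ≢ T` is `k`-equivalent to `T`,
* every `H ≢ T` which is `k`-equivalent to `T` gives a solution with all `y i ≤ G |H|`. -/
def Gadget : Prop :=
  ∀ (m : ℕ) (E : List Eq2), 2 ≤ m → (∀ e ∈ E, e.Below m) →
    (∀ y : ℕ → ℕ, (∀ e ∈ E, e.Holds y) → y 0 = 0 ∨ y 0 = 1) →
    (∀ (a : ℕ) (y : ℕ → ℕ), (∀ e ∈ E, e.Holds y) → y 1 = a * y 0 → y 0 = 0 →
      ∀ i < m, y i = 0) →
    ∃ S G : ℕ → ℕ, Computable S ∧ Computable G ∧ Monotone G ∧ ∀ a, ∃ (V : Type) (_ : Fintype V)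
      (T : SimpleGraph V) (k : ℕ), Fintype.card V ≤ S a ∧ k ≤ S a ∧ T.IsTree ∧
      ((∃ y : ℕ → ℕ, (∀ e ∈ E, e.Holds y) ∧ y 0 = 1 ∧ y 1 = a * y 0) →
        ∃ (W : Type) (_ : Fintype W) (H : SimpleGraph W),
          Win T H k [] ∧ ¬ Nonempty (T ≃g H)) ∧
      ∀ (W : Type) [Fintype W] (H : SimpleGraph W), Win T H k [] → ¬ Nonempty (T ≃g H) →
        ∃ y : ℕ → ℕ, (∀ e ∈ E, e.Holds y) ∧ y 0 = 1 ∧ y 1 = a * y 0 ∧
          ∀ i < m, y i ≤ G (Fintype.card W)

/-- the depth of trees is not computable, if the gadget exists -/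
theorem not_computable_of_gadget (hG : Gadget) :
    ¬ ∃ f : ℕ → List (ℕ × ℕ) → ℕ, Computable₂ f ∧ IsDepth f := by
  obtain ⟨m, E, h1, h2, h3, h4, h5⟩ := exists_system
  obtain ⟨S, G, hS, hGc, hGm, h⟩ := hG m E h1 h2 h3 h4
  refine bridge h5 (Wt := fun a B => BSol m E a (G B)) ?_ ?_ ?_ hS ?_
  · obtain ⟨g, hg, hg2⟩ := ComputablePred.computable_iff.1 (computablePred_bSol h1 h2)
    rw [ComputablePred.computable_iff]
    refine ⟨fun x => g (x.1, G x.2), hg.comp (Computable.pair Computable.fst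
      (hGc.comp Computable.snd)), ?_⟩
    funext x
    exact congrFun hg2 (x.1, G x.2)
  · rintro a B B' hB ⟨y, h6, h7, h8, h9⟩
    exact ⟨y, h6, h7, h8, fun i hi => (h9 i hi).trans (hGm hB)⟩
  · rintro a B ⟨y, h6, h7, h8, -⟩
    exact ⟨y, h6, h7, h8⟩
  · intro a
    obtain ⟨V, hV, T, k, h6, h7, h8, h9, h10⟩ := h a
    exact ⟨V, hV, T, k, h6, h7, h8, h9, fun W _ H hw hn => h10 W H hw hn⟩

end Pool.Agent.Helper84.LD
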