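import Pool.Agent.Helper84.LD.Main
import Pool.Agent.Helper84.MRDP.Large2

set_option autoImplicit false

/-!
# Undecidability of the logical depth of trees from a gadget theorem, second form

`GadgetP`: the gadget for pure systems of equations `y i + y j = y k`, `y j = y i ^ 2`
(no parameter), where only large solutions have to be realised.
-/

namespace Pool.Agent.Helper84.LD

open Pool.Agent.Helper84.MRDP

/-- the equations `y 1 = (a + 5) * y 0`, written out with the unknowns `y m, …, y (m + a + 2)` -/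
def chain (m a : ℕ) : List Eq2 :=
  .add 0 0 m :: ((List.range (a + 2)).map fun j => .add (m + j) 0 (m + j + 1)) ++
    [.add (m + a + 2) 0 1]

theorem chain_length (m a : ℕ) : (chain m a).length = a + 4 := by
  simp [chain]

theorem chain_below {m a : ℕ} (hm : 2 ≤ m) : ∀ e ∈ chain m a, e.Below (m + a + 3) := by
  intro e he
  simp only [chain, List.cons_append, List.mem_cons, List.mem_append, List.mem_map, List.mem_range,
    List.not_mem_nil, or_false] at he
  rcases he with rfl | ⟨j, hj, rfl⟩ | rfl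
  · exact ⟨by omega, by omega, by omega⟩
  · exact ⟨by omega, by omega, by omega⟩
  · exact ⟨by omega, by omega, by omega⟩

theorem chain_sound {m a : ℕ} {y : ℕ → ℕ} (hy : ∀ e ∈ chain m a, e.Holds y) :
    y 1 = (a + 5) * y 0 := by
  have h0 : y 0 + y 0 = y m := hy (.add 0 0 m) (by simp [chain])
  have h1 : ∀ j < a + 2, y (m + j) + y 0 = y (m + j + 1) := fun j hj =>
    hy (.add (m + j) 0 (m + j + 1)) (by
      simp only [chain, List.cons_append, List.mem_cons, List.mem_append, List.mem_map,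
        List.mem_range]
      exact Or.inr (Or.inl ⟨j, hj, rfl⟩))
  have h2 : y (m + a + 2) + y 0 = y 1 := hy (.add (m + a + 2) 0 1)
    (List.mem_append_right _ (List.mem_singleton_self _))
  have h3 : ∀ j ≤ a + 2, y (m + j) = (j + 2) * y 0 := by
    intro j
    induction j with
    | zero => intro _; rw [Nat.add_zero, ← h0]; ring
    | succ j ih =>
      intro hj
      rw [← Nat.add_assoc, ← h1 j (by omega), ih (by omega)]
      ring
  rw [← h2, Nat.add_assoc, h3 (a + 2) le_rfl]
  ring

theorem chain_compl {m a B : ℕ} (hm : 2 ≤ m) {E : List Eq2} (hE : ∀ e ∈ E, e.Below m)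
    {y : ℕ → ℕ} (hy : ∀ e ∈ E, e.Holds y) (hya : y 1 = (a + 5) * y 0) (hB : ∀ i < m, B ≤ y i) :
    ∃ y' : ℕ → ℕ, (∀ e ∈ E ++ chain m a, e.Holds y') ∧ ∀ i < m + a + 3, B ≤ y' i := by
  let y' : ℕ → ℕ := fun n => if n < m then y n else (n - m + 2) * y 0
  have hlt : ∀ n < m, y' n = y n := fun n hn => by simp only [y', hn, if_true]
  have hge : ∀ j, y' (m + j) = (j + 2) * y 0 := fun j => by
    simp only [y', show ¬ (m + j < m) by omega, if_false, Nat.add_sub_cancel_left]
  have h0 : y' 0 = y 0 := hlt 0 (by omega)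
  have h1 : y' 1 = y 1 := hlt 1 (by omega)
  refine ⟨y', ?_, ?_⟩
  · intro e he
    rcases List.mem_append.1 he with he | he
    · exact holds_all_congr hE hlt hy e he
    · simp only [chain, List.cons_append, List.mem_cons, List.mem_append, List.mem_map,
        List.mem_range, List.not_mem_nil, or_false] at he
      rcases he with rfl | ⟨j, hj, rfl⟩ | rfl
      · show y' 0 + y' 0 = y' m
        have := hge 0
        rw [Nat.add_zero] at this
        rw [this, h0]; ring
      · show y' (m + j) + y' 0 = y' (m + j + 1)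
        rw [Nat.add_assoc, hge, hge, h0]; ring
      · show y' (m + a + 2) + y' 0 = y' 1
        rw [Nat.add_assoc, hge, h0, h1, hya]; ring
  · intro i hi
    rcases Nat.lt_or_ge i m with h | h
    · rw [hlt i h]; exact hB i h
    · obtain ⟨j, rfl⟩ := Nat.exists_eq_add_of_le h
      rw [hge]
      exact (hB 0 (by omega)).trans (Nat.le_mul_of_pos_left _ (by omega))

/-- bounded solutions of the system `E ∧ y 0 ≥ 1 ∧ y 1 = (a + 5) * y 0` -/
def BSol' (m : ℕ) (E : List Eq2) (a B : ℕ) : Prop :=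
  ∃ y : ℕ → ℕ, (∀ e ∈ E, e.Holds y) ∧ 1 ≤ y 0 ∧ y 1 = (a + 5) * y 0 ∧ ∀ i < m, y i ≤ B

theorem computablePred_bSol' {m : ℕ} {E : List Eq2} (hm : 2 ≤ m) (hE : ∀ e ∈ E, e.Below m) :
    ComputablePred fun x : ℕ × ℕ => BSol' m E x.1 x.2 := by
  have h1 : PrimrecPred fun x : ℕ × ℕ => ∃ z ∈ FL (x.2 + 1) m,
      ((∀ e ∈ E, e.Holds (z.getD · 0)) ∧ 1 ≤ z.getD 0 0 ∧
        z.getD 1 0 = (x.1 + 5) * z.getD 0 0) := by
    refine ctx_exists_mem (σ := ℕ × ℕ) (L := fun x => FL (x.2 + 1) m)
      (primrec_FL.comp (Primrec.succ.comp Primrec.snd) (Primrec.const m))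
      (P := fun x z => (∀ e ∈ E, e.Holds (z.getD · 0)) ∧ 1 ≤ z.getD 0 0 ∧
        z.getD 1 0 = (x.1 + 5) * z.getD 0 0) ?_
    have hg : ∀ i : ℕ, Primrec fun z : (ℕ × ℕ) × List ℕ => z.2.getD i 0 := fun i =>
      (Primrec.list_getD 0).comp Primrec.snd (Primrec.const i)
    refine PrimrecPred.and ((pp_holds_all E).comp Primrec.snd) (PrimrecPred.and ?_ ?_)
    · exact Primrec.nat_le.comp (Primrec.const 1) (hg 0)
    · exact pp_eq (hg 1) (Primrec.nat_mul.comp (Primrec.nat_add.comp
        (Primrec.fst.comp Primrec.fst) (Primrec.const 5)) (hg 0))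
  have h2 : PrimrecPred fun x : ℕ × ℕ => BSol' m E x.1 x.2 := by
    refine h1.of_eq fun x => ?_
    constructor
    · rintro ⟨z, hz, h3, h4, h5⟩
      obtain ⟨h6, h7⟩ := mem_FL.1 hz
      refine ⟨(z.getD · 0), h3, h4, h5, fun i hi => ?_⟩
      show z.getD i 0 ≤ x.2
      rw [List.getD_eq_getElem _ _ (by omega)]
      have := h7 _ (List.getElem_mem (l := z) (n := i) (by omega))
      omega
    · rintro ⟨y, h3, h4, h5, h6⟩
      have hg : ∀ i < m, ((List.range m).map y).getD i 0 = y i := by
        intro i hi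
        rw [List.getD_eq_getElem _ _ (by simpa using hi)]
        simp
      refine ⟨(List.range m).map y, mem_FL.2 ⟨by simp, ?_⟩, ?_, ?_, ?_⟩
      · intro z hz
        obtain ⟨i, hi, rfl⟩ := List.mem_map.1 hz
        have := h6 i (List.mem_range.1 hi)
        omega
      · intro e he
        refine (Eq2.holds_congr (hE e he) ?_).2 (h3 e he)
        exact hg
      · rw [hg 0 (by omega)]; exact h4
      · rw [hg 0 (by omega), hg 1 (by omega)]; exact h5
  obtain ⟨h3, h4⟩ := h2
  exact ⟨h3, h4.to_comp⟩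

/-- **What the gadget has to deliver, second form.** `Sz m l` bounds the sizes for a system of `l`
equations in the unknowns `y 0, …, y (m - 1)`. For every such system there are a finite tree `T` and
a number `k` such that
* if for every `B` there is a solution with all unknowns `≥ B`, then some `H ≢ T` is `k`-equivalent
  to `T`,
* every `H ≢ T` which is `k`-equivalent to `T` gives a solution with `y 0 ≥ 1` and all
  `y i ≤ G |H|`. -/
def GadgetP : Prop :=
  ∃ (Sz : ℕ → ℕ → ℕ) (G : ℕ → ℕ), Computable₂ Sz ∧ Computable G ∧ Monotone G ∧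
    ∀ (m : ℕ) (E : List Eq2), 2 ≤ m → (∀ e ∈ E, e.Below m) →
    ∃ (V : Type) (_ : Fintype V) (T : SimpleGraph V) (k : ℕ),
      Fintype.card V ≤ Sz m E.length ∧ k ≤ Sz m E.length ∧ T.IsTree ∧
      ((∀ B : ℕ, ∃ y : ℕ → ℕ, (∀ e ∈ E, e.Holds y) ∧ ∀ i < m, B ≤ y i) →
        ∃ (W : Type) (_ : Fintype W) (H : SimpleGraph W),
          Win T H k [] ∧ ¬ Nonempty (T ≃g H)) ∧
      ∀ (W : Type) [Fintype W] (H : SimpleGraph W), Win T H k [] → ¬ Nonempty (T ≃g H) →
        ∃ y : ℕ → ℕ, (∀ e ∈ E, e.Holds y) ∧ 1 ≤ y 0 ∧ ∀ i < m, y i ≤ G (Fintype.card W)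

/-- the depth of trees is not computable, if the gadget exists -/
theorem not_computable_of_gadgetP (hG : GadgetP) :
    ¬ ∃ f : ℕ → List (ℕ × ℕ) → ℕ, Computable₂ f ∧ IsDepth f := by
  obtain ⟨Sz, G, hSz, hGc, hGm, h⟩ := hG
  obtain ⟨p, hp, hp'⟩ := exists_re_not_computable
  obtain ⟨m, E, h1, h2, h3, h4⟩ := mrdp_large_system hp
  refine bridge hp' (Wt := fun a B => BSol' m E a (G B)) ?_ ?_ ?_
    (S := fun a => Sz (m + a + 3) (E.length + (a + 4))) ?_ ?_
  · obtain ⟨g, hg, hg2⟩ := ComputablePred.computable_iff.1 (computablePred_bSol' h1 h2)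
    rw [ComputablePred.computable_iff]
    refine ⟨fun x => g (x.1, G x.2), hg.comp (Computable.pair Computable.fst
      (hGc.comp Computable.snd)), ?_⟩
    funext x
    exact congrFun hg2 (x.1, G x.2)
  · rintro a B B' hB ⟨y, h6, h7, h8, h9⟩
    exact ⟨y, h6, h7, h8, fun i hi => (h9 i hi).trans (hGm hB)⟩
  · rintro a B ⟨y, h6, h7, h8, -⟩
    exact h3 a y h6 h8 h7
  · refine hSz.comp ?_ ?_
    · exact (Primrec.nat_add.comp (Primrec.nat_add.comp (Primrec.const m) Primrec.id)
        (Primrec.const 3)).to_comp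
    · exact (Primrec.nat_add.comp (Primrec.const E.length)
        (Primrec.nat_add.comp Primrec.id (Primrec.const 4))).to_comp
  · intro a
    have hbel : ∀ e ∈ E ++ chain m a, e.Below (m + a + 3) := by
      intro e he
      rcases List.mem_append.1 he with he | he
      · exact (h2 e he).mono (by omega)
      · exact chain_below h1 e he
    obtain ⟨V, hV, T, k, h6, h7, h8, h9, h10⟩ := h (m + a + 3) (E ++ chain m a) (by omega) hbel
    rw [List.length_append, chain_length] at h6 h7
    refine ⟨V, hV, T, k, h6, h7, h8, fun hpa => h9 fun B => ?_, fun W _ H hw hn => ?_⟩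
    · obtain ⟨y, hy1, hy2, hy3⟩ := h4 a B hpa
      exact chain_compl h1 h2 hy1 hy2 hy3
    · obtain ⟨y, hy1, hy2, hy3⟩ := h10 W H hw hn
      exact ⟨y, fun e he => hy1 e (List.mem_append_left _ he), hy2,
        chain_sound fun e he => hy1 e (List.mem_append_right _ he),
        fun i hi => hy3 i (by omega)⟩

end Pool.Agent.Helper84.LD
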