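import Pool.Agent.Helper84.LD.Game

set_option autoImplicit false

/-!
# Trees coded by lists of parents
-/

namespace Pool.Agent.Helper84.LD

/-- the list of edges `(i+1, p i)` -/
def parL (p : List ℕ) : List (ℕ × ℕ) := (List.range p.length).map fun i => (i + 1, p.getD i 0)

/-- the parents are smaller -/
def Valid (p : List ℕ) : Prop := ∀ i < p.length, p.getD i 0 ≤ i

theorem mem_parL {p : List ℕ} {a b : ℕ} :
    (a, b) ∈ parL p ↔ ∃ i < p.length, a = i + 1 ∧ b = p.getD i 0 := by
  simp only [parL, List.mem_map, List.mem_range, Prod.mk.injEq]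
  constructor
  · rintro ⟨i, hi, h1, h2⟩; exact ⟨i, hi, h1.symm, h2.symm⟩
  · rintro ⟨i, hi, h1, h2⟩; exact ⟨i, hi, h1.symm, h2.symm⟩

theorem lt_of_mem_parL {p : List ℕ} (hp : Valid p) {a b : ℕ} (h : (a, b) ∈ parL p) :
    b < a ∧ a < p.length + 1 := by
  obtain ⟨i, hi, rfl, rfl⟩ := mem_parL.1 h
  have := hp i hi
  omega

/-- adjacency in the tree of a list of parents, exactly as the frozen statement wants it -/
theorem par_adj {p : List ℕ} (hp : Valid p) (i j : Fin (p.length + 1)) :
    (gr (p.length + 1) (parL p)).Adj i j ↔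
      ((i : ℕ), (j : ℕ)) ∈ parL p ∨ ((j : ℕ), (i : ℕ)) ∈ parL p := by
  rw [gr_adj]
  constructor
  · exact fun h => h.2
  · intro h
    refine ⟨?_, h⟩
    rcases h with h | h
    · have := lt_of_mem_parL hp h; omega
    · have := lt_of_mem_parL hp h; omega

theorem par_isTree {p : List ℕ} (hp : Valid p) : (gr (p.length + 1) (parL p)).IsTree := by
  classical
  set G := gr (p.length + 1) (parL p) with hG
  have hreach : ∀ (i : ℕ) (hi : i < p.length + 1), G.Reachable ⟨i, hi⟩ 0 := by
    intro i
    induction i using Nat.strong_induction_on with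
    | _ i ih =>
      intro hi
      rcases Nat.eq_zero_or_pos i with rfl | hpos
      · exact SimpleGraph.Reachable.refl _
      · obtain ⟨d, rfl⟩ : ∃ d, i = d + 1 := ⟨i - 1, by omega⟩
        have hd : d < p.length := by omega
        have hq := hp d hd
        have hadj : G.Adj ⟨d + 1, hi⟩ ⟨p.getD d 0, by omega⟩ := by
          rw [hG, par_adj hp]
          exact Or.inl (mem_parL.2 ⟨d, hd, rfl, rfl⟩)
        exact hadj.reachable.trans (ih _ (by omega) _)
  have hconn : G.Connected := by
    have : Nonempty (Fin (p.length + 1)) := ⟨0⟩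
    refine ⟨fun u v => ?_⟩
    exact (hreach u u.2).trans (hreach v v.2).symm
  rw [SimpleGraph.isTree_iff_connected_and_card]
  refine ⟨hconn, le_antisymm ?_ hconn.card_vert_le_card_edgeSet_add_one⟩
  -- number of edges
  have hq : ∀ i : Fin p.length, p.getD i 0 < p.length + 1 := by
    intro i
    have := hp i i.2
    omega
  let f : Fin p.length → Sym2 (Fin (p.length + 1)) := fun i =>
    s(⟨i + 1, by omega⟩, ⟨p.getD i 0, hq i⟩)
  have hsub : G.edgeSet ⊆ Set.range f := by
    intro e
    induction e using Sym2.ind with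
    | _ u v =>
      intro he
      rw [SimpleGraph.mem_edgeSet, hG, par_adj hp] at he
      rcases he with he | he
      · obtain ⟨i, hi, h1, h2⟩ := mem_parL.1 he
        refine ⟨⟨i, hi⟩, ?_⟩
        have e1 : (⟨i + 1, by omega⟩ : Fin (p.length + 1)) = u := Fin.ext h1.symm
        have e2 : (⟨p.getD i 0, hq ⟨i, hi⟩⟩ : Fin (p.length + 1)) = v := Fin.ext h2.symm
        show s(_, _) = s(u, v)
        rw [← e1, ← e2]
      · obtain ⟨i, hi, h1, h2⟩ := mem_parL.1 he
        refine ⟨⟨i, hi⟩, ?_⟩
        have e1 : (⟨i + 1, by omega⟩ : Fin (p.length + 1)) = v := Fin.ext h1.symm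
        have e2 : (⟨p.getD i 0, hq ⟨i, hi⟩⟩ : Fin (p.length + 1)) = u := Fin.ext h2.symm
        show s(_, _) = s(u, v)
        rw [← e1, ← e2, Sym2.eq_swap]
  have h1 : Nat.card G.edgeSet ≤ p.length := by
    calc Nat.card G.edgeSet ≤ Nat.card (Set.range f) :=
          Nat.card_mono (Set.finite_range f) hsub
      _ ≤ Nat.card (Fin p.length) :=
          Nat.card_le_card_of_surjective (Set.rangeFactorization f) Set.rangeFactorization_surjective
      _ = p.length := by simp
  have h2 : Nat.card (Fin (p.length + 1)) = p.length + 1 := by simp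
  omega

/-- every finite tree is isomorphic to the tree of a valid list of parents -/
theorem exists_par {V : Type*} [Fintype V] {T : SimpleGraph V} (hT : T.IsTree) :
    ∃ p : List ℕ, p.length + 1 = Fintype.card V ∧ Valid p ∧
      Nonempty (gr (p.length + 1) (parL p) ≃g T) := by
  classical
  obtain ⟨n, hn⟩ : ∃ n, Fintype.card V = n + 1 := by
    have := hT.connected.nonempty
    exact ⟨Fintype.card V - 1, by have := Fintype.card_pos (α := V); omega⟩
  have := hT.connected.nonempty
  obtain ⟨r⟩ := this
  let e0 : Fin (n + 1) ≃ V := (finCongr hn.symm).trans (Fintype.equivFin V).symm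
  let d : V → ℕ := fun v => T.dist r v
  let σ : Equiv.Perm (Fin (n + 1)) := Tuple.sort (d ∘ e0)
  let e : Fin (n + 1) ≃ V := σ.trans e0
  have hmono : Monotone fun i => d (e i) := by
    have := Tuple.monotone_sort (d ∘ e0)
    exact this
  -- vertices at positive distance have a unique parent
  have hpar : ∀ v, d v ≠ 0 → ∃ u, T.Adj u v ∧ d u + 1 = d v := by
    intro v hv
    obtain ⟨w, hw⟩ := (hT.connected r v).exists_walk_length_eq_dist
    have hnil : ¬ w.Nil := by
      intro h
      have h2 : w.length = 0 := SimpleGraph.Walk.length_eq_zero_iff.2 h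
      apply hv
      show T.dist r v = 0
      omega
    refine ⟨w.penultimate, w.adj_penultimate hnil, ?_⟩
    have h1 : T.dist r w.penultimate ≤ w.dropLast.length := SimpleGraph.dist_le _
    have h2 : w.dropLast.length = w.length - 1 := by simp
    have h3 : T.dist r v ≤ T.dist r w.penultimate + 1 := by
      have h4 := hT.connected.dist_triangle (u := r) (v := w.penultimate) (w := v)
      have h5 : T.dist w.penultimate v = 1 :=
        SimpleGraph.dist_eq_one_iff_adj.2 (w.adj_penultimate hnil)
      omega
    show T.dist r w.penultimate + 1 = T.dist r v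
    have h6 : T.dist r v ≠ 0 := hv
    omega
  have huniq : ∀ v u u', T.Adj u v → d u + 1 = d v → T.Adj u' v → d u' + 1 = d v → u = u' := by
    intro v u u' h1 h2 h3 h4
    -- extend geodesics to paths from r to v
    obtain ⟨w, hwp, hw⟩ := (hT.connected r u).exists_path_of_dist
    obtain ⟨w', hwp', hw'⟩ := (hT.connected r u').exists_path_of_dist
    have hpath : ∀ (u : V) (w : T.Walk r u) (_ : w.IsPath) (_ : w.length = T.dist r u)
        (h : T.Adj u v) (_ : d u + 1 = d v), (w.concat h).IsPath := by
      intro u w hwp hw h h2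
      rw [SimpleGraph.Walk.concat_isPath_iff]
      refine ⟨hwp, fun hmem => ?_⟩
      have h5 : T.dist r v ≤ (w.takeUntil v hmem).length := SimpleGraph.dist_le _
      have h6 : (w.takeUntil v hmem).length ≤ w.length := w.length_takeUntil_le_length hmem
      have h7 : T.dist r u + 1 = T.dist r v := h2
      omega
    have hp1 := hpath u w hwp hw h1 h2
    have hp2 := hpath u' w' hwp' hw' h3 h4
    have := (hT.isAcyclic.subsingleton_path r v).elim ⟨_, hp1⟩ ⟨_, hp2⟩
    have h8 : w.concat h1 = w'.concat h3 := congrArg Subtype.val this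
    have h9 := congrArg SimpleGraph.Walk.penultimate h8
    simpa using h9
  have hr : ∀ v, d v = 0 ↔ v = r := by
    intro v
    show T.dist r v = 0 ↔ _
    rw [hT.connected.dist_eq_zero_iff]
    exact eq_comm
  have he0 : e 0 = r := by
    rw [← hr]
    have h1 : d (e 0) ≤ d (e (e.symm r)) := hmono (Fin.zero_le _)
    rw [Equiv.apply_symm_apply] at h1
    have h2 : d r = 0 := (hr r).2 rfl
    omega
  -- the parent function on indices
  have hq : ∀ i : Fin n, ∃ j : Fin (n + 1), T.Adj (e j) (e i.succ) ∧ d (e j) + 1 = d (e i.succ) := by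
    intro i
    have h1 : d (e i.succ) ≠ 0 := by
      rw [Ne, hr, ← he0]
      intro h
      exact Fin.succ_ne_zero i (e.injective h)
    obtain ⟨u, hu⟩ := hpar _ h1
    exact ⟨e.symm u, by simpa using hu⟩
  choose q hq1 hq2 using hq
  have hqlt : ∀ i : Fin n, (q i : ℕ) ≤ i := by
    intro i
    by_contra hc
    have h1 : i.succ ≤ q i := by
      rw [Fin.le_def, Fin.val_succ]; omega
    have h2 : d (e i.succ) ≤ d (e (q i)) := hmono h1
    have h3 := hq2 i
    omega
  refine ⟨List.ofFn fun i => (q i : ℕ), by simp [hn], ?_, ?_⟩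
  · intro i hi
    rw [List.length_ofFn] at hi
    rw [List.getD_eq_getElem _ _ (by simpa using hi), List.getElem_ofFn]
    exact hqlt ⟨i, hi⟩
  · have hlen : (List.ofFn fun i => (q i : ℕ)).length + 1 = n + 1 := by simp
    have hmem : ∀ a b : ℕ, (a, b) ∈ parL (List.ofFn fun i => (q i : ℕ)) ↔
        ∃ i : Fin n, a = i + 1 ∧ b = q i := by
      intro a b
      rw [mem_parL]
      constructor
      · rintro ⟨i, hi, h1, h2⟩
        rw [List.length_ofFn] at hi
        rw [List.getD_eq_getElem _ _ (by simpa using hi), List.getElem_ofFn] at h2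
        exact ⟨⟨i, hi⟩, h1, h2⟩
      · rintro ⟨i, h1, h2⟩
        refine ⟨i, by simp, h1, ?_⟩
        rw [List.getD_eq_getElem _ _ (by simp), List.getElem_ofFn]
        exact h2
    have hadj : ∀ i j : Fin (n + 1), T.Adj (e i) (e j) ↔
        adjL (parL (List.ofFn fun i => (q i : ℕ))) i j := by
      have key : ∀ i j : Fin (n + 1), T.Adj (e i) (e j) → d (e i) + 1 = d (e j) →
          ((j : ℕ), (i : ℕ)) ∈ parL (List.ofFn fun i => (q i : ℕ)) := by
        intro i j h1 h2
        have hj : j ≠ 0 := by
          rintro rfl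
          rw [he0] at h2
          have : d r = 0 := (hr r).2 rfl
          omega
        obtain ⟨j', rfl⟩ := Fin.exists_succ_eq.2 hj
        rw [hmem]
        refine ⟨j', by simp, ?_⟩
        have := huniq _ _ _ h1 h2 (hq1 j') (hq2 j')
        rw [e.injective this]
      have key2 : ∀ i j : Fin (n + 1), ((j : ℕ), (i : ℕ)) ∈ parL (List.ofFn fun i => (q i : ℕ)) →
          T.Adj (e i) (e j) := by
        intro i j h
        obtain ⟨j', h1, h2⟩ := (hmem _ _).1 h
        have hj : j = j'.succ := Fin.ext (by simpa using h1)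
        have hi : i = q j' := Fin.ext h2
        rw [hj, hi]
        exact hq1 j'
      intro i j
      constructor
      · intro h
        refine ⟨fun h' => h.ne (congrArg e (Fin.ext h')), ?_⟩
        rcases hT.dist_eq_dist_add_one_of_adj r h with h1 | h1
        · exact Or.inl (key j i h.symm h1.symm)
        · exact Or.inr (key i j h h1.symm)
      · rintro ⟨-, h | h⟩
        · exact (key2 j i h).symm
        · exact key2 i j h
    refine ⟨{ toEquiv := (finCongr hlen).trans e, map_rel_iff' := ?_ }⟩
    intro i j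
    show T.Adj (e (finCongr hlen i)) (e (finCongr hlen j)) ↔ _
    rw [hadj]
    rfl

end Pool.Agent.Helper84.LD
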