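import Pool.Agent.Helper2.LD.PartA
import Pool.Agent.Helper2.LD.Final
import Pool.Agent.Helper32.LD.AsmMac
import Pool.Agent.Helper12.LD.P_Tok
import Pool.Agent.Helper98.LD.P_Forest
import Pool.Agent.Helper84.LD.P_Bridge
import Pool.Agent.Helper51.LD.P_Tdist
import Pool.Agent.Helper69.LD.P_Pb
import Pool.Agent.Helper84.LD.P_Ttree
import Pool.Agent.Helper33.LD.P_Gdist
import Pool.Agent.Helper33.LD.P_Gpos
import Pool.Agent.Helper74.LD.P_Mt
import Pool.Agent.Helper48.LD.P_Ncore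
import Pool.Agent.Helper74.LD.P_Far
import Pool.Agent.Helper74.LD.P_B1
import Pool.Agent.Helper65.LD.P_Tinj
import Pool.Agent.Helper98.LD.P_Hyp
import Pool.Agent.Helper20.LD.P_Rig
import Pool.Agent.Helper20.LD.P_Rg
import Pool.Agent.Helper2.LD.P_Minj
import Pool.Agent.Helper98.LD.P_Cls
import Pool.Agent.Helper74.LD.P_Glue1
import Pool.Agent.Helper12.LD.P_Glue2
import Pool.Agent.Helper74.LD.P_Inner
import Pool.Agent.Helper74.LD.P_Root
import Pool.Agent.Helper65.LD.P_Port
import Pool.Agent.Helper74.LD.P_Gch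
import Pool.Agent.Helper14.LD.P_Tch
import Pool.Agent.Helper74.LD.P_FL
import Pool.Agent.Helper9.LD.P_ClA
import Pool.Agent.Helper9.LD.P_ClB
import Pool.Agent.Helper9.LD.P_Dich
import Pool.Agent.Helper9.LD.P_B2K
import Pool.Agent.Helper51.LD.P_B2I
import Pool.Agent.Helper9.LD.P_B2
import Pool.Agent.Helper84.LD.P_KC
import Pool.Agent.Helper84.LD.P_Ch
import Pool.Agent.Helper84.LD.P_Kd
import Pool.Agent.Helper84.LD.P_FIso
import Pool.Agent.Helper84.LD.P_Size
import Pool.Agent.Helper84.LD.P_FTree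
import Pool.Agent.Helper84.LD.P_FFin
import Pool.Agent.Helper84.LD.P_TFin
import Pool.Agent.Helper84.LD.P_WM
import Pool.Agent.Helper37.LD.T_SB
import Pool.Agent.Helper37.LD.T_FI
import Pool.Agent.Helper96.LD.T_NB
import Pool.Agent.Helper96.LD.T_CL
import Pool.Agent.Helper96.LD.T_GE
import Pool.Agent.Helper96.LD.T_GK
import Pool.Agent.Helper96.LD.T_GB
import Pool.Agent.Helper42.LD.T_NC
import Pool.Agent.Helper42.LD.T_GD
import Pool.Agent.Helper44.LD.T_B1
import Pool.Agent.Helper44.LD.T_B3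
import Pool.Agent.Helper44.LD.T_L8
import Pool.Agent.Helper33.LD.T_L5
import Pool.Agent.Helper81.LD.T_L6
import Pool.Agent.Helper45.LD.T_L7
import Pool.Agent.Helper2.LD.T_FB
import Pool.Agent.Helper14.LD.T_F1
import Pool.Agent.Helper32.LD.T_F2
import Pool.Agent.Helper32.LD.T_F2a
import Pool.Agent.Helper32.LD.T_F2s
import Pool.Agent.Helper32.LD.T_F2t
import Pool.Agent.Helper48.LD.P_Ntru
import Pool.Agent.Helper48.LD.P_Nfan
import Pool.Agent.Helper48.LD.P_Ngho
import Pool.Agent.Helper2.LD.P_Tsee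
import Pool.Agent.Helper98.LD.P_Face
import Pool.Agent.Helper32.LD.T_IS
import Pool.Agent.Helper32.LD.T_CD
import Pool.Agent.Helper32.LD.T_FA
import Pool.Agent.Helper33.LD.T_FC
import Pool.Agent.Helper70.LD.T_B2

/-!
# LD project: assembly of everything
-/

set_option autoImplicit false

namespace Pool.Agent.Helper84.LD.Asm

open Pool.Agent.Helper2.LD

/-! ### part B1 -/

theorem bTok : StTok := Pool.Agent.Helper12.LD.pTok
theorem bForest : StForest := Pool.Agent.Helper98.LD.pForest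
theorem bBridge : StBridge := Pool.Agent.Helper84.LD.pBridge
theorem bTdist : StTdist := Pool.Agent.Helper51.LD.pTdist bForest bBridge bTok
theorem bPb : StPb := Pool.Agent.Helper69.LD.pPb
theorem bTtree : StTtree := Pool.Agent.Helper84.LD.pTtree bTok
theorem bTpos : StTpos := Pool.Agent.Helper84.LD.pTpos bTok bTdist
theorem bGdist : StGdist := Pool.Agent.Helper33.LD.pGdist
theorem bGpos : StGpos := Pool.Agent.Helper33.LD.pGpos bGdist bPb
theorem bMt : StMt := Pool.Agent.Helper74.LD.pMt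
theorem bNcore : StNcore :=
  Pool.Agent.Helper48.LD.pNcore bPb bTok bTdist bTpos bGdist bGpos bMt
theorem bFar : StFar := Pool.Agent.Helper74.LD.pFar bTok bTdist
theorem bTinj : StTinj := Pool.Agent.Helper65.LD.pTinj bPb
theorem bHyp : StHyp := Pool.Agent.Helper98.LD.pHyp bTtree bTinj

theorem bNtru : StNtru :=
  Pool.Agent.Helper48.LD.pNtru bPb bTok bTdist bTpos bGdist bGpos bMt
theorem bNfan : StNfan :=
  Pool.Agent.Helper48.LD.pNfan bPb bTok bTdist bTpos bGdist bGpos bMt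
theorem bNgho : StNgho :=
  Pool.Agent.Helper48.LD.pNgho bPb bTok bTdist bTpos bGdist bGpos bMt

theorem bB1 : StB1 :=
  Pool.Agent.Helper74.LD.pB1 bNcore bNtru bNfan bNgho bFar

/-! ### part B2 -/

theorem bRig : StRig := Pool.Agent.Helper20.LD.pRig
theorem bRg : StRg := Pool.Agent.Helper20.LD.pRg bRig bTinj bTdist bTtree
theorem bCls : StCls := Pool.Agent.Helper98.LD.pCls bTok bTdist

theorem bTsee : StTsee := Pool.Agent.Helper2.LD.pTsee bTok bPb bTdist bTinj
theorem bFace : StFace := Pool.Agent.Helper98.LD.pFace bTok bPb bTdist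

theorem bMinj : StMinj := Pool.Agent.Helper2.LD.pMinj bTinj bTsee
theorem bGlue1 : StGlue1 := Pool.Agent.Helper74.LD.pGlue1 bRg bTsee bCls bPb bTdist bTpos
theorem bGlue2 : StGlue2 :=
  Pool.Agent.Helper12.LD.pGlue2 bRg bTsee bMinj bCls bFace bTdist
theorem bInner : StInner :=
  Pool.Agent.Helper74.LD.pInner bRg bTsee bMinj bCls bGlue1 bGlue2 bTinj bPb bTok bTdist
theorem bRoot : StRoot := Pool.Agent.Helper74.LD.pRoot bRg bTsee bMinj bCls bPb bTdist
theorem bPort : StPort :=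
  Pool.Agent.Helper65.LD.pPort bTok bPb bRg bMinj bCls bInner bRoot bGlue1
theorem bGch : StGch := Pool.Agent.Helper74.LD.pGch bRg bMinj bCls bPb
theorem bTch : StTch := Pool.Agent.Helper14.LD.pTch bRg bMinj bCls bPort
theorem bFL : StFL := Pool.Agent.Helper74.LD.pFL bRg bTsee bMinj bCls bInner bPort bFace bPb
theorem bClA : StClA :=
  Pool.Agent.Helper9.LD.pClA bRg bTsee bMinj bCls bPort bGch bFace bFL bTdist
theorem bClB : StClB := Pool.Agent.Helper9.LD.pClB bRg bTsee bMinj bCls bPort bGch bFace bTdist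
theorem bDich : StDich := Pool.Agent.Helper9.LD.pDich bFace bMinj bPort bClA bClB
theorem bB2K : StB2K := Pool.Agent.Helper9.LD.pB2K bFace bMinj bRoot bClA bDich
theorem bB2I : StB2I := Pool.Agent.Helper51.LD.pB2I bRg bTinj bTsee bMinj bCls bInner bPort
  bGch bTch bTtree bTok bTdist bTpos
theorem bB2 : StB2 := Pool.Agent.Helper9.LD.pB2 bMinj bDich bB2K bB2I bRoot

/-! ### part B3 -/

theorem bTFin : StTFin := Pool.Agent.Helper84.LD.pTFin bTok bTinj

/-! ### the tiling part -/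

section tiling

open Pool.Agent.Helper32.LD

theorem cSB : StSB := Pool.Agent.Helper37.LD.tSB
theorem cFI : StFI := Pool.Agent.Helper37.LD.tFI cSB
theorem cNB : StNB := Pool.Agent.Helper96.LD.tNB cSB
theorem cCL : StCL := Pool.Agent.Helper96.LD.tCL cSB cNB
theorem cGK : StGK := Pool.Agent.Helper96.LD.tGK cSB cFI
theorem cGB : StGB := Pool.Agent.Helper96.LD.tGB cSB cFI
theorem cB1 : Pool.Agent.Helper32.LD.StB1 := Pool.Agent.Helper44.LD.tB1
theorem cB3 : Pool.Agent.Helper32.LD.StB3 := Pool.Agent.Helper44.LD.tB3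
theorem cL5 : StL5 := Pool.Agent.Helper33.LD.tL5
theorem cL6 : StL6 := Pool.Agent.Helper81.LD.tL6 cSB
theorem cL7 : StL7 := Pool.Agent.Helper45.LD.tL7 cSB
theorem cFB : StFB := Pool.Agent.Helper2.LD.tFB cSB
theorem cF2 : StF2 := Pool.Agent.Helper32.LD.tF2 Pool.Agent.Helper32.LD.tF2a
  Pool.Agent.Helper32.LD.tF2t Pool.Agent.Helper32.LD.tF2s

theorem cIS : StIS := Pool.Agent.Helper32.LD.tIS aD12
theorem cB2 : Pool.Agent.Helper32.LD.StB2 := Pool.Agent.Helper70.LD.tB2 cB1
theorem cFA : StFA := Pool.Agent.Helper32.LD.tFA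
theorem cFC : StFC := Pool.Agent.Helper33.LD.tFC cSB cFA
theorem cCD : StCD := Pool.Agent.Helper32.LD.tCD

theorem cMac : StMac := by
  have cX := mcax_bt cB1 cB2 cB3
  have cGE : StGE := Pool.Agent.Helper96.LD.tGE aD12 cSB cCL cFI
    Pool.Agent.Helper42.LD.tNC Pool.Agent.Helper42.LD.tGD cIS
  have cL8 : StL8 := Pool.Agent.Helper44.LD.tL8 cFI cX
  have cF1 : StF1 := Pool.Agent.Helper14.LD.tF1 cSB cFB cFC
  exact mac_of Pool.Agent.Helper84.LD.pWM cB1 cB2 cB3 cGE cGK cGB cL5 cL6 cL7 cL8 cF1 cF2 cCD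

end tiling

/-! ### everything -/

theorem final :
    ¬ ∃ f : ℕ → List (ℕ × ℕ) → ℕ, Computable₂ f ∧ Pool.Agent.Helper84.LD.IsDepth f :=
  final_of aEFb partA1 partA2a partA2b bB1 bB2 bHyp bTtree cMac pFTree pFIso pFFin bTFin pKC pCh
    pKd pSize

end Pool.Agent.Helper84.LD.Asm
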